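import Mathlib

/-!
# Selberg's sieve (upper bound) and a logarithmic lower bound for the sieve sum
-/

set_option autoImplicit false

open Finset Nat ArithmeticFunction
open scoped ArithmeticFunction.Moebius ArithmeticFunction.zeta

namespace Pool.Agent.Lib.MP_d9bc60_nt.Sieve

variable (s : BoundingSieve)

/-- the Selberg sum -/
noncomputable def SS (z : ℕ) : ℝ :=
  ∑ l ∈ (s.prodPrimes.divisors).filter (· ≤ z), s.selbergTerms l

/-- the optimal weights -/
noncomputable def ww (z : ℕ) (d : ℕ) : ℝ :=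
  if d ∣ s.prodPrimes then
    (μ d : ℝ) * (s.nu d)⁻¹ * (SS s z)⁻¹ *
      ∑ e ∈ (s.prodPrimes.divisors).filter (fun e => d ∣ e ∧ e ≤ z), s.selbergTerms e
  else 0

lemma SS_pos (z : ℕ) (hz : 1 ≤ z) : 0 < SS s z := by
  unfold SS
  apply Finset.sum_pos
  · intro l hl
    rw [Finset.mem_filter, Nat.mem_divisors] at hl
    exact BoundingSieve.selbergTerms_pos hl.1.1
  · exact ⟨1, Finset.mem_filter.2 ⟨Nat.mem_divisors.2 ⟨one_dvd _, BoundingSieve.prodPrimes_ne_zero⟩, hz⟩⟩

lemma ww_one (z : ℕ) (hz : 1 ≤ z) : ww s z 1 = 1 := by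
  unfold ww
  rw [if_pos (one_dvd _)]
  have h1 : (s.prodPrimes.divisors).filter (fun e => 1 ∣ e ∧ e ≤ z) =
      (s.prodPrimes.divisors).filter (· ≤ z) := by
    apply Finset.filter_congr
    intro e _
    simp
  rw [h1]
  have h2 : s.nu 1 = 1 := s.nu_mult.map_one
  rw [h2, ArithmeticFunction.moebius_apply_one]
  have := (SS_pos s z hz).ne'
  have h3 : ∑ e ∈ (s.prodPrimes.divisors).filter (· ≤ z), s.selbergTerms e = SS s z := rfl
  rw [h3]
  field_simp
  simp

/-- `∑_{l ∣ d ∣ e} μ(d) = μ(l) [e = l]` for squarefree `e` -/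
lemma sum_moebius_between (l e : ℕ) (he : Squarefree e) :
    ∑ d ∈ e.divisors.filter (fun d => l ∣ d), (μ d : ℝ) = if e = l then (μ l : ℝ) else 0 := by
  by_cases hle : l ∣ e
  · obtain ⟨m, rfl⟩ := hle
    have hcop : Nat.Coprime l m := Nat.coprime_of_squarefree_mul he
    have hl0 : l ≠ 0 := by rintro rfl; simp at he
    have hm0 : m ≠ 0 := by rintro rfl; simp at he
    have h1 : (l * m).divisors.filter (fun d => l ∣ d) = m.divisors.image (fun k => l * k) := by
      ext d
      rw [Finset.mem_filter, Nat.mem_divisors, Finset.mem_image]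
      constructor
      · rintro ⟨⟨h1, h2⟩, ⟨k, rfl⟩⟩
        refine ⟨k, Nat.mem_divisors.2 ⟨?_, hm0⟩, rfl⟩
        exact (Nat.mul_dvd_mul_iff_left (Nat.pos_of_ne_zero hl0)).1 h1
      · rintro ⟨k, hk, rfl⟩
        exact ⟨⟨Nat.mul_dvd_mul_left l (Nat.dvd_of_mem_divisors hk), mul_ne_zero hl0 hm0⟩,
          dvd_mul_right l k⟩
    rw [h1, Finset.sum_image (by
      intro a _ b _ hab
      exact Nat.eq_of_mul_eq_mul_left (Nat.pos_of_ne_zero hl0) hab)]
    have h2 : ∀ k ∈ m.divisors, (μ (l * k) : ℝ) = (μ l : ℝ) * (μ k : ℝ) := by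
      intro k hk
      have hc : Nat.Coprime l k := Nat.Coprime.coprime_dvd_right (Nat.dvd_of_mem_divisors hk) hcop
      rw [ArithmeticFunction.isMultiplicative_moebius.map_mul_of_coprime hc]
      push_cast
      rfl
    rw [Finset.sum_congr rfl h2, ← Finset.mul_sum]
    have h3 : ∑ k ∈ m.divisors, (μ k : ℝ) = if m = 1 then 1 else 0 := by
      have h4 : (μ * ζ : ArithmeticFunction ℤ) m = (1 : ArithmeticFunction ℤ) m := by
        rw [ArithmeticFunction.moebius_mul_coe_zeta]
      rw [ArithmeticFunction.coe_mul_zeta_apply, ArithmeticFunction.one_apply] at h4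
      exact_mod_cast h4
    rw [h3]
    by_cases hm1 : m = 1
    · subst hm1; simp
    · rw [if_neg hm1, if_neg, mul_zero]
      intro hcon
      apply hm1
      have : l * m = l * 1 := by rw [hcon, mul_one]
      exact Nat.eq_of_mul_eq_mul_left (Nat.pos_of_ne_zero hl0) this
  · have h1 : e.divisors.filter (fun d => l ∣ d) = ∅ := by
      rw [Finset.filter_eq_empty_iff]
      intro d hd hld
      exact hle (hld.trans (Nat.dvd_of_mem_divisors hd))
    rw [h1, Finset.sum_empty, if_neg]
    rintro rfl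
    exact hle dvd_rfl


/-- the diagonal variables of the optimal weights -/
lemma yy (z : ℕ) (l : ℕ) (hl : l ∈ s.prodPrimes.divisors) :
    (∑ d ∈ s.prodPrimes.divisors, if l ∣ d then s.nu d * ww s z d else 0) =
      if l ≤ z then (μ l : ℝ) * s.selbergTerms l * (SS s z)⁻¹ else 0 := by
  have hP0 : s.prodPrimes ≠ 0 := BoundingSieve.prodPrimes_ne_zero
  -- expand
  have h1 : ∀ d ∈ s.prodPrimes.divisors, (if l ∣ d then s.nu d * ww s z d else 0) =
      ∑ e ∈ (s.prodPrimes.divisors).filter (· ≤ z),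
        (SS s z)⁻¹ * s.selbergTerms e * (if (l ∣ d ∧ d ∣ e) then (μ d : ℝ) else 0) := by
    intro d hd
    have hdP := Nat.dvd_of_mem_divisors hd
    have hnu : s.nu d ≠ 0 := BoundingSieve.nu_ne_zero hdP
    by_cases hld : l ∣ d
    · rw [if_pos hld]
      unfold ww
      rw [if_pos hdP]
      have h2 : (s.prodPrimes.divisors).filter (fun e => d ∣ e ∧ e ≤ z) =
          ((s.prodPrimes.divisors).filter (· ≤ z)).filter (fun e => d ∣ e) := by
        rw [Finset.filter_filter]
        apply Finset.filter_congr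
        intro e _
        exact and_comm
      rw [h2, Finset.sum_filter, Finset.mul_sum, Finset.mul_sum]
      apply Finset.sum_congr rfl
      intro e _
      by_cases hde : d ∣ e
      · rw [if_pos hde, if_pos ⟨hld, hde⟩]
        field_simp
      · rw [if_neg hde, if_neg (fun h => hde h.2)]
        ring
    · rw [if_neg hld]
      symm
      apply Finset.sum_eq_zero
      intro e _
      rw [if_neg (fun h => hld h.1), mul_zero]
  rw [Finset.sum_congr rfl h1, Finset.sum_comm]
  have h2 : ∀ e ∈ (s.prodPrimes.divisors).filter (· ≤ z),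
      ∑ d ∈ s.prodPrimes.divisors,
        (SS s z)⁻¹ * s.selbergTerms e * (if (l ∣ d ∧ d ∣ e) then (μ d : ℝ) else 0) =
      if e = l then (SS s z)⁻¹ * s.selbergTerms l * (μ l : ℝ) else 0 := by
    intro e he
    rw [Finset.mem_filter] at he
    have heP := Nat.dvd_of_mem_divisors he.1
    have hesq : Squarefree e := Squarefree.squarefree_of_dvd heP s.prodPrimes_squarefree
    rw [← Finset.mul_sum]
    have h3 : ∑ d ∈ s.prodPrimes.divisors, (if (l ∣ d ∧ d ∣ e) then (μ d : ℝ) else 0) =
        ∑ d ∈ e.divisors.filter (fun d => l ∣ d), (μ d : ℝ) := by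
      rw [← Finset.sum_filter]
      apply Finset.sum_congr _ (fun _ _ => rfl)
      ext d
      rw [Finset.mem_filter, Finset.mem_filter, Nat.mem_divisors, Nat.mem_divisors]
      constructor
      · rintro ⟨⟨_, _⟩, h2, h3⟩
        exact ⟨⟨h3, fun h0 => by subst h0; simp at hesq⟩, h2⟩
      · rintro ⟨⟨h1, _⟩, h2⟩
        exact ⟨⟨h1.trans heP, hP0⟩, h2, h1⟩
    rw [h3, sum_moebius_between l e hesq]
    by_cases hel : e = l
    · rw [if_pos hel, if_pos hel, hel]
    · rw [if_neg hel, if_neg hel, mul_zero]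
  rw [Finset.sum_congr rfl h2, Finset.sum_ite_eq']
  by_cases hlz : l ≤ z
  · rw [if_pos (Finset.mem_filter.2 ⟨hl, hlz⟩), if_pos hlz]
    ring
  · have hnot : l ∉ (s.prodPrimes.divisors).filter (· ≤ z) :=
      fun h => hlz (Finset.mem_filter.1 h).2
    rw [if_neg hnot, if_neg hlz]

/-- the main sum for the optimal weights -/
lemma mainSum_eq (z : ℕ) (hz : 1 ≤ z) :
    s.mainSum (BoundingSieve.lambdaSquared (ww s z)) = (SS s z)⁻¹ := by
  rw [BoundingSieve.mainSum_lambdaSquared_eq_sum_mul_sum_sq]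
  have h1 : ∀ l ∈ s.prodPrimes.divisors, (s.selbergTerms l)⁻¹ *
      (∑ d ∈ s.prodPrimes.divisors, if l ∣ d then s.nu d * ww s z d else 0) ^ 2 =
      if l ≤ z then s.selbergTerms l * ((SS s z)⁻¹) ^ 2 else 0 := by
    intro l hl
    rw [yy s z l hl]
    by_cases hlz : l ≤ z
    · rw [if_pos hlz, if_pos hlz]
      have hlP := Nat.dvd_of_mem_divisors hl
      have hlsq : Squarefree l := Squarefree.squarefree_of_dvd hlP s.prodPrimes_squarefree
      have hg : s.selbergTerms l ≠ 0 := (BoundingSieve.selbergTerms_pos hlP).ne'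
      have hmu : ((μ l : ℝ)) ^ 2 = 1 := by
        have := ArithmeticFunction.moebius_sq_eq_one_of_squarefree hlsq
        exact_mod_cast this
      rw [mul_pow, mul_pow, hmu]
      field_simp
    · rw [if_neg hlz, if_neg hlz]
      simp
  rw [Finset.sum_congr rfl h1, ← Finset.sum_filter, ← Finset.sum_mul]
  have h2 : ∑ l ∈ (s.prodPrimes.divisors).filter (· ≤ z), s.selbergTerms l = SS s z := rfl
  rw [h2]
  have := (SS_pos s z hz).ne'
  field_simp

lemma ww_zero_of_lt (z d : ℕ) (hd : z < d) : ww s z d = 0 := by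
  unfold ww
  split_ifs with h
  · have h1 : (s.prodPrimes.divisors).filter (fun e => d ∣ e ∧ e ≤ z) = ∅ := by
      rw [Finset.filter_eq_empty_iff]
      rintro e he ⟨h2, h3⟩
      have he0 : 0 < e := Nat.pos_of_mem_divisors he
      have := Nat.le_of_dvd he0 h2
      omega
    rw [h1, Finset.sum_empty, mul_zero]
  · rfl

lemma ww_abs_le_one (z d : ℕ) (hz : 1 ≤ z) : |ww s z d| ≤ 1 := by
  unfold ww
  split_ifs with hdP
  swap
  · simp
  have hP0 : s.prodPrimes ≠ 0 := BoundingSieve.prodPrimes_ne_zero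
  have hS := SS_pos s z hz
  have hnu : 0 < s.nu d := BoundingSieve.nu_pos_of_dvd_prodPrimes hdP
  have hdsq : Squarefree d := Squarefree.squarefree_of_dvd hdP s.prodPrimes_squarefree
  have hd0 : 0 < d := Nat.pos_of_ne_zero (ne_zero_of_dvd_ne_zero hP0 hdP)
  set E := (s.prodPrimes.divisors).filter (fun e => d ∣ e ∧ e ≤ z) with hE
  have hgpos : ∀ e, e ∣ s.prodPrimes → 0 < s.selbergTerms e :=
    fun e he => BoundingSieve.selbergTerms_pos he
  have hEnn : 0 ≤ ∑ e ∈ E, s.selbergTerms e := by
    apply Finset.sum_nonneg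
    intro e he
    rw [hE, Finset.mem_filter] at he
    exact (hgpos e (Nat.dvd_of_mem_divisors he.1)).le
  -- the key inequality
  have key : (s.nu d)⁻¹ * ∑ e ∈ E, s.selbergTerms e ≤ SS s z := by
    have h1 := BoundingSieve.sum_divisors_selbergTerms_eq_selbergTerms_mul_nu_inv (s := s) hdP
    have hgd := hgpos d hdP
    have h2 : (s.nu d)⁻¹ = (s.selbergTerms d)⁻¹ *
        ∑ k ∈ d.divisors, s.selbergTerms k := by
      have h3 : ∑ k ∈ d.divisors, s.selbergTerms k =
          ∑ l ∈ s.prodPrimes.divisors, if l ∣ d then s.selbergTerms l else 0 := by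
        rw [← Finset.sum_filter, Nat.divisors_filter_dvd_of_dvd hP0 hdP]
      rw [h3, h1]
      field_simp
    rw [h2]
    -- rewrite as a sum over pairs
    have h4 : (s.selbergTerms d)⁻¹ * (∑ k ∈ d.divisors, s.selbergTerms k) *
        ∑ e ∈ E, s.selbergTerms e =
        ∑ q ∈ d.divisors ×ˢ E, s.selbergTerms (q.1 * (q.2 / d)) := by
      rw [Finset.sum_product, mul_assoc, Finset.sum_mul, Finset.mul_sum]
      apply Finset.sum_congr rfl
      intro k hk
      rw [Finset.mul_sum, Finset.mul_sum]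
      apply Finset.sum_congr rfl
      intro e he
      rw [hE, Finset.mem_filter] at he
      obtain ⟨he1, ⟨m, rfl⟩, he3⟩ := he
      have heP := Nat.dvd_of_mem_divisors he1
      have hesq : Squarefree (d * m) := Squarefree.squarefree_of_dvd heP s.prodPrimes_squarefree
      have hcop : Nat.Coprime d m := Nat.coprime_of_squarefree_mul hesq
      have hkm : Nat.Coprime k m :=
        Nat.Coprime.coprime_dvd_left (Nat.dvd_of_mem_divisors hk) hcop
      have hdiv : d * m / d = m := Nat.mul_div_cancel_left m hd0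
      show (s.selbergTerms d)⁻¹ * (s.selbergTerms k * s.selbergTerms (d * m)) =
        s.selbergTerms (k * (d * m / d))
      rw [hdiv, BoundingSieve.selbergTerms_isMultiplicative.map_mul_of_coprime hcop,
        BoundingSieve.selbergTerms_isMultiplicative.map_mul_of_coprime hkm]
      field_simp
    rw [h4]
    have hinj : Set.InjOn (fun q : ℕ × ℕ => q.1 * (q.2 / d)) (d.divisors ×ˢ E : Finset (ℕ × ℕ)) := by
      rintro ⟨k, e⟩ hke ⟨k', e'⟩ hke' heq
      rw [Finset.mem_coe, Finset.mem_product, hE, Finset.mem_filter] at hke hke'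
      obtain ⟨hk, he1, ⟨m, hm⟩, he3⟩ := hke
      obtain ⟨hk', he1', ⟨m', hm'⟩, he3'⟩ := hke'
      simp only at hk he1 hm he3 hk' he1' hm' he3' heq
      subst hm
      subst hm'
      rw [Nat.mul_div_cancel_left m hd0, Nat.mul_div_cancel_left m' hd0] at heq
      have hcop : Nat.Coprime d m := Nat.coprime_of_squarefree_mul
        (Squarefree.squarefree_of_dvd (Nat.dvd_of_mem_divisors he1) s.prodPrimes_squarefree)
      have hcop' : Nat.Coprime d m' := Nat.coprime_of_squarefree_mul
        (Squarefree.squarefree_of_dvd (Nat.dvd_of_mem_divisors he1') s.prodPrimes_squarefree)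
      have hkd := Nat.dvd_of_mem_divisors hk
      have hkd' := Nat.dvd_of_mem_divisors hk'
      have h5 : k ∣ k' := by
        have : k ∣ k' * m' := heq ▸ dvd_mul_right k m
        exact (Nat.Coprime.coprime_dvd_left hkd hcop').dvd_of_dvd_mul_right this
      have h6 : k' ∣ k := by
        have : k' ∣ k * m := heq.symm ▸ dvd_mul_right k' m'
        exact (Nat.Coprime.coprime_dvd_left hkd' hcop).dvd_of_dvd_mul_right this
      have h7 : k = k' := Nat.dvd_antisymm h5 h6
      subst h7
      have hk0 : 0 < k := Nat.pos_of_mem_divisors hk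
      have h8 : m = m' := Nat.eq_of_mul_eq_mul_left hk0 heq
      rw [h8]
    rw [← Finset.sum_image (f := fun n => s.selbergTerms n) hinj]
    unfold SS
    apply Finset.sum_le_sum_of_subset_of_nonneg
    · intro n hn
      rw [Finset.mem_image] at hn
      obtain ⟨⟨k, e⟩, hke, rfl⟩ := hn
      rw [Finset.mem_product, hE, Finset.mem_filter] at hke
      obtain ⟨hk, he1, ⟨m, hm⟩, he3⟩ := hke
      simp only at hk he1 hm he3 ⊢
      subst hm
      rw [Nat.mul_div_cancel_left m hd0, Finset.mem_filter, Nat.mem_divisors]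
      have hkd := Nat.dvd_of_mem_divisors hk
      have h5 : k * m ∣ d * m := Nat.mul_dvd_mul_right hkd m
      have he0 : 0 < d * m := Nat.pos_of_mem_divisors he1
      exact ⟨⟨h5.trans (Nat.dvd_of_mem_divisors he1), hP0⟩, (Nat.le_of_dvd he0 h5).trans he3⟩
    · intro n hn _
      rw [Finset.mem_filter] at hn
      exact (hgpos n (Nat.dvd_of_mem_divisors hn.1)).le
  have hmu : |(μ d : ℝ)| ≤ 1 := by
    have := ArithmeticFunction.abs_moebius_le_one (n := d)
    exact_mod_cast this
  rw [show (μ d : ℝ) * (s.nu d)⁻¹ * (SS s z)⁻¹ * ∑ e ∈ E, s.selbergTerms e =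
    (μ d : ℝ) * (((s.nu d)⁻¹ * ∑ e ∈ E, s.selbergTerms e) * (SS s z)⁻¹) by ring, abs_mul]
  have h5 : |((s.nu d)⁻¹ * ∑ e ∈ E, s.selbergTerms e) * (SS s z)⁻¹| ≤ 1 := by
    rw [abs_of_nonneg (by positivity), ← div_eq_mul_inv, div_le_one hS]
    exact key
  calc |(μ d : ℝ)| * _ ≤ 1 * 1 := mul_le_mul hmu h5 (abs_nonneg _) zero_le_one
    _ = 1 := one_mul _

/-- the error sum for the optimal weights -/
lemma errSum_le (z : ℕ) (hz : 1 ≤ z) :
    s.errSum (BoundingSieve.lambdaSquared (ww s z)) ≤
      ∑ d₁ ∈ (s.prodPrimes.divisors).filter (· ≤ z),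
        ∑ d₂ ∈ (s.prodPrimes.divisors).filter (· ≤ z), |s.rem (Nat.lcm d₁ d₂)| := by
  unfold BoundingSieve.errSum
  have hP0 : s.prodPrimes ≠ 0 := BoundingSieve.prodPrimes_ne_zero
  have h1 : ∀ d ∈ s.prodPrimes.divisors,
      |BoundingSieve.lambdaSquared (ww s z) d| * |s.rem d| ≤
      ∑ d₁ ∈ (s.prodPrimes.divisors).filter (· ≤ z),
        ∑ d₂ ∈ (s.prodPrimes.divisors).filter (· ≤ z),
          if d = Nat.lcm d₁ d₂ then |s.rem d| else 0 := by
    intro d hd
    have hdP := Nat.dvd_of_mem_divisors hd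
    unfold BoundingSieve.lambdaSquared
    have h2 : |∑ d1 ∈ d.divisors, ∑ d2 ∈ d.divisors,
        (if d = Nat.lcm d1 d2 then ww s z d1 * ww s z d2 else 0)| ≤
        ∑ d1 ∈ d.divisors, ∑ d2 ∈ d.divisors,
          |if d = Nat.lcm d1 d2 then ww s z d1 * ww s z d2 else 0| := by
      refine (Finset.abs_sum_le_sum_abs _ _).trans ?_
      apply Finset.sum_le_sum
      intro d1 _
      exact Finset.abs_sum_le_sum_abs _ _
    have h3 : ∑ d1 ∈ d.divisors, ∑ d2 ∈ d.divisors,
          |if d = Nat.lcm d1 d2 then ww s z d1 * ww s z d2 else 0| ≤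
        ∑ d₁ ∈ (s.prodPrimes.divisors).filter (· ≤ z),
          ∑ d₂ ∈ (s.prodPrimes.divisors).filter (· ≤ z),
            if d = Nat.lcm d₁ d₂ then (1 : ℝ) else 0 := by
      have hterm : ∀ d1 d2 : ℕ,
          |if d = Nat.lcm d1 d2 then ww s z d1 * ww s z d2 else 0| ≤
            if (d1 ≤ z ∧ d2 ≤ z) then (if d = Nat.lcm d1 d2 then (1 : ℝ) else 0) else 0 := by
        intro d1 d2
        by_cases h : d = Nat.lcm d1 d2
        · rw [if_pos h, if_pos h, abs_mul]
          by_cases hz12 : d1 ≤ z ∧ d2 ≤ z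
          · rw [if_pos hz12]
            calc |ww s z d1| * |ww s z d2| ≤ 1 * 1 :=
                  mul_le_mul (ww_abs_le_one s z d1 hz) (ww_abs_le_one s z d2 hz)
                    (abs_nonneg _) zero_le_one
              _ = 1 := one_mul _
          · rw [if_neg hz12]
            rcases not_and_or.1 hz12 with h' | h'
            · rw [ww_zero_of_lt s z d1 (by omega)]; simp
            · rw [ww_zero_of_lt s z d2 (by omega)]; simp
        · rw [if_neg h, if_neg h]; simp
      have hdsub : d.divisors ⊆ s.prodPrimes.divisors := Nat.divisors_subset_of_dvd hP0 hdP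
      calc ∑ d1 ∈ d.divisors, ∑ d2 ∈ d.divisors,
            |if d = Nat.lcm d1 d2 then ww s z d1 * ww s z d2 else 0|
          ≤ ∑ d1 ∈ d.divisors, ∑ d2 ∈ d.divisors,
            (if (d1 ≤ z ∧ d2 ≤ z) then (if d = Nat.lcm d1 d2 then (1 : ℝ) else 0) else 0) := by
            apply Finset.sum_le_sum; intro d1 _
            apply Finset.sum_le_sum; intro d2 _
            exact hterm d1 d2
        _ ≤ ∑ d1 ∈ s.prodPrimes.divisors, ∑ d2 ∈ s.prodPrimes.divisors,
            (if (d1 ≤ z ∧ d2 ≤ z) then (if d = Nat.lcm d1 d2 then (1 : ℝ) else 0) else 0) := by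
            have hnn : ∀ d1 d2 : ℕ, (0 : ℝ) ≤
                (if (d1 ≤ z ∧ d2 ≤ z) then (if d = Nat.lcm d1 d2 then (1 : ℝ) else 0) else 0) := by
              intro d1 d2
              split_ifs <;> norm_num
            refine (Finset.sum_le_sum_of_subset_of_nonneg hdsub (fun d1 _ _ =>
              Finset.sum_nonneg (fun d2 _ => hnn d1 d2))).trans ?_
            apply Finset.sum_le_sum; intro d1 _
            exact Finset.sum_le_sum_of_subset_of_nonneg hdsub (fun d2 _ _ => hnn d1 d2)
        _ = _ := by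
            rw [Finset.sum_filter]
            apply Finset.sum_congr rfl
            intro d1 _
            by_cases h1 : d1 ≤ z
            · rw [if_pos h1, Finset.sum_filter]
              apply Finset.sum_congr rfl
              intro d2 _
              by_cases h2 : d2 ≤ z
              · rw [if_pos ⟨h1, h2⟩, if_pos h2]
              · rw [if_neg (fun h => h2 h.2), if_neg h2]
            · rw [if_neg h1]
              apply Finset.sum_eq_zero
              intro d2 _
              rw [if_neg (fun h => h1 h.1)]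
    calc _ ≤ (∑ d₁ ∈ (s.prodPrimes.divisors).filter (· ≤ z),
          ∑ d₂ ∈ (s.prodPrimes.divisors).filter (· ≤ z),
            if d = Nat.lcm d₁ d₂ then (1 : ℝ) else 0) * |s.rem d| :=
          mul_le_mul_of_nonneg_right (h2.trans h3) (abs_nonneg _)
      _ = _ := by
          rw [Finset.sum_mul]
          apply Finset.sum_congr rfl; intro d1 _
          rw [Finset.sum_mul]
          apply Finset.sum_congr rfl; intro d2 _
          rw [ite_mul, one_mul, zero_mul]
  refine (Finset.sum_le_sum h1).trans ?_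
  rw [Finset.sum_comm]
  apply Finset.sum_le_sum
  intro d1 hd1
  rw [Finset.sum_comm]
  apply Finset.sum_le_sum
  intro d2 hd2
  rw [Finset.mem_filter] at hd1 hd2
  have hlcm : Nat.lcm d1 d2 ∈ s.prodPrimes.divisors :=
    Nat.mem_divisors.2 ⟨Nat.lcm_dvd (Nat.dvd_of_mem_divisors hd1.1)
      (Nat.dvd_of_mem_divisors hd2.1), hP0⟩
  have h4 : ∀ d ∈ s.prodPrimes.divisors, (if d = Nat.lcm d1 d2 then |s.rem d| else 0) =
      if d = Nat.lcm d1 d2 then |s.rem (Nat.lcm d1 d2)| else 0 := by
    intro d _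
    by_cases h : d = Nat.lcm d1 d2
    · rw [if_pos h, if_pos h, h]
    · rw [if_neg h, if_neg h]
  rw [Finset.sum_congr rfl h4, Finset.sum_ite_eq', if_pos hlcm]

/-- **Selberg's upper bound sieve** -/
theorem selberg (z : ℕ) (hz : 1 ≤ z) :
    s.siftedSum ≤ s.totalMass * (SS s z)⁻¹ +
      ∑ d₁ ∈ (s.prodPrimes.divisors).filter (· ≤ z),
        ∑ d₂ ∈ (s.prodPrimes.divisors).filter (· ≤ z), |s.rem (Nat.lcm d₁ d₂)| := by
  have h1 := BoundingSieve.siftedSum_le_mainSum_errSum_of_upperMoebius (s := s)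
    (BoundingSieve.lambdaSquared (ww s z)) (BoundingSieve.upperMoebius_lambdaSquared _ (ww_one s z hz))
  rw [mainSum_eq s z hz] at h1
  linarith [errSum_le s z hz]


end Pool.Agent.Lib.MP_d9bc60_nt.Sieve
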