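import Mathlib

/-!
# `log N ≤ (k/φ(k)) ∑ 1/φ(a)` over squarefree `a ≤ N` coprime to `k`
-/

set_option autoImplicit false

open Finset

namespace Pool.Agent.Lib.MP_d9bc60_nt.Sieve


/-- the part of the radical of `n` that is coprime to `k` -/
def rk (k n : ℕ) : ℕ := ∏ p ∈ n.primeFactors \ k.primeFactors, p

/-- reciprocal as a monoid hom -/
noncomputable def invHom : ℕ →* ℝ where
  toFun n := (n : ℝ)⁻¹
  map_one' := by simp
  map_mul' a b := by push_cast; rw [mul_inv]

/-- `n / φ(n)` as a product -/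
lemma inv_ratio (n : ℕ) (hn : 0 < n) :
    ∏ p ∈ n.primeFactors, (1 - (p : ℝ)⁻¹)⁻¹ = (n : ℝ) / n.totient := by
  have h := Nat.totient_eq_mul_prod_factors n
  have h' : (n.totient : ℝ) = n * ∏ p ∈ n.primeFactors, (1 - (p : ℝ)⁻¹) := by
    have := congrArg (fun q : ℚ => (q : ℝ)) h
    push_cast at this
    exact this
  rw [h', Finset.prod_inv_distrib]
  have hn' : (n : ℝ) ≠ 0 := by positivity
  have hp : ∏ p ∈ n.primeFactors, (1 - (p : ℝ)⁻¹) ≠ 0 := by
    rw [Finset.prod_ne_zero_iff]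
    intro p hp
    have hpp := Nat.prime_of_mem_primeFactors hp
    have : (1 : ℝ) < p := by exact_mod_cast hpp.one_lt
    have h2 : (p : ℝ)⁻¹ < 1 := inv_lt_one_of_one_lt₀ this
    linarith
  field_simp

lemma rk_props (k n : ℕ) (hk : k ≠ 0) :
    rk k n ∣ n ∧ Squarefree (rk k n) ∧ (rk k n).Coprime k ∧
      (rk k n).primeFactors = n.primeFactors \ k.primeFactors := by
  have hpr : ∀ p ∈ n.primeFactors \ k.primeFactors, p.Prime := by
    intro p hp
    rw [Finset.mem_sdiff] at hp
    exact Nat.prime_of_mem_primeFactors hp.1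
  have hpf : (rk k n).primeFactors = n.primeFactors \ k.primeFactors := Nat.primeFactors_prod hpr
  have hsq : Squarefree (rk k n) := by
    unfold rk
    refine Finset.squarefree_prod_of_pairwise_isCoprime (fun p hp q hq hpq ↦ ?_)
      fun p hp ↦ (hpr p hp).squarefree
    simp only [← Nat.coprime_iff_isRelPrime]
    exact (Nat.coprime_primes (hpr p hp) (hpr q hq)).2 hpq
  refine ⟨?_, hsq, ?_, hpf⟩
  · unfold rk
    exact (Finset.prod_dvd_prod_of_subset _ _ _ Finset.sdiff_subset).trans (Nat.prod_primeFactors_dvd n)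
  · unfold rk
    apply Nat.Coprime.prod_left
    intro p hp
    have hpp := hpr p hp
    rw [Finset.mem_sdiff] at hp
    rw [Nat.Prime.coprime_iff_not_dvd hpp]
    intro hd
    exact hp.2 (Nat.mem_primeFactors.2 ⟨hpp, hd, hk⟩)

/-- the fibre sum -/
lemma fibre (k N a : ℕ) (hk : 0 < k) (ha : 0 < a) (hcop : a.Coprime k) :
    ∑ n ∈ (Finset.Icc 1 N).filter (fun n => rk k n = a), (n : ℝ)⁻¹ ≤
      ((k : ℝ) / k.totient) * ((a.totient : ℝ)⁻¹) := by
  classical
  set s := (a * k).primeFactors with hs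
  have H := EulerProduct.summable_and_hasSum_factoredNumbers_prod_filter_prime_geometric
    (f := invHom) (by
      intro p hp
      have : (1 : ℝ) < p := by exact_mod_cast hp.one_lt
      have h2 : (p : ℝ)⁻¹ < 1 := inv_lt_one_of_one_lt₀ this
      show ‖(p : ℝ)⁻¹‖ < 1
      rw [Real.norm_of_nonneg (by positivity)]
      exact h2) s
  have hfil : s.filter Nat.Prime = s := by
    rw [Finset.filter_eq_self]
    intro p hp
    exact Nat.prime_of_mem_primeFactors hp
  rw [hfil] at H
  have hval : ∏ p ∈ s, (1 - invHom p)⁻¹ = ((a * k : ℕ) : ℝ) / (a * k).totient := by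
    rw [← inv_ratio (a * k) (Nat.mul_pos ha hk)]
    rfl
  rw [hval] at H
  -- map n ↦ n / a
  have hmem : ∀ n ∈ (Finset.Icc 1 N).filter (fun n => rk k n = a),
      n / a ∈ Nat.factoredNumbers s ∧ n = a * (n / a) := by
    intro n hn
    rw [Finset.mem_filter, Finset.mem_Icc] at hn
    obtain ⟨⟨hn1, hn2⟩, hn3⟩ := hn
    have hp := rk_props k n (by omega)
    rw [hn3] at hp
    have heq : n = a * (n / a) := (Nat.mul_div_cancel' hp.1).symm
    refine ⟨?_, heq⟩
    rw [Nat.mem_factoredNumbers']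
    intro p hpp hpd
    rw [hs, Nat.mem_primeFactors]
    refine ⟨hpp, ?_, by positivity⟩
    have hpn : p ∣ n := by rw [heq]; exact hpd.trans (dvd_mul_left _ _)
    by_cases hpk : p ∣ k
    · exact hpk.trans (dvd_mul_left _ _)
    · have : p ∈ a.primeFactors := by
        rw [hp.2.2.2, Finset.mem_sdiff]
        refine ⟨Nat.mem_primeFactors.2 ⟨hpp, hpn, by omega⟩, ?_⟩
        intro h
        exact hpk (Nat.dvd_of_mem_primeFactors h)
      exact (Nat.dvd_of_mem_primeFactors this).trans (dvd_mul_right _ _)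
  have hsum : ∑ n ∈ (Finset.Icc 1 N).filter (fun n => rk k n = a), (n : ℝ)⁻¹ =
      (a : ℝ)⁻¹ * ∑ m ∈ ((Finset.Icc 1 N).filter (fun n => rk k n = a)).image (fun n => n / a),
        (m : ℝ)⁻¹ := by
    rw [Finset.sum_image, Finset.mul_sum]
    · apply Finset.sum_congr rfl
      intro n hn
      have := (hmem n hn).2
      have h2 : (n : ℝ) = (a : ℝ) * ((n / a : ℕ) : ℝ) := by exact_mod_cast this
      rw [h2, mul_inv]
    · intro n hn m hm hnm
      rw [(hmem n hn).2, (hmem m hm).2]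
      exact congrArg (fun t => a * t) hnm
  rw [hsum]
  have hle : ∑ m ∈ ((Finset.Icc 1 N).filter (fun n => rk k n = a)).image (fun n => n / a),
        (m : ℝ)⁻¹ ≤ ((a * k : ℕ) : ℝ) / (a * k).totient := by
    rw [← H.2.tsum_eq]
    have hsub : ∀ m ∈ ((Finset.Icc 1 N).filter (fun n => rk k n = a)).image (fun n => n / a),
        m ∈ Nat.factoredNumbers s := by
      intro m hm
      rw [Finset.mem_image] at hm
      obtain ⟨n, hn, rfl⟩ := hm
      exact (hmem n hn).1
    have h1 : ∑ m ∈ ((Finset.Icc 1 N).filter (fun n => rk k n = a)).image (fun n => n / a),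
        (m : ℝ)⁻¹ = ∑ m ∈ (((Finset.Icc 1 N).filter (fun n => rk k n = a)).image
          (fun n => n / a)).subtype (fun m => m ∈ Nat.factoredNumbers s), invHom (m : ℕ) := by
      rw [Finset.sum_subtype_of_mem (f := fun m : ℕ => invHom m)]
      · rfl
      · exact hsub
    rw [h1]
    apply Summable.sum_le_tsum
    · intro m _
      show 0 ≤ ((m : ℕ) : ℝ)⁻¹
      positivity
    · exact H.2.summable
  have hcopt : ((a * k).totient : ℝ) = a.totient * k.totient := by
    rw [Nat.totient_mul hcop]; push_cast; rfl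
  have ha' : (a : ℝ) ≠ 0 := by positivity
  calc (a : ℝ)⁻¹ * ∑ m ∈ ((Finset.Icc 1 N).filter (fun n => rk k n = a)).image (fun n => n / a),
        (m : ℝ)⁻¹ ≤ (a : ℝ)⁻¹ * (((a * k : ℕ) : ℝ) / (a * k).totient) := by gcongr
    _ = ((k : ℝ) / k.totient) * ((a.totient : ℝ)⁻¹) := by
        rw [hcopt]
        push_cast
        have h1 : (a.totient : ℝ) ≠ 0 := by
          have := Nat.totient_pos.2 ha
          positivity
        have h2 : (k.totient : ℝ) ≠ 0 := by
          have := Nat.totient_pos.2 hk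
          positivity
        field_simp

/-- `log (N+1) ≤ (k/φ(k)) ∑_{a ≤ N, μ²(a)=1, (a,k)=1} 1/φ(a)` -/
lemma log_le_sum (k N : ℕ) (hk : 0 < k) :
    Real.log ((N : ℝ) + 1) ≤ ((k : ℝ) / k.totient) *
      ∑ a ∈ (Finset.Icc 1 N).filter (fun a => Squarefree a ∧ a.Coprime k),
        ((a.totient : ℝ)⁻¹) := by
  classical
  have h1 : Real.log ((N : ℝ) + 1) ≤ ∑ n ∈ Finset.Icc 1 N, (n : ℝ)⁻¹ := by
    have h := log_add_one_le_harmonic N
    have h2 : ((harmonic N : ℚ) : ℝ) = ∑ n ∈ Finset.Icc 1 N, (n : ℝ)⁻¹ := by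
      rw [harmonic_eq_sum_Icc]
      push_cast
      rfl
    rw [h2] at h
    push_cast at h
    exact h
  refine h1.trans ?_
  rw [← Finset.sum_fiberwise_of_maps_to
    (t := (Finset.Icc 1 N).filter (fun a => Squarefree a ∧ a.Coprime k))
    (g := fun n => rk k n) (f := fun n => (n : ℝ)⁻¹) (s := Finset.Icc 1 N)]
  · rw [Finset.mul_sum]
    apply Finset.sum_le_sum
    intro a ha
    rw [Finset.mem_filter, Finset.mem_Icc] at ha
    exact fibre k N a hk (by omega) ha.2.2
  · intro n hn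
    rw [Finset.mem_Icc] at hn
    have hp := rk_props k n (by omega)
    rw [Finset.mem_filter, Finset.mem_Icc]
    refine ⟨⟨?_, ?_⟩, hp.2.1, hp.2.2.1⟩
    · exact Nat.pos_of_dvd_of_pos hp.1 (by omega)
    · exact (Nat.le_of_dvd (by omega) hp.1).trans hn.2

end Pool.Agent.Lib.MP_d9bc60_nt.Sieve
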