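import Mathlib
import Pool.Agent.Lib.MP_d9bc60_nt.Sieve
import Pool.Agent.Lib.MP_d9bc60_nt.SieveSum

set_option autoImplicit false

open Finset ArithmeticFunction

namespace Pool.Agent.Lib.MP_d9bc60_nt.Sieve

/-- `1/φ` as an arithmetic function -/
noncomputable def iphi : ArithmeticFunction ℝ := ⟨fun n => ((n.totient : ℝ))⁻¹, by simp⟩

lemma iphi_apply (n : ℕ) : iphi n = ((n.totient : ℝ))⁻¹ := rfl

lemma iphi_mult : iphi.IsMultiplicative := by
  rw [ArithmeticFunction.IsMultiplicative.iff_ne_zero]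
  refine ⟨by simp [iphi_apply], ?_⟩
  intro m n _ _ hmn
  rw [iphi_apply, iphi_apply, iphi_apply, Nat.totient_mul hmn]
  push_cast
  rw [mul_inv]

/-- `n/φ(n)` as an arithmetic function -/
noncomputable def rphi : ArithmeticFunction ℝ := ⟨fun n => (n : ℝ) * ((n.totient : ℝ))⁻¹, by simp⟩

lemma rphi_apply (n : ℕ) : rphi n = (n : ℝ) * ((n.totient : ℝ))⁻¹ := rfl

lemma rphi_mult : rphi.IsMultiplicative := by
  rw [ArithmeticFunction.IsMultiplicative.iff_ne_zero]
  refine ⟨by simp [rphi_apply], ?_⟩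
  intro m n _ _ hmn
  rw [rphi_apply, rphi_apply, rphi_apply, Nat.totient_mul hmn]
  push_cast
  rw [mul_inv]
  ring

lemma iphi_prime (p : ℕ) (hp : p.Prime) : iphi p = ((p : ℝ) - 1)⁻¹ := by
  rw [iphi_apply, Nat.totient_prime hp, Nat.cast_sub hp.one_lt.le]
  simp

lemma rphi_prime (p : ℕ) (hp : p.Prime) : rphi p = (p : ℝ) * ((p : ℝ) - 1)⁻¹ := by
  rw [rphi_apply, Nat.totient_prime hp, Nat.cast_sub hp.one_lt.le]
  simp

lemma sum_iphi (a : ℕ) (ha : Squarefree a) :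
    ∑ c ∈ a.divisors, iphi c = rphi a := by
  rw [← iphi_mult.prodPrimeFactors_one_add_of_squarefree ha, ← rphi_mult.prod_primeFactors ha]
  apply Finset.prod_congr rfl
  intro p hp
  have hpp := Nat.prime_of_mem_primeFactors hp
  rw [iphi_prime p hpp, rphi_prime p hpp]
  have : (1 : ℝ) < p := by exact_mod_cast hpp.one_lt
  have h2 : (p : ℝ) - 1 ≠ 0 := by linarith
  field_simp
  ring

/-- divisors of `e` that are multiples of `m`, where `e = m * a` -/
lemma divisors_mul_image (m a : ℕ) (hm : m ≠ 0) (ha : a ≠ 0) :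
    (m * a).divisors.filter (fun d => m ∣ d) = a.divisors.image (fun k => m * k) := by
  ext d
  rw [Finset.mem_filter, Nat.mem_divisors, Finset.mem_image]
  constructor
  · rintro ⟨⟨h1, h2⟩, ⟨k, rfl⟩⟩
    refine ⟨k, Nat.mem_divisors.2 ⟨?_, ha⟩, rfl⟩
    exact (Nat.mul_dvd_mul_iff_left (Nat.pos_of_ne_zero hm)).1 h1
  · rintro ⟨k, hk, rfl⟩
    exact ⟨⟨Nat.mul_dvd_mul_left m (Nat.dvd_of_mem_divisors hk), mul_ne_zero hm ha⟩,
      dvd_mul_right m k⟩

lemma inner_sum (e a : ℕ) (he : Squarefree e) (hae : a ∣ e) :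
    ∑ b ∈ e.divisors.filter (fun b => (e / a) ∣ b), iphi b = iphi (e / a) * rphi a := by
  have he0 : e ≠ 0 := he.ne_zero
  have ha0 : a ≠ 0 := by rintro rfl; exact he0 (Nat.eq_zero_of_zero_dvd hae)
  have hea : (e / a) * a = e := Nat.div_mul_cancel hae
  have hm0 : e / a ≠ 0 := by
    intro h
    rw [h, zero_mul] at hea
    exact he0 hea.symm
  have hcop : Nat.Coprime (e / a) a := by
    apply Nat.coprime_of_squarefree_mul
    rw [hea]; exact he
  have h1 : e.divisors.filter (fun b => (e / a) ∣ b) = a.divisors.image (fun k => (e / a) * k) := by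
    have := divisors_mul_image (e / a) a hm0 ha0
    rw [hea] at this
    exact this
  rw [h1, Finset.sum_image (by
      intro x _ y _ hxy
      exact Nat.eq_of_mul_eq_mul_left (Nat.pos_of_ne_zero hm0) hxy),
    ← sum_iphi a (Squarefree.squarefree_of_dvd hae he), Finset.mul_sum]
  apply Finset.sum_congr rfl
  intro c hc
  exact iphi_mult.map_mul_of_coprime
    (Nat.Coprime.coprime_dvd_right (Nat.dvd_of_mem_divisors hc) hcop)

/-- the sum `T(e)` -/
lemma T_eq (e : ℕ) (he : Squarefree e) :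
    ∑ a ∈ e.divisors, iphi a * ∑ b ∈ e.divisors.filter (fun b => (e / a) ∣ b), iphi b =
      ∏ p ∈ e.primeFactors, ((2 * (p : ℝ) - 1) / ((p : ℝ) - 1) ^ 2) := by
  have h1 : ∀ a ∈ e.divisors,
      iphi a * ∑ b ∈ e.divisors.filter (fun b => (e / a) ∣ b), iphi b = iphi e * rphi a := by
    intro a ha
    have hae := Nat.dvd_of_mem_divisors ha
    rw [inner_sum e a he hae]
    have hea : a * (e / a) = e := Nat.mul_div_cancel' hae
    have hcop : Nat.Coprime a (e / a) := by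
      apply Nat.coprime_of_squarefree_mul
      rw [hea]; exact he
    have h2 : iphi e = iphi a * iphi (e / a) := by
      conv_lhs => rw [← hea]
      exact iphi_mult.map_mul_of_coprime hcop
    rw [h2]
    ring
  rw [Finset.sum_congr rfl h1, ← Finset.mul_sum,
    ← rphi_mult.prodPrimeFactors_one_add_of_squarefree he, ← iphi_mult.prod_primeFactors he,
    ← Finset.prod_mul_distrib]
  apply Finset.prod_congr rfl
  intro p hp
  have hpp := Nat.prime_of_mem_primeFactors hp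
  rw [iphi_prime p hpp, rphi_prime p hpp]
  have : (1 : ℝ) < p := by exact_mod_cast hpp.one_lt
  have h2 : (p : ℝ) - 1 ≠ 0 := by linarith
  field_simp
  ring

/-- square of the linear sieve sum is at most the sum of `T` -/
lemma sq_le (P y z : ℕ) (hP : Squarefree P) (hyz : y * y ≤ z) :
    (∑ a ∈ P.divisors.filter (· ≤ y), iphi a) ^ 2 ≤
      ∑ e ∈ P.divisors.filter (· ≤ z),
        ∏ p ∈ e.primeFactors, ((2 * (p : ℝ) - 1) / ((p : ℝ) - 1) ^ 2) := by
  classical
  set A := P.divisors.filter (· ≤ y) with hA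
  set E := P.divisors.filter (· ≤ z) with hE
  have hpos : ∀ n : ℕ, 0 ≤ iphi n := fun n => by rw [iphi_apply]; positivity
  have h1 : (∑ a ∈ A, iphi a) ^ 2 = ∑ x ∈ A ×ˢ A, iphi x.1 * iphi x.2 := by
    rw [sq, Finset.sum_mul_sum, Finset.sum_product]
  rw [h1]
  have hmaps : ∀ x ∈ A ×ˢ A, Nat.lcm x.1 x.2 ∈ E := by
    intro x hx
    rw [Finset.mem_product, hA, Finset.mem_filter, Finset.mem_filter, Nat.mem_divisors,
      Nat.mem_divisors] at hx
    rw [hE, Finset.mem_filter, Nat.mem_divisors]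
    refine ⟨⟨Nat.lcm_dvd hx.1.1.1 hx.2.1.1, hP.ne_zero⟩, ?_⟩
    have hx1 : 0 < x.1 := Nat.pos_of_dvd_of_pos hx.1.1.1 (Nat.pos_of_ne_zero hP.ne_zero)
    have hx2 : 0 < x.2 := Nat.pos_of_dvd_of_pos hx.2.1.1 (Nat.pos_of_ne_zero hP.ne_zero)
    calc Nat.lcm x.1 x.2 ≤ x.1 * x.2 :=
          Nat.le_of_dvd (Nat.mul_pos hx1 hx2) (Nat.lcm_dvd_mul _ _)
      _ ≤ y * y := Nat.mul_le_mul hx.1.2 hx.2.2
      _ ≤ z := hyz
  rw [← Finset.sum_fiberwise_of_maps_to hmaps]
  apply Finset.sum_le_sum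
  intro e he
  rw [hE, Finset.mem_filter, Nat.mem_divisors] at he
  have hesq : Squarefree e := Squarefree.squarefree_of_dvd he.1.1 hP
  have he0 : e ≠ 0 := hesq.ne_zero
  rw [← T_eq e hesq]
  have h2 : ∑ a ∈ e.divisors, iphi a * ∑ b ∈ e.divisors.filter (fun b => (e / a) ∣ b), iphi b =
      ∑ x ∈ e.divisors.sigma (fun a => e.divisors.filter (fun b => (e / a) ∣ b)),
        iphi x.1 * iphi x.2 := by
    rw [Finset.sum_sigma]
    apply Finset.sum_congr rfl
    intro a _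
    rw [Finset.mul_sum]
  rw [h2]
  -- inject
  have h3 : ∑ x ∈ (A ×ˢ A).filter (fun x => Nat.lcm x.1 x.2 = e), iphi x.1 * iphi x.2 =
      ∑ x ∈ ((A ×ˢ A).filter (fun x => Nat.lcm x.1 x.2 = e)).image
        (fun x => (⟨x.1, x.2⟩ : (_ : ℕ) × ℕ)), iphi x.1 * iphi x.2 := by
    rw [Finset.sum_image]
    intro x _ y _ hxy
    simp only [Sigma.mk.injEq, heq_eq_eq] at hxy
    exact Prod.ext hxy.1 hxy.2
  rw [h3]
  apply Finset.sum_le_sum_of_subset_of_nonneg
  · intro x hx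
    rw [Finset.mem_image] at hx
    obtain ⟨w, hw, rfl⟩ := hx
    rw [Finset.mem_filter] at hw
    rw [Finset.mem_sigma, Nat.mem_divisors, Finset.mem_filter, Nat.mem_divisors]
    have h4 : w.1 ∣ e := hw.2 ▸ Nat.dvd_lcm_left _ _
    have h5 : w.2 ∣ e := hw.2 ▸ Nat.dvd_lcm_right _ _
    refine ⟨⟨h4, he0⟩, ⟨h5, he0⟩, ?_⟩
    show e / w.1 ∣ w.2
    rw [Nat.div_dvd_iff_dvd_mul h4 (Nat.pos_of_dvd_of_pos h4 (Nat.pos_of_ne_zero he0))]
    rw [← hw.2]
    exact Nat.lcm_dvd_mul _ _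
  · intro x _ _
    exact mul_nonneg (hpos _) (hpos _)

end Pool.Agent.Lib.MP_d9bc60_nt.Sieve
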