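import Mathlib
import Pool.Agent.Lib.MP_d9bc60_nt.SieveTwo

set_option autoImplicit false

open Finset ArithmeticFunction

namespace Pool.Agent.Lib.MP_d9bc60_nt.Sieve

/-- product of the primes up to `z` not dividing `k` -/
def PP (k z : ℕ) : ℕ := ∏ p ∈ (Finset.Icc 1 z).filter (fun p => p.Prime ∧ ¬ p ∣ k), p

lemma PP_primeFactors (k z : ℕ) :
    (PP k z).primeFactors = (Finset.Icc 1 z).filter (fun p => p.Prime ∧ ¬ p ∣ k) :=
  Nat.primeFactors_prod (fun p hp => (Finset.mem_filter.1 hp).2.1)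

lemma PP_squarefree (k z : ℕ) : Squarefree (PP k z) := by
  unfold PP
  refine Finset.squarefree_prod_of_pairwise_isCoprime (fun p hp q hq hpq ↦ ?_)
    fun p hp ↦ ((Finset.mem_filter.1 hp).2.1).squarefree
  simp only [← Nat.coprime_iff_isRelPrime]
  exact (Nat.coprime_primes ((Finset.mem_filter.1 hp).2.1) ((Finset.mem_filter.1 hq).2.1)).2 hpq

lemma prime_dvd_PP (k z p : ℕ) (hp : p.Prime) (h : p ∣ PP k z) : p ≤ z ∧ ¬ p ∣ k := by
  have h1 : p ∈ (PP k z).primeFactors :=
    Nat.mem_primeFactors.2 ⟨hp, h, (PP_squarefree k z).ne_zero⟩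
  rw [PP_primeFactors, Finset.mem_filter, Finset.mem_Icc] at h1
  exact ⟨h1.1.2, h1.2.2⟩

lemma dvd_PP (k z a : ℕ) (ha : Squarefree a) (haz : a ≤ z) (hak : a.Coprime k) : a ∣ PP k z := by
  rw [← Nat.prod_primeFactors_of_squarefree ha]
  unfold PP
  apply Finset.prod_dvd_prod_of_subset
  intro p hp
  have hpp := Nat.prime_of_mem_primeFactors hp
  have hpa := Nat.dvd_of_mem_primeFactors hp
  rw [Finset.mem_filter, Finset.mem_Icc]
  refine ⟨⟨hpp.one_lt.le, (Nat.le_of_dvd (Nat.pos_of_ne_zero ha.ne_zero) hpa).trans haz⟩, hpp, ?_⟩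
  intro hpk
  have := Nat.dvd_gcd hpa hpk
  rw [hak] at this
  exact hpp.one_lt.ne' (Nat.dvd_one.1 this)

lemma coprime_of_dvd_PP (k z a : ℕ) (h : a ∣ PP k z) : a.Coprime k := by
  rw [Nat.coprime_iff_gcd_eq_one]
  by_contra hne
  obtain ⟨p, hp, hpd⟩ := Nat.exists_prime_and_dvd hne
  have h1 : p ∣ a := hpd.trans (Nat.gcd_dvd_left _ _)
  have h2 : p ∣ k := hpd.trans (Nat.gcd_dvd_right _ _)
  exact (prime_dvd_PP k z p hp (h1.trans h)).2 h2

/-- lower bound for the linear sieve sum -/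
lemma linear_lower (k y z : ℕ) (hk : 0 < k) (hyz : y ≤ z) :
    ((k.totient : ℝ) / k) * Real.log ((y : ℝ) + 1) ≤
      ∑ a ∈ (PP k z).divisors.filter (· ≤ y), iphi a := by
  have h := log_le_sum k y hk
  have h1 : ∑ a ∈ (Finset.Icc 1 y).filter (fun a => Squarefree a ∧ a.Coprime k),
      ((a.totient : ℝ)⁻¹) ≤ ∑ a ∈ (PP k z).divisors.filter (· ≤ y), iphi a := by
    apply Finset.sum_le_sum_of_subset_of_nonneg
    · intro a ha
      rw [Finset.mem_filter, Finset.mem_Icc] at ha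
      rw [Finset.mem_filter, Nat.mem_divisors]
      exact ⟨⟨dvd_PP k z a ha.2.1 (ha.1.2.trans hyz) ha.2.2, (PP_squarefree k z).ne_zero⟩, ha.1.2⟩
    · intro a _ _
      positivity
  have hk' : (0 : ℝ) < k := by exact_mod_cast hk
  have ht : (0 : ℝ) < k.totient := by exact_mod_cast Nat.totient_pos.2 hk
  calc ((k.totient : ℝ) / k) * Real.log ((y : ℝ) + 1)
      ≤ ((k.totient : ℝ) / k) * (((k : ℝ) / k.totient) *
      ∑ a ∈ (Finset.Icc 1 y).filter (fun a => Squarefree a ∧ a.Coprime k),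
        ((a.totient : ℝ)⁻¹)) := by gcongr
    _ = ∑ a ∈ (Finset.Icc 1 y).filter (fun a => Squarefree a ∧ a.Coprime k),
        ((a.totient : ℝ)⁻¹) := by field_simp
    _ ≤ _ := h1

/-- counting a residue class -/
lemma count_ap (N d r : ℕ) (hd : 0 < d) :
    |(((Finset.Icc 1 N).filter (fun m => m ≡ r [MOD d])).card : ℝ) - (N : ℝ) / d| ≤ 1 := by
  have h := Nat.Ioc_filter_modEq_card 0 N hd r
  have h0 : Finset.Ioc 0 N = Finset.Icc 1 N := by ext; simp; omega
  rw [h0] at h
  set C := ((Finset.Icc 1 N).filter (fun m => m ≡ r [MOD d])).card with hC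
  have hq : (0 : ℚ) < d := by exact_mod_cast hd
  have a1 := Int.floor_le (((N : ℚ) - r) / d)
  have a2 := Int.lt_floor_add_one (((N : ℚ) - r) / d)
  have b1 := Int.floor_le ((((0 : ℕ) : ℚ) - r) / d)
  have b2 := Int.lt_floor_add_one ((((0 : ℕ) : ℚ) - r) / d)
  have hdiff : ((N : ℚ) - r) / d - (((0 : ℕ) : ℚ) - r) / d = N / d := by
    field_simp
    push_cast
    ring
  have hmono : ⌊(((0 : ℕ) : ℚ) - r) / d⌋ ≤ ⌊((N : ℚ) - r) / d⌋ := by
    apply Int.floor_le_floor
    gcongr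
    exact Nat.zero_le _
  rw [max_eq_left (by linarith)] at h
  have hCq : (C : ℚ) = (⌊((N : ℚ) - r) / d⌋ : ℚ) - (⌊(((0 : ℕ) : ℚ) - r) / d⌋ : ℚ) := by
    exact_mod_cast h
  have hQ : |(C : ℚ) - (N : ℚ) / d| ≤ 1 := by
    rw [abs_le]
    constructor
    · rw [hCq]; linarith
    · rw [hCq]; linarith
  have hR := (Rat.cast_le (K := ℝ)).2 hQ
  push_cast at hR
  exact hR

/-! ### Brun–Titchmarsh -/

/-- `1/d` as an arithmetic function -/
noncomputable def inu : ArithmeticFunction ℝ := ⟨fun n => (n : ℝ)⁻¹, by simp⟩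

lemma inu_apply (n : ℕ) : inu n = (n : ℝ)⁻¹ := rfl

lemma inu_mult : inu.IsMultiplicative := by
  rw [ArithmeticFunction.IsMultiplicative.iff_ne_zero]
  refine ⟨by simp [inu_apply], ?_⟩
  intro m n _ _ _
  rw [inu_apply, inu_apply, inu_apply]
  push_cast
  rw [mul_inv]

/-- the sieve for primes in a progression -/
noncomputable def apSieve (N q a z : ℕ) : BoundingSieve where
  support := (Finset.Icc 1 N).filter (fun n => n ≡ a [MOD q])
  prodPrimes := PP q z
  prodPrimes_squarefree := PP_squarefree q z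
  weights := fun _ => 1
  weights_nonneg := fun _ => zero_le_one
  totalMass := (N : ℝ) / q
  nu := inu
  nu_mult := inu_mult
  nu_pos_of_prime := by
    intro p hp _
    rw [inu_apply]
    have : (0 : ℝ) < p := by exact_mod_cast hp.pos
    positivity
  nu_lt_one_of_prime := by
    intro p hp _
    rw [inu_apply]
    have : (1 : ℝ) < p := by exact_mod_cast hp.one_lt
    exact inv_lt_one_of_one_lt₀ this

lemma ap_rem (N q a z e : ℕ) (hq : 0 < q) (he : e ∣ PP q z) :
    |(apSieve N q a z).rem e| ≤ 1 := by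
  have he0 : 0 < e := Nat.pos_of_dvd_of_pos he (Nat.pos_of_ne_zero (PP_squarefree q z).ne_zero)
  have hcop : e.Coprime q := coprime_of_dvd_PP q z e he
  have hrem : (apSieve N q a z).rem e =
      (∑ n ∈ (Finset.Icc 1 N).filter (fun n => n ≡ a [MOD q]), if e ∣ n then (1 : ℝ) else 0) -
        (e : ℝ)⁻¹ * ((N : ℝ) / q) := rfl
  rw [hrem]
  obtain ⟨r, hr1, hr2⟩ := Nat.chineseRemainder hcop 0 a
  have hset : ((Finset.Icc 1 N).filter (fun n => n ≡ a [MOD q])).filter (fun n => e ∣ n) =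
      (Finset.Icc 1 N).filter (fun n => n ≡ r [MOD (e * q)]) := by
    rw [Finset.filter_filter]
    apply Finset.filter_congr
    intro n _
    rw [← Nat.modEq_and_modEq_iff_modEq_mul hcop]
    constructor
    · rintro ⟨h1, h2⟩
      exact ⟨((Nat.modEq_zero_iff_dvd).2 h2).trans hr1.symm, h1.trans hr2.symm⟩
    · rintro ⟨h1, h2⟩
      exact ⟨h2.trans hr2, (Nat.modEq_zero_iff_dvd).1 (h1.trans hr1)⟩
  rw [← Finset.sum_filter, hset, Finset.sum_const, nsmul_eq_mul, mul_one]
  have h := count_ap N (e * q) r (Nat.mul_pos he0 hq)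
  have h2 : (e : ℝ)⁻¹ * ((N : ℝ) / q) = (N : ℝ) / ((e * q : ℕ) : ℝ) := by
    push_cast
    field_simp
  rw [h2]
  exact h

lemma ap_selberg (N q a z e : ℕ) (he : e ∣ PP q z) :
    (apSieve N q a z).selbergTerms e = iphi e := by
  have hsq : Squarefree e := Squarefree.squarefree_of_dvd he (PP_squarefree q z)
  rw [BoundingSieve.selbergTerms_apply]
  show inu e * ∏ p ∈ e.primeFactors, (1 - inu p)⁻¹ = iphi e
  rw [← inu_mult.prod_primeFactors hsq, ← iphi_mult.prod_primeFactors hsq,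
    ← Finset.prod_mul_distrib]
  apply Finset.prod_congr rfl
  intro p hp
  have hpp := Nat.prime_of_mem_primeFactors hp
  rw [iphi_prime p hpp, inu_apply]
  have : (1 : ℝ) < p := by exact_mod_cast hpp.one_lt
  have h2 : (p : ℝ) - 1 ≠ 0 := by linarith
  field_simp

/-- **Brun–Titchmarsh** (with explicit parameter) -/
theorem brun_titchmarsh (N q a y : ℕ) (hq : 0 < q) (hy : 1 ≤ y) :
    (((Finset.Icc 1 N).filter (fun p => p.Prime ∧ p ≡ a [MOD q])).card : ℝ) ≤
      (y : ℝ) + (N : ℝ) / (q.totient * Real.log ((y : ℝ) + 1)) + (y : ℝ) ^ 2 := by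
  classical
  set s := apSieve N q a y with hs
  have hmain := selberg s y hy
  have hlog : 0 < Real.log ((y : ℝ) + 1) := by
    apply Real.log_pos
    have : (1 : ℝ) ≤ y := by exact_mod_cast hy
    linarith
  have hq' : (0 : ℝ) < q := by exact_mod_cast hq
  have ht : (0 : ℝ) < q.totient := by exact_mod_cast Nat.totient_pos.2 hq
  -- lower bound for SS
  have hSS : ((q.totient : ℝ) / q) * Real.log ((y : ℝ) + 1) ≤ SS s y := by
    refine (linear_lower q y y hq le_rfl).trans ?_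
    unfold SS
    apply le_of_eq
    apply Finset.sum_congr rfl
    intro e he
    rw [Finset.mem_filter] at he
    exact (ap_selberg N q a y e (Nat.dvd_of_mem_divisors he.1)).symm
  have hSSpos : 0 < ((q.totient : ℝ) / q) * Real.log ((y : ℝ) + 1) := by positivity
  have hM : s.totalMass * (SS s y)⁻¹ ≤ (N : ℝ) / (q.totient * Real.log ((y : ℝ) + 1)) := by
    have h1 : (SS s y)⁻¹ ≤ (((q.totient : ℝ) / q) * Real.log ((y : ℝ) + 1))⁻¹ :=
      inv_anti₀ hSSpos hSS
    have h2 : s.totalMass = (N : ℝ) / q := rfl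
    rw [h2]
    calc (N : ℝ) / q * (SS s y)⁻¹ ≤
        (N : ℝ) / q * (((q.totient : ℝ) / q) * Real.log ((y : ℝ) + 1))⁻¹ := by gcongr
      _ = (N : ℝ) / (q.totient * Real.log ((y : ℝ) + 1)) := by field_simp
  -- error
  have hE : ∑ d₁ ∈ (s.prodPrimes.divisors).filter (· ≤ y),
      ∑ d₂ ∈ (s.prodPrimes.divisors).filter (· ≤ y), |s.rem (Nat.lcm d₁ d₂)| ≤ (y : ℝ) ^ 2 := by
    have hcard : (((s.prodPrimes.divisors).filter (· ≤ y)).card : ℝ) ≤ y := by
      have : ((s.prodPrimes.divisors).filter (· ≤ y)).card ≤ (Finset.Icc 1 y).card := by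
        apply Finset.card_le_card
        intro d hd
        rw [Finset.mem_filter] at hd
        rw [Finset.mem_Icc]
        exact ⟨Nat.pos_of_mem_divisors hd.1, hd.2⟩
      rw [Nat.card_Icc, Nat.add_sub_cancel] at this
      exact_mod_cast this
    calc ∑ d₁ ∈ (s.prodPrimes.divisors).filter (· ≤ y),
        ∑ d₂ ∈ (s.prodPrimes.divisors).filter (· ≤ y), |s.rem (Nat.lcm d₁ d₂)|
        ≤ ∑ d₁ ∈ (s.prodPrimes.divisors).filter (· ≤ y),
        ∑ d₂ ∈ (s.prodPrimes.divisors).filter (· ≤ y), (1 : ℝ) := by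
          apply Finset.sum_le_sum
          intro d₁ h1
          apply Finset.sum_le_sum
          intro d₂ h2
          rw [Finset.mem_filter] at h1 h2
          exact ap_rem N q a y _ hq (Nat.lcm_dvd (Nat.dvd_of_mem_divisors h1.1)
            (Nat.dvd_of_mem_divisors h2.1))
      _ = (((s.prodPrimes.divisors).filter (· ≤ y)).card : ℝ) *
          (((s.prodPrimes.divisors).filter (· ≤ y)).card : ℝ) := by
          rw [Finset.sum_const, Finset.sum_const]
          simp
      _ ≤ (y : ℝ) ^ 2 := by rw [sq]; gcongr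
  -- primes are sifted
  have hsift : (((Finset.Icc 1 N).filter (fun p => p.Prime ∧ p ≡ a [MOD q])).card : ℝ) ≤
      (y : ℝ) + s.siftedSum := by
    have h1 : s.siftedSum = ((((Finset.Icc 1 N).filter (fun n => n ≡ a [MOD q])).filter
        (fun n => Nat.Coprime (PP q y) n)).card : ℝ) := by
      unfold BoundingSieve.siftedSum
      show ∑ d ∈ (Finset.Icc 1 N).filter (fun n => n ≡ a [MOD q]),
        (if Nat.Coprime (PP q y) d then (1 : ℝ) else 0) = _
      rw [← Finset.sum_filter, Finset.sum_const, nsmul_eq_mul, mul_one]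
    rw [h1]
    have h2 : (Finset.Icc 1 N).filter (fun p => p.Prime ∧ p ≡ a [MOD q]) ⊆
        (Finset.Icc 1 y) ∪ (((Finset.Icc 1 N).filter (fun n => n ≡ a [MOD q])).filter
        (fun n => Nat.Coprime (PP q y) n)) := by
      intro p hp
      rw [Finset.mem_filter, Finset.mem_Icc] at hp
      rw [Finset.mem_union, Finset.mem_Icc, Finset.mem_filter, Finset.mem_filter, Finset.mem_Icc]
      by_cases hpy : p ≤ y
      · left; exact ⟨hp.1.1, hpy⟩
      · right
        refine ⟨⟨hp.1, hp.2.2⟩, ?_⟩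
        rw [Nat.coprime_comm, Nat.Prime.coprime_iff_not_dvd hp.2.1]
        intro hd
        exact hpy (prime_dvd_PP q y p hp.2.1 hd).1
    have h3 := (Finset.card_le_card h2).trans (Finset.card_union_le _ _)
    rw [Nat.card_Icc, Nat.add_sub_cancel] at h3
    exact_mod_cast h3
  linarith

end Pool.Agent.Lib.MP_d9bc60_nt.Sieve
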