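import Mathlib
import Pool.Agent.Lib.MP_d9bc60_nt.BrunTitchmarsh

set_option autoImplicit false

open Finset ArithmeticFunction

namespace Pool.Agent.Lib.MP_d9bc60_nt.Sieve

/-- `τ(d)/d` as an arithmetic function -/
noncomputable def tnu : ArithmeticFunction ℝ := ⟨fun n => (n.divisors.card : ℝ) * (n : ℝ)⁻¹, by simp⟩

lemma tnu_apply (n : ℕ) : tnu n = (n.divisors.card : ℝ) * (n : ℝ)⁻¹ := rfl

lemma tnu_mult : tnu.IsMultiplicative := by
  rw [ArithmeticFunction.IsMultiplicative.iff_ne_zero]
  refine ⟨by simp [tnu_apply], ?_⟩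
  intro m n _ _ hmn
  rw [tnu_apply, tnu_apply, tnu_apply, Nat.Coprime.card_divisors_mul hmn]
  push_cast
  rw [mul_inv]
  ring

lemma tnu_prime (p : ℕ) (hp : p.Prime) : tnu p = 2 * (p : ℝ)⁻¹ := by
  rw [tnu_apply, hp.divisors, Finset.card_pair hp.one_lt.ne]
  norm_num

/-- count of `m ≤ N` with `d ∣ m (m + h)` -/
lemma pair_count (N h d : ℕ) (hd : Squarefree d) (hcop : d.Coprime h) :
    |(((Finset.Icc 1 N).filter (fun m => d ∣ m * (m + h))).card : ℝ) -
      (d.divisors.card : ℝ) * (d : ℝ)⁻¹ * N| ≤ d.divisors.card := by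
  classical
  have hd0 : 0 < d := Nat.pos_of_ne_zero hd.ne_zero
  -- split by gcd
  have hmaps : ∀ m ∈ (Finset.Icc 1 N).filter (fun m => d ∣ m * (m + h)),
      Nat.gcd m d ∈ d.divisors := by
    intro m _
    rw [Nat.mem_divisors]
    exact ⟨Nat.gcd_dvd_right _ _, hd0.ne'⟩
  have hcard := Finset.card_eq_sum_card_fiberwise (s := (Finset.Icc 1 N).filter
    (fun m => d ∣ m * (m + h))) (t := d.divisors) (f := fun m => Nat.gcd m d) hmaps
  have hfib : ∀ e ∈ d.divisors,
      |((((Finset.Icc 1 N).filter (fun m => d ∣ m * (m + h))).filter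
        (fun m => Nat.gcd m d = e)).card : ℝ) - (N : ℝ) / d| ≤ 1 := by
    intro e he
    have hed := Nat.dvd_of_mem_divisors he
    obtain ⟨g, hg⟩ := hed
    have he0 : 0 < e := Nat.pos_of_mem_divisors he
    have hg0 : 0 < g := by
      rcases Nat.eq_zero_or_pos g with h0 | h0
      · rw [h0, mul_zero] at hg; omega
      · exact h0
    have heg : Nat.Coprime e g := by
      apply Nat.coprime_of_squarefree_mul
      rw [← hg]; exact hd
    have hgh : Nat.Coprime g h := Nat.Coprime.coprime_dvd_left (hg ▸ dvd_mul_left g e) hcop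
    -- residue of `-h` mod g
    obtain ⟨r, hr1, hr2⟩ := Nat.chineseRemainder heg 0 (g * h - h)
    have hneg : ∀ m : ℕ, g ∣ m + h ↔ m ≡ g * h - h [MOD g] := by
      intro m
      have hle : h ≤ g * h := Nat.le_mul_of_pos_left h hg0
      rw [← Int.natCast_modEq_iff, Nat.cast_sub hle, Int.modEq_iff_dvd]
      push_cast
      constructor
      · intro h1
        have h2 : (g : ℤ) ∣ (m : ℤ) + h := by exact_mod_cast h1
        have h3 : (g : ℤ) * h - h - m = (g : ℤ) * h - ((m : ℤ) + h) := by ring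
        rw [h3]
        exact dvd_sub (dvd_mul_right _ _) h2
      · intro h1
        have h3 : (m : ℤ) + h = (g : ℤ) * h - ((g : ℤ) * h - h - m) := by ring
        have h2 : (g : ℤ) ∣ (m : ℤ) + h := by
          rw [h3]
          exact dvd_sub (dvd_mul_right _ _) h1
        exact_mod_cast h2
    have hset : ((Finset.Icc 1 N).filter (fun m => d ∣ m * (m + h))).filter
        (fun m => Nat.gcd m d = e) = (Finset.Icc 1 N).filter (fun n => n ≡ r [MOD (e * g)]) := by
      rw [Finset.filter_filter]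
      apply Finset.filter_congr
      intro m _
      rw [← Nat.modEq_and_modEq_iff_modEq_mul heg]
      constructor
      · rintro ⟨h1, h2⟩
        have h3 : e ∣ m := h2 ▸ Nat.gcd_dvd_left _ _
        have h4 : g ∣ m + h := by
          have h5 : d ∣ Nat.gcd d m * (m + h) := dvd_gcd_mul_of_dvd_mul h1
          rw [Nat.gcd_comm, h2, hg] at h5
          exact (Nat.mul_dvd_mul_iff_left he0).1 h5
        exact ⟨((Nat.modEq_zero_iff_dvd).2 h3).trans hr1.symm, ((hneg m).1 h4).trans hr2.symm⟩
      · rintro ⟨h1, h2⟩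
        have h3 : e ∣ m := (Nat.modEq_zero_iff_dvd).1 (h1.trans hr1)
        have h4 : g ∣ m + h := (hneg m).2 (h2.trans hr2)
        refine ⟨?_, ?_⟩
        · rw [hg]
          exact Nat.mul_dvd_mul h3 h4
        · rw [hg, Nat.gcd_comm]
          have hgm : Nat.Coprime g m := by
            rw [Nat.coprime_iff_gcd_eq_one]
            have h5 : Nat.gcd g m ∣ h := by
              have h6 : Nat.gcd g m ∣ m + h := (Nat.gcd_dvd_left _ _).trans h4
              exact (Nat.dvd_add_right (Nat.gcd_dvd_right _ _)).1 h6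
            have h7 : Nat.gcd g m ∣ Nat.gcd g h := Nat.dvd_gcd (Nat.gcd_dvd_left _ _) h5
            rw [hgh] at h7
            exact Nat.dvd_one.1 h7
          rw [Nat.Coprime.gcd_mul_right_cancel e hgm]
          exact Nat.gcd_eq_left h3
    rw [hset]
    have h := count_ap N (e * g) r (Nat.mul_pos he0 hg0)
    rw [← hg] at h
    rw [← hg]
    exact h
  have hcardR : (((Finset.Icc 1 N).filter (fun m => d ∣ m * (m + h))).card : ℝ) =
      ∑ e ∈ d.divisors, ((((Finset.Icc 1 N).filter (fun m => d ∣ m * (m + h))).filter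
        (fun m => Nat.gcd m d = e)).card : ℝ) := by
    exact_mod_cast hcard
  have hconst : (d.divisors.card : ℝ) * (d : ℝ)⁻¹ * N = ∑ e ∈ d.divisors, (N : ℝ) / d := by
    rw [Finset.sum_const, nsmul_eq_mul]
    field_simp
  rw [hcardR, hconst, ← Finset.sum_sub_distrib]
  refine (Finset.abs_sum_le_sum_abs _ _).trans ?_
  refine (Finset.sum_le_sum hfib).trans ?_
  simp

/-- the sieve for prime pairs -/
noncomputable def pairSieve (N h z : ℕ) : BoundingSieve where
  support := (Finset.Icc 1 N).image (fun m => m * (m + h))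
  prodPrimes := PP (2 * h) z
  prodPrimes_squarefree := PP_squarefree (2 * h) z
  weights := fun _ => 1
  weights_nonneg := fun _ => zero_le_one
  totalMass := N
  nu := tnu
  nu_mult := tnu_mult
  nu_pos_of_prime := by
    intro p hp _
    rw [tnu_prime p hp]
    have : (0 : ℝ) < p := by exact_mod_cast hp.pos
    positivity
  nu_lt_one_of_prime := by
    intro p hp hd
    rw [tnu_prime p hp]
    have h1 := (prime_dvd_PP _ _ p hp hd).2
    have h2 : p ≠ 2 := by
      rintro rfl
      exact h1 (dvd_mul_right _ _)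
    have h3 : 3 ≤ p := by
      have := hp.two_le
      omega
    have h4 : (3 : ℝ) ≤ p := by exact_mod_cast h3
    rw [mul_inv_lt_iff₀ (by linarith)]
    linarith

lemma inj_pair (h : ℕ) : Function.Injective (fun m : ℕ => m * (m + h)) := by
  have : StrictMono (fun m : ℕ => m * (m + h)) := by
    intro a b hab
    have hb : 0 < b := by omega
    show a * (a + h) < b * (b + h)
    calc a * (a + h) ≤ a * (b + h) := Nat.mul_le_mul_left _ (by omega)
      _ < b * (b + h) := Nat.mul_lt_mul_of_pos_right hab (by omega)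
  exact this.injective

lemma pair_rem (N h z e : ℕ) (he : e ∣ PP (2 * h) z) :
    |(pairSieve N h z).rem e| ≤ e.divisors.card := by
  have hsq : Squarefree e := Squarefree.squarefree_of_dvd he (PP_squarefree _ z)
  have hcop : e.Coprime h :=
    Nat.Coprime.coprime_dvd_right (dvd_mul_left h 2) (coprime_of_dvd_PP _ z e he)
  have hrem : (pairSieve N h z).rem e =
      (∑ n ∈ (Finset.Icc 1 N).image (fun m => m * (m + h)), if e ∣ n then (1 : ℝ) else 0) -
        (e.divisors.card : ℝ) * (e : ℝ)⁻¹ * N := rfl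
  rw [hrem, Finset.sum_image (by intro a _ b _ hab; exact inj_pair h hab), ← Finset.sum_filter,
    Finset.sum_const, nsmul_eq_mul, mul_one]
  exact pair_count N h e hsq hcop

lemma pair_selberg (N h z e : ℕ) (he : e ∣ PP (2 * h) z) :
    ∏ p ∈ e.primeFactors, ((2 * (p : ℝ) - 1) / ((p : ℝ) - 1) ^ 2) ≤
      (pairSieve N h z).selbergTerms e := by
  have hsq : Squarefree e := Squarefree.squarefree_of_dvd he (PP_squarefree _ z)
  rw [BoundingSieve.selbergTerms_apply]
  show _ ≤ tnu e * ∏ p ∈ e.primeFactors, (1 - tnu p)⁻¹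
  rw [← tnu_mult.prod_primeFactors hsq, ← Finset.prod_mul_distrib]
  apply Finset.prod_le_prod
  · intro p hp
    have hpp := Nat.prime_of_mem_primeFactors hp
    have : (2 : ℝ) ≤ p := by exact_mod_cast hpp.two_le
    apply div_nonneg
    · linarith
    · positivity
  · intro p hp
    have hpp := Nat.prime_of_mem_primeFactors hp
    have hpd : p ∣ PP (2 * h) z := (Nat.dvd_of_mem_primeFactors hp).trans he
    have h1 := (prime_dvd_PP _ _ p hpp hpd).2
    have h2 : p ≠ 2 := by
      rintro rfl
      exact h1 (dvd_mul_right _ _)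
    have h3 : 3 ≤ p := by
      have := hpp.two_le
      omega
    have h4 : (3 : ℝ) ≤ p := by exact_mod_cast h3
    rw [tnu_prime p hpp]
    have h5 : 2 * (p : ℝ)⁻¹ * (1 - 2 * (p : ℝ)⁻¹)⁻¹ = 2 / ((p : ℝ) - 2) := by
      have h6 : (p : ℝ) ≠ 0 := by linarith
      have h7 : (p : ℝ) - 2 ≠ 0 := by linarith
      field_simp
    rw [h5, div_le_div_iff₀ (by nlinarith) (by linarith)]
    nlinarith

/-- **prime pairs** (with explicit parameter) -/
theorem prime_pairs (N h y : ℕ) (hh : 0 < h) (hy : 1 ≤ y) :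
    (((Finset.Icc 1 N).filter (fun p => p.Prime ∧ (p + h).Prime)).card : ℝ) ≤
      (y : ℝ) ^ 2 + (N : ℝ) * (((2 * h : ℕ) : ℝ) / (2 * h).totient) ^ 2 /
        (Real.log ((y : ℝ) + 1)) ^ 2 + (y : ℝ) ^ 8 := by
  classical
  set z := y * y with hz
  have hz1 : 1 ≤ z := Nat.one_le_iff_ne_zero.2 (by positivity)
  set s := pairSieve N h z with hs
  have hmain := selberg s z hz1
  have h2h : 0 < 2 * h := by omega
  have hlog : 0 < Real.log ((y : ℝ) + 1) := by
    apply Real.log_pos
    have : (1 : ℝ) ≤ y := by exact_mod_cast hy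
    linarith
  have hq' : (0 : ℝ) < (2 * h : ℕ) := by exact_mod_cast h2h
  have ht : (0 : ℝ) < (2 * h).totient := by exact_mod_cast Nat.totient_pos.2 h2h
  have hyz : y ≤ z := Nat.le_mul_self y
  have hSS : ((((2 * h).totient : ℝ) / (2 * h : ℕ)) * Real.log ((y : ℝ) + 1)) ^ 2 ≤ SS s z := by
    have h1 := linear_lower (2 * h) y z h2h hyz
    have h2 := sq_le (PP (2 * h) z) y z (PP_squarefree _ _) le_rfl
    calc ((((2 * h).totient : ℝ) / (2 * h : ℕ)) * Real.log ((y : ℝ) + 1)) ^ 2
        ≤ (∑ a ∈ (PP (2 * h) z).divisors.filter (· ≤ y), iphi a) ^ 2 := by gcongr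
      _ ≤ _ := h2
      _ ≤ SS s z := by
        unfold SS
        apply Finset.sum_le_sum
        intro e he
        rw [Finset.mem_filter] at he
        exact pair_selberg N h z e (Nat.dvd_of_mem_divisors he.1)
  have hSSpos : 0 < ((((2 * h).totient : ℝ) / (2 * h : ℕ)) * Real.log ((y : ℝ) + 1)) ^ 2 := by
    positivity
  have hM : s.totalMass * (SS s z)⁻¹ ≤ (N : ℝ) * (((2 * h : ℕ) : ℝ) / (2 * h).totient) ^ 2 /
        (Real.log ((y : ℝ) + 1)) ^ 2 := by
    have h1 := inv_anti₀ hSSpos hSS
    have h2 : s.totalMass = (N : ℝ) := rfl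
    rw [h2]
    calc (N : ℝ) * (SS s z)⁻¹ ≤
        (N : ℝ) * (((((2 * h).totient : ℝ) / (2 * h : ℕ)) * Real.log ((y : ℝ) + 1)) ^ 2)⁻¹ := by
          gcongr
      _ = _ := by field_simp
  -- error
  have hE : ∑ d₁ ∈ (s.prodPrimes.divisors).filter (· ≤ z),
      ∑ d₂ ∈ (s.prodPrimes.divisors).filter (· ≤ z), |s.rem (Nat.lcm d₁ d₂)| ≤ (y : ℝ) ^ 8 := by
    have hcard : (((s.prodPrimes.divisors).filter (· ≤ z)).card : ℝ) ≤ z := by
      have : ((s.prodPrimes.divisors).filter (· ≤ z)).card ≤ (Finset.Icc 1 z).card := by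
        apply Finset.card_le_card
        intro d hd
        rw [Finset.mem_filter] at hd
        rw [Finset.mem_Icc]
        exact ⟨Nat.pos_of_mem_divisors hd.1, hd.2⟩
      rw [Nat.card_Icc, Nat.add_sub_cancel] at this
      exact_mod_cast this
    calc ∑ d₁ ∈ (s.prodPrimes.divisors).filter (· ≤ z),
        ∑ d₂ ∈ (s.prodPrimes.divisors).filter (· ≤ z), |s.rem (Nat.lcm d₁ d₂)|
        ≤ ∑ d₁ ∈ (s.prodPrimes.divisors).filter (· ≤ z),
        ∑ d₂ ∈ (s.prodPrimes.divisors).filter (· ≤ z), ((z : ℝ) * z) := by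
          apply Finset.sum_le_sum
          intro d₁ h1
          apply Finset.sum_le_sum
          intro d₂ h2
          rw [Finset.mem_filter] at h1 h2
          have h3 : Nat.lcm d₁ d₂ ∣ PP (2 * h) z := Nat.lcm_dvd (Nat.dvd_of_mem_divisors h1.1)
            (Nat.dvd_of_mem_divisors h2.1)
          have h4 := pair_rem N h z _ h3
          have h5 : (Nat.lcm d₁ d₂).divisors.card ≤ z * z := by
            refine (Nat.card_divisors_le_self _).trans ?_
            refine (Nat.le_of_dvd (Nat.mul_pos (Nat.pos_of_mem_divisors h1.1)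
              (Nat.pos_of_mem_divisors h2.1)) (Nat.lcm_dvd_mul _ _)).trans ?_
            exact Nat.mul_le_mul h1.2 h2.2
          have h6 : ((Nat.lcm d₁ d₂).divisors.card : ℝ) ≤ (z : ℝ) * z := by exact_mod_cast h5
          exact h4.trans h6
      _ = (((s.prodPrimes.divisors).filter (· ≤ z)).card : ℝ) *
          (((s.prodPrimes.divisors).filter (· ≤ z)).card : ℝ) * ((z : ℝ) * z) := by
          rw [Finset.sum_const, Finset.sum_const]
          simp
          ring
      _ ≤ (z : ℝ) * z * (z * z) := by gcongr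
      _ = (y : ℝ) ^ 8 := by rw [hz]; push_cast; ring
  -- primes are sifted
  have hsift : (((Finset.Icc 1 N).filter (fun p => p.Prime ∧ (p + h).Prime)).card : ℝ) ≤
      (z : ℝ) + s.siftedSum := by
    have h1 : s.siftedSum = (((Finset.Icc 1 N).filter
        (fun m => Nat.Coprime (PP (2 * h) z) (m * (m + h)))).card : ℝ) := by
      unfold BoundingSieve.siftedSum
      show ∑ d ∈ (Finset.Icc 1 N).image (fun m => m * (m + h)),
        (if Nat.Coprime (PP (2 * h) z) d then (1 : ℝ) else 0) = _
      rw [Finset.sum_image (by intro a _ b _ hab; exact inj_pair h hab), ← Finset.sum_filter,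
        Finset.sum_const, nsmul_eq_mul, mul_one]
    rw [h1]
    have h2 : (Finset.Icc 1 N).filter (fun p => p.Prime ∧ (p + h).Prime) ⊆
        (Finset.Icc 1 z) ∪ ((Finset.Icc 1 N).filter
        (fun m => Nat.Coprime (PP (2 * h) z) (m * (m + h)))) := by
      intro p hp
      rw [Finset.mem_filter, Finset.mem_Icc] at hp
      rw [Finset.mem_union, Finset.mem_Icc, Finset.mem_filter, Finset.mem_Icc]
      by_cases hpz : p ≤ z
      · left; exact ⟨hp.1.1, hpz⟩
      · right
        refine ⟨hp.1, ?_⟩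
        rw [Nat.coprime_comm]
        apply Nat.Coprime.mul_left
        · rw [Nat.Prime.coprime_iff_not_dvd hp.2.1]
          intro hd
          exact hpz (prime_dvd_PP _ z p hp.2.1 hd).1
        · rw [Nat.Prime.coprime_iff_not_dvd hp.2.2]
          intro hd
          have := (prime_dvd_PP _ z (p + h) hp.2.2 hd).1
          omega
    have h3 := (Finset.card_le_card h2).trans (Finset.card_union_le _ _)
    rw [Nat.card_Icc, Nat.add_sub_cancel] at h3
    exact_mod_cast h3
  have hzy : (z : ℝ) = (y : ℝ) ^ 2 := by rw [hz]; push_cast; ring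
  rw [hzy] at hsift
  linarith

end Pool.Agent.Lib.MP_d9bc60_nt.Sieve
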