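import Mathlib
import Pool.Agent.Lib.MP_d9bc60_nt.PrimePairs

set_option autoImplicit false

open Finset ArithmeticFunction Filter

namespace Pool.Agent.Lib.MP_d9bc60_nt.Sieve

/-- `log N ≤ N^(1/4)` for large `N` -/
lemma log_le_rpow : ∃ N₀ : ℕ, 2 ≤ N₀ ∧ ∀ N : ℕ, N₀ ≤ N →
    Real.log N ≤ (N : ℝ) ^ (1 / 8 : ℝ) := by
  have h : (fun x : ℝ => Real.log x) =o[atTop] fun x => x ^ (1 / 8 : ℝ) :=
    isLittleO_log_rpow_atTop (by norm_num)
  have h1 := h.bound (c := 1) one_pos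
  rw [Filter.eventually_atTop] at h1
  obtain ⟨A, hA⟩ := h1
  refine ⟨max 2 ⌈A⌉₊, le_max_left _ _, ?_⟩
  intro N hN
  have hN2 : 2 ≤ N := (le_max_left _ _).trans hN
  have hNA : A ≤ N := by
    have : ⌈A⌉₊ ≤ N := (le_max_right _ _).trans hN
    exact (Nat.le_ceil A).trans (by exact_mod_cast this)
  have h2 := hA N hNA
  rw [one_mul, Real.norm_of_nonneg, Real.norm_of_nonneg] at h2
  · exact h2
  · positivity
  · apply Real.log_nonneg
    have : (2 : ℝ) ≤ N := by exact_mod_cast hN2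
    linarith

/-- Brun–Titchmarsh, clean form -/
theorem bt : ∃ N₀ : ℕ, 2 ≤ N₀ ∧ ∀ N : ℕ, N₀ ≤ N → ∀ q a : ℕ, 0 < q → q * q ≤ N →
    (((Finset.Icc 1 N).filter (fun p => p.Prime ∧ p ≡ a [MOD q])).card : ℝ) ≤
      10 * (N : ℝ) / (q.totient * Real.log N) := by
  obtain ⟨N₀, hN₀, hlog⟩ := log_le_rpow
  refine ⟨N₀, hN₀, ?_⟩
  intro N hN q a hq hqN
  have hN2 : 2 ≤ N := hN₀.trans hN
  have hNR : (2 : ℝ) ≤ N := by exact_mod_cast hN2
  have hNpos : (0 : ℝ) < N := by linarith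
  have hL := hlog N hN
  have hlogpos : 0 < Real.log N := Real.log_pos (by linarith)
  set y := ⌊(N : ℝ) ^ (1 / 8 : ℝ)⌋₊ with hy
  have h1 : (1 : ℝ) ≤ (N : ℝ) ^ (1 / 8 : ℝ) := Real.one_le_rpow (by linarith) (by norm_num)
  have hy1 : 1 ≤ y := Nat.one_le_floor_iff _ |>.2 h1
  have hyle : (y : ℝ) ≤ (N : ℝ) ^ (1 / 8 : ℝ) := Nat.floor_le (by positivity)
  have hlty : (N : ℝ) ^ (1 / 8 : ℝ) < (y : ℝ) + 1 := Nat.lt_floor_add_one _
  have hmain := brun_titchmarsh N q a y hq hy1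
  have hlogy : (1 / 8 : ℝ) * Real.log N ≤ Real.log ((y : ℝ) + 1) := by
    rw [← Real.log_rpow hNpos]
    exact Real.log_le_log (by positivity) hlty.le
  have hlogypos : 0 < Real.log ((y : ℝ) + 1) := by
    refine lt_of_lt_of_le ?_ hlogy
    positivity
  have ht : (0 : ℝ) < q.totient := by exact_mod_cast Nat.totient_pos.2 hq
  have htq : (q.totient : ℝ) ≤ (N : ℝ) ^ (1 / 2 : ℝ) := by
    have h2 : (q.totient : ℝ) ≤ q := by exact_mod_cast Nat.totient_le q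
    have h3 : (q : ℝ) ≤ Real.sqrt N := by
      apply Real.le_sqrt_of_sq_le
      have : ((q * q : ℕ) : ℝ) ≤ N := by exact_mod_cast hqN
      push_cast at this
      nlinarith
    rw [Real.sqrt_eq_rpow] at h3
    exact h2.trans h3
  have e1 : (N : ℝ) / (q.totient * Real.log ((y : ℝ) + 1)) ≤ 8 * (N : ℝ) / (q.totient * Real.log N) := by
    rw [div_le_div_iff₀ (by positivity) (by positivity)]
    have : (q.totient : ℝ) * Real.log N ≤ 8 * (q.totient * Real.log ((y : ℝ) + 1)) := by nlinarith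
    nlinarith
  have hroot : (N : ℝ) = ((N : ℝ) ^ (1 / 8 : ℝ)) ^ 8 := by
    rw [← Real.rpow_natCast, ← Real.rpow_mul hNpos.le]
    norm_num
  have hhalf : (N : ℝ) ^ (1 / 2 : ℝ) = ((N : ℝ) ^ (1 / 8 : ℝ)) ^ 4 := by
    rw [← Real.rpow_natCast, ← Real.rpow_mul hNpos.le]
    norm_num
  set w := (N : ℝ) ^ (1 / 8 : ℝ) with hw
  have e2 : w ^ 2 ≤ (N : ℝ) / (q.totient * Real.log N) := by
    rw [le_div_iff₀ (by positivity)]
    calc w ^ 2 * (q.totient * Real.log N) ≤ w ^ 2 * (w ^ 4 * w) := by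
          rw [← hhalf]
          gcongr
      _ = w ^ 7 := by ring
      _ ≤ w ^ 8 := pow_le_pow_right₀ h1 (by norm_num)
      _ = N := hroot.symm
  have e3 : (y : ℝ) ≤ w ^ 2 := hyle.trans (by nlinarith)
  have e4 : (y : ℝ) ^ 2 ≤ w ^ 2 := by gcongr
  have e5 : 10 * (N : ℝ) / (q.totient * Real.log N) = 8 * (N : ℝ) / (q.totient * Real.log N) +
      2 * ((N : ℝ) / (q.totient * Real.log N)) := by ring
  rw [e5]
  linarith

/-- prime pairs, clean form -/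
theorem pp : ∃ N₀ : ℕ, 2 ≤ N₀ ∧ ∀ N : ℕ, N₀ ≤ N → ∀ h : ℕ, 0 < h →
    (((Finset.Icc 1 N).filter (fun p => p.Prime ∧ (p + h).Prime)).card : ℝ) ≤
      1026 * (N : ℝ) / (Real.log N) ^ 2 * (rphi h) ^ 2 := by
  obtain ⟨N₀, hN₀, hlog⟩ := log_le_rpow
  refine ⟨N₀, hN₀, ?_⟩
  intro N hN h hh
  have hN2 : 2 ≤ N := hN₀.trans hN
  have hNR : (2 : ℝ) ≤ N := by exact_mod_cast hN2
  have hNpos : (0 : ℝ) < N := by linarith
  have hL := hlog N hN
  have hlogpos : 0 < Real.log N := Real.log_pos (by linarith)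
  set y := ⌊(N : ℝ) ^ (1 / 16 : ℝ)⌋₊ with hy
  have h1 : (1 : ℝ) ≤ (N : ℝ) ^ (1 / 16 : ℝ) := Real.one_le_rpow (by linarith) (by norm_num)
  have hy1 : 1 ≤ y := Nat.one_le_floor_iff _ |>.2 h1
  have hyle : (y : ℝ) ≤ (N : ℝ) ^ (1 / 16 : ℝ) := Nat.floor_le (by positivity)
  have hlty : (N : ℝ) ^ (1 / 16 : ℝ) < (y : ℝ) + 1 := Nat.lt_floor_add_one _
  have hmain := prime_pairs N h y hh hy1
  have hlogy : (1 / 16 : ℝ) * Real.log N ≤ Real.log ((y : ℝ) + 1) := by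
    rw [← Real.log_rpow hNpos]
    exact Real.log_le_log (by positivity) hlty.le
  have hlogypos : 0 < Real.log ((y : ℝ) + 1) := by
    refine lt_of_lt_of_le ?_ hlogy
    positivity
  have ht : (0 : ℝ) < h.totient := by exact_mod_cast Nat.totient_pos.2 hh
  have ht2 : (0 : ℝ) < (2 * h).totient := by exact_mod_cast Nat.totient_pos.2 (by omega)
  have hh' : (0 : ℝ) < h := by exact_mod_cast hh
  have htle : (h.totient : ℝ) ≤ (2 * h).totient := by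
    have : h.totient ≤ (2 * h).totient :=
      Nat.le_of_dvd (Nat.totient_pos.2 (by omega)) (Nat.totient_dvd_of_dvd (dvd_mul_left h 2))
    exact_mod_cast this
  have hr : (((2 * h : ℕ) : ℝ) / (2 * h).totient) ≤ 2 * rphi h := by
    rw [rphi_apply, div_le_iff₀ ht2]
    push_cast
    have : (h : ℝ) * (h.totient : ℝ)⁻¹ * h.totient = h := by field_simp
    have h3 : (h : ℝ) * (h.totient : ℝ)⁻¹ * h.totient ≤ (h : ℝ) * (h.totient : ℝ)⁻¹ * (2 * h).totient := by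
      gcongr
    nlinarith
  have hr0 : 0 ≤ (((2 * h : ℕ) : ℝ) / (2 * h).totient) := by positivity
  have hr1 : 1 ≤ rphi h := by
    rw [rphi_apply]
    have : (h.totient : ℝ) ≤ h := by exact_mod_cast Nat.totient_le h
    rw [← div_eq_mul_inv, le_div_iff₀ ht]
    linarith
  have e1 : (N : ℝ) * (((2 * h : ℕ) : ℝ) / (2 * h).totient) ^ 2 /
        (Real.log ((y : ℝ) + 1)) ^ 2 ≤ 1024 * (N : ℝ) / (Real.log N) ^ 2 * (rphi h) ^ 2 := by
    have a1 : (((2 * h : ℕ) : ℝ) / (2 * h).totient) ^ 2 ≤ (2 * rphi h) ^ 2 := by gcongr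
    have a2 : ((1 / 16 : ℝ) * Real.log N) ^ 2 ≤ (Real.log ((y : ℝ) + 1)) ^ 2 := by gcongr
    calc (N : ℝ) * (((2 * h : ℕ) : ℝ) / (2 * h).totient) ^ 2 / (Real.log ((y : ℝ) + 1)) ^ 2
        ≤ (N : ℝ) * (2 * rphi h) ^ 2 / ((1 / 16 : ℝ) * Real.log N) ^ 2 := by gcongr
      _ = 1024 * (N : ℝ) / (Real.log N) ^ 2 * (rphi h) ^ 2 := by
          field_simp
          ring
  have hroot : (N : ℝ) = ((N : ℝ) ^ (1 / 8 : ℝ)) ^ 8 := by
    rw [← Real.rpow_natCast, ← Real.rpow_mul hNpos.le]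
    norm_num
  have hsm : (N : ℝ) ^ (1 / 8 : ℝ) = ((N : ℝ) ^ (1 / 16 : ℝ)) ^ 2 := by
    rw [← Real.rpow_natCast, ← Real.rpow_mul hNpos.le]
    norm_num
  set w := (N : ℝ) ^ (1 / 8 : ℝ) with hw
  set v := (N : ℝ) ^ (1 / 16 : ℝ) with hv
  have hw1 : 1 ≤ w := by rw [hsm]; nlinarith
  have e2 : w ^ 4 ≤ (N : ℝ) / (Real.log N) ^ 2 := by
    rw [le_div_iff₀ (by positivity)]
    calc w ^ 4 * (Real.log N) ^ 2 ≤ w ^ 4 * w ^ 2 := by gcongr
      _ = w ^ 6 := by ring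
      _ ≤ w ^ 8 := pow_le_pow_right₀ hw1 (by norm_num)
      _ = N := hroot.symm
  have e3 : (y : ℝ) ^ 2 ≤ w ^ 4 := by
    calc (y : ℝ) ^ 2 ≤ v ^ 2 := by gcongr
      _ = w ^ 1 := by rw [hsm]; ring
      _ ≤ w ^ 4 := pow_le_pow_right₀ hw1 (by norm_num)
  have e4 : (y : ℝ) ^ 8 ≤ w ^ 4 := by
    calc (y : ℝ) ^ 8 ≤ v ^ 8 := by gcongr
      _ = w ^ 4 := by rw [hsm]; ring
  have e6 : (N : ℝ) / (Real.log N) ^ 2 ≤ (N : ℝ) / (Real.log N) ^ 2 * (rphi h) ^ 2 := by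
    have : 1 ≤ (rphi h) ^ 2 := one_le_pow₀ hr1
    have h5 : 0 ≤ (N : ℝ) / (Real.log N) ^ 2 := by positivity
    nlinarith
  have e5 : 1026 * (N : ℝ) / (Real.log N) ^ 2 * (rphi h) ^ 2 =
      1024 * (N : ℝ) / (Real.log N) ^ 2 * (rphi h) ^ 2 +
      2 * ((N : ℝ) / (Real.log N) ^ 2 * (rphi h) ^ 2) := by ring
  rw [e5]
  linarith

end Pool.Agent.Lib.MP_d9bc60_nt.Sieve
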