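import Mathlib
import Pool.Agent.Lib.MP_d9bc60_nt.Clean

set_option autoImplicit false

open Finset ArithmeticFunction Filter

namespace Pool.Agent.Lib.MP_d9bc60_nt.Sieve

/-- the multiplicative function with `(v/φ(v))^4 = ∑_{e ∣ rad v} psi e` -/
noncomputable def psi : ArithmeticFunction ℝ :=
  prodPrimeFactors (fun p => ((p : ℝ) * ((p : ℝ) - 1)⁻¹) ^ 4 - 1)

lemma psi_mult : psi.IsMultiplicative := IsMultiplicative.prodPrimeFactors _

lemma psi_prime (p : ℕ) (hp : p.Prime) : psi p = ((p : ℝ) * ((p : ℝ) - 1)⁻¹) ^ 4 - 1 := by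
  unfold psi
  rw [prodPrimeFactors_apply hp.ne_zero, hp.primeFactors, Finset.prod_singleton]

lemma psi_prime_bound (p : ℕ) (hp : p.Prime) : 0 ≤ psi p ∧ psi p ≤ 30 * (p : ℝ)⁻¹ := by
  have h2 : (2 : ℝ) ≤ p := by exact_mod_cast hp.two_le
  rw [psi_prime p hp]
  set x := ((p : ℝ) - 1)⁻¹ with hx
  have hx0 : 0 < x := by rw [hx]; apply inv_pos.2; linarith
  have hx1 : x ≤ 1 := by rw [hx]; exact inv_le_one_of_one_le₀ (by linarith)
  have hpx : (p : ℝ) * x = 1 + x := by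
    rw [hx]
    have : (p : ℝ) - 1 ≠ 0 := by linarith
    field_simp
    ring
  rw [hpx]
  have hxp : x ≤ 2 * (p : ℝ)⁻¹ := by
    rw [hx, ← div_eq_mul_inv, inv_le_comm₀ (by linarith) (by positivity), inv_div]
    linarith
  constructor
  · have : (1 : ℝ) ≤ (1 + x) ^ 4 := one_le_pow₀ (by linarith)
    linarith
  · have h3 : (1 + x) ^ 4 - 1 ≤ 15 * x := by
      have e2 : x ^ 2 ≤ x := by nlinarith
      have e3 : x ^ 3 ≤ x := by nlinarith [sq_nonneg x]
      have e4 : x ^ 4 ≤ x := by nlinarith [sq_nonneg x, sq_nonneg (x ^ 2)]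
      nlinarith
    linarith

lemma psi_nonneg_of_sq (e : ℕ) (he : Squarefree e) : 0 ≤ psi e := by
  rw [← psi_mult.prod_primeFactors he]
  apply Finset.prod_nonneg
  intro p hp
  exact (psi_prime_bound p (Nat.prime_of_mem_primeFactors hp)).1

lemma rphi_pow (v : ℕ) (hv : 0 < v) : (rphi v) ^ 4 = ∑ e ∈ (rk 1 v).divisors, psi e := by
  have hr := rk_props 1 v one_ne_zero
  have hpf : (rk 1 v).primeFactors = v.primeFactors := by rw [hr.2.2.2]; simp
  rw [← psi_mult.prodPrimeFactors_one_add_of_squarefree hr.2.1, hpf, rphi_apply,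
    ← div_eq_mul_inv, ← inv_ratio v hv, ← Finset.prod_pow]
  apply Finset.prod_congr rfl
  intro p hp
  have hpp := Nat.prime_of_mem_primeFactors hp
  rw [psi_prime p hpp]
  have h1 : (1 : ℝ) < p := by exact_mod_cast hpp.one_lt
  have h2 : (p : ℝ) - 1 ≠ 0 := by linarith
  have h3 : (1 - (p : ℝ)⁻¹)⁻¹ = (p : ℝ) * ((p : ℝ) - 1)⁻¹ := by
    have : (p : ℝ) ≠ 0 := by linarith
    field_simp
  rw [h3]
  ring

/-- the constant -/
noncomputable def KK : ℝ := Real.exp (60 * ∑' n : ℕ, (n : ℝ) ^ (-(3 / 2) : ℝ))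

lemma KK_pos : 0 < KK := Real.exp_pos _

lemma sum_mult_le (u : ArithmeticFunction ℝ) (hu : u.IsMultiplicative)
    (h : ∀ p : ℕ, p.Prime → 0 ≤ u p ∧ u p ≤ 60 * (p : ℝ) ^ (-(3 / 2) : ℝ)) (M : ℕ) :
    ∑ e ∈ (Finset.Icc 1 M).filter Squarefree, u e ≤ KK := by
  have hnn : ∀ e : ℕ, Squarefree e → 0 ≤ u e := by
    intro e he
    rw [← hu.prod_primeFactors he]
    apply Finset.prod_nonneg
    intro p hp
    exact (h p (Nat.prime_of_mem_primeFactors hp)).1
  have h1 : ∑ e ∈ (Finset.Icc 1 M).filter Squarefree, u e ≤ ∑ e ∈ (PP 1 M).divisors, u e := by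
    apply Finset.sum_le_sum_of_subset_of_nonneg
    · intro e he
      rw [Finset.mem_filter, Finset.mem_Icc] at he
      rw [Nat.mem_divisors]
      exact ⟨dvd_PP 1 M e he.2 he.1.2 (Nat.coprime_one_right e), (PP_squarefree 1 M).ne_zero⟩
    · intro e he _
      exact hnn e (Squarefree.squarefree_of_dvd (Nat.dvd_of_mem_divisors he) (PP_squarefree 1 M))
  refine h1.trans ?_
  rw [← hu.prodPrimeFactors_one_add_of_squarefree (PP_squarefree 1 M)]
  have h2 : ∏ p ∈ (PP 1 M).primeFactors, (1 + u p) ≤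
      ∏ p ∈ (PP 1 M).primeFactors, Real.exp (60 * (p : ℝ) ^ (-(3 / 2) : ℝ)) := by
    apply Finset.prod_le_prod
    · intro p hp
      have := (h p (Nat.prime_of_mem_primeFactors hp)).1
      linarith
    · intro p hp
      have := (h p (Nat.prime_of_mem_primeFactors hp)).2
      have h3 := Real.add_one_le_exp (60 * (p : ℝ) ^ (-(3 / 2) : ℝ))
      linarith
  refine h2.trans ?_
  rw [← Real.exp_sum, ← Finset.mul_sum]
  unfold KK
  apply Real.exp_le_exp.2
  have hs : Summable (fun n : ℕ => (n : ℝ) ^ (-(3 / 2) : ℝ)) := by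
    rw [Real.summable_nat_rpow]
    norm_num
  have h4 := hs.sum_le_tsum (PP 1 M).primeFactors (fun n _ => by positivity)
  linarith

/-- `e^(-1/2)` as an arithmetic function -/
noncomputable def sinv : ArithmeticFunction ℝ := ⟨fun n => (Real.sqrt n)⁻¹, by simp⟩

lemma sinv_apply (n : ℕ) : sinv n = (Real.sqrt n)⁻¹ := rfl

lemma sinv_mult : sinv.IsMultiplicative := by
  rw [ArithmeticFunction.IsMultiplicative.iff_ne_zero]
  refine ⟨by simp [sinv_apply], ?_⟩
  intro m n _ _ _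
  rw [sinv_apply, sinv_apply, sinv_apply]
  push_cast
  rw [Real.sqrt_mul (by positivity), mul_inv]

lemma sum_psi_iphi (M : ℕ) : ∑ e ∈ (Finset.Icc 1 M).filter Squarefree, psi e * iphi e ≤ KK := by
  have := sum_mult_le (psi.pmul iphi) (psi_mult.pmul iphi_mult) (by
    intro p hp
    rw [pmul_apply, iphi_prime p hp]
    have h1 := psi_prime_bound p hp
    have h2 : (2 : ℝ) ≤ p := by exact_mod_cast hp.two_le
    have h3 : ((p : ℝ) - 1)⁻¹ ≤ 2 * (p : ℝ)⁻¹ := by
      rw [← div_eq_mul_inv, inv_le_comm₀ (by linarith) (by positivity), inv_div]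
      linarith
    have h4 : 0 ≤ ((p : ℝ) - 1)⁻¹ := inv_nonneg.2 (by linarith)
    refine ⟨mul_nonneg h1.1 h4, ?_⟩
    calc psi p * ((p : ℝ) - 1)⁻¹ ≤ (30 * (p : ℝ)⁻¹) * (2 * (p : ℝ)⁻¹) := by
          apply mul_le_mul h1.2 h3 h4 (by positivity)
      _ = 60 * ((p : ℝ) ^ (-2 : ℝ)) := by
          rw [Real.rpow_neg (by positivity), Real.rpow_two]
          field_simp
          norm_num
      _ ≤ 60 * (p : ℝ) ^ (-(3 / 2) : ℝ) := by
          have : (p : ℝ) ^ (-2 : ℝ) ≤ (p : ℝ) ^ (-(3 / 2) : ℝ) :=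
            Real.rpow_le_rpow_of_exponent_le (by linarith) (by norm_num)
          linarith) M
  simpa only [pmul_apply] using this

lemma sum_psi_sinv (M : ℕ) : ∑ e ∈ (Finset.Icc 1 M).filter Squarefree, psi e * sinv e ≤ KK := by
  have := sum_mult_le (psi.pmul sinv) (psi_mult.pmul sinv_mult) (by
    intro p hp
    rw [pmul_apply, sinv_apply]
    have h1 := psi_prime_bound p hp
    have h2 : (2 : ℝ) ≤ p := by exact_mod_cast hp.two_le
    have hp0 : (0 : ℝ) < p := by linarith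
    have h4 : 0 ≤ (Real.sqrt p)⁻¹ := by positivity
    refine ⟨mul_nonneg h1.1 h4, ?_⟩
    calc psi p * (Real.sqrt p)⁻¹ ≤ (30 * (p : ℝ)⁻¹) * (Real.sqrt p)⁻¹ := by
          apply mul_le_mul_of_nonneg_right h1.2 h4
      _ = 30 * (p : ℝ) ^ (-(3 / 2) : ℝ) := by
          have e1 : (Real.sqrt p)⁻¹ = (p : ℝ) ^ (-(1 / 2) : ℝ) := by
            rw [Real.sqrt_eq_rpow, Real.rpow_neg hp0.le]
          have e2 : (p : ℝ)⁻¹ = (p : ℝ) ^ (-1 : ℝ) := by
            rw [Real.rpow_neg_one]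
          rw [e1, e2, mul_assoc, ← Real.rpow_add hp0]
          norm_num
      _ ≤ 60 * (p : ℝ) ^ (-(3 / 2) : ℝ) := by
          have : 0 ≤ (p : ℝ) ^ (-(3 / 2) : ℝ) := by positivity
          linarith) M
  simpa only [pmul_apply] using this

/-- the average of `(v/φ(v))^4` over shifted primes -/
theorem avg : ∃ Y₀ : ℕ, 2 ≤ Y₀ ∧ ∀ Y : ℕ, Y₀ ≤ Y → ∀ t : ℤ, |t| ≤ 2 * Y →
    ∑ p ∈ (Finset.Icc 1 Y).filter (fun p : ℕ => p.Prime ∧ (p : ℤ) ≠ t),
      (rphi ((p : ℤ) - t).natAbs) ^ 4 ≤ 14 * KK * (Y : ℝ) / Real.log Y := by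
  classical
  obtain ⟨N₁, hN₁, hbt⟩ := bt
  obtain ⟨N₂, hN₂, hlog⟩ := log_le_rpow
  refine ⟨max N₁ N₂, hN₁.trans (le_max_left _ _), ?_⟩
  intro Y hY t ht
  have hY1 : N₁ ≤ Y := (le_max_left _ _).trans hY
  have hY2 : N₂ ≤ Y := (le_max_right _ _).trans hY
  have hYge2 : 2 ≤ Y := hN₁.trans hY1
  have hYR : (2 : ℝ) ≤ Y := by exact_mod_cast hYge2
  have hlogpos : 0 < Real.log Y := Real.log_pos (by linarith)
  set Pr := (Finset.Icc 1 Y).filter (fun p : ℕ => p.Prime ∧ (p : ℤ) ≠ t) with hPr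
  set E := (Finset.Icc 1 (3 * Y)).filter Squarefree with hE
  -- expand
  have h1 : ∀ p ∈ Pr, (rphi ((p : ℤ) - t).natAbs) ^ 4 ≤
      ∑ e ∈ E, if e ∣ ((p : ℤ) - t).natAbs then psi e else 0 := by
    intro p hp
    rw [hPr, Finset.mem_filter, Finset.mem_Icc] at hp
    set v := ((p : ℤ) - t).natAbs with hv
    have hv0 : 0 < v := by
      rw [hv, Int.natAbs_pos]
      intro h
      exact hp.2.2 (by linarith)
    have hv3 : v ≤ 3 * Y := by
      have h2 : (v : ℤ) ≤ 3 * Y := by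
        rw [hv, Int.natCast_natAbs, abs_le]
        rw [abs_le] at ht
        have h3 : (p : ℤ) ≤ Y := by exact_mod_cast hp.1.2
        have h4 : (0 : ℤ) ≤ p := by positivity
        constructor <;> linarith
      exact_mod_cast h2
    rw [rphi_pow v hv0, ← Finset.sum_filter]
    have hr := rk_props 1 v one_ne_zero
    apply Finset.sum_le_sum_of_subset_of_nonneg
    · intro e he
      have hed := Nat.dvd_of_mem_divisors he
      rw [Finset.mem_filter, hE, Finset.mem_filter, Finset.mem_Icc]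
      have hev : e ∣ v := hed.trans hr.1
      exact ⟨⟨⟨Nat.pos_of_mem_divisors he, (Nat.le_of_dvd hv0 hev).trans hv3⟩,
        Squarefree.squarefree_of_dvd hed hr.2.1⟩, hev⟩
    · intro e he _
      rw [Finset.mem_filter, hE, Finset.mem_filter] at he
      exact psi_nonneg_of_sq e he.1.2
  refine (Finset.sum_le_sum h1).trans ?_
  rw [Finset.sum_comm]
  -- counts
  have h2 : ∀ e ∈ E, (∑ p ∈ Pr, if e ∣ ((p : ℤ) - t).natAbs then psi e else 0) ≤
      (10 * (Y : ℝ) / Real.log Y) * (psi e * iphi e) +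
        (4 * (Y : ℝ) ^ (3 / 4 : ℝ)) * (psi e * sinv e) := by
    intro e he
    rw [hE, Finset.mem_filter, Finset.mem_Icc] at he
    have hpsi := psi_nonneg_of_sq e he.2
    have he0 : 0 < e := he.1.1
    have heR : (0 : ℝ) < e := by exact_mod_cast he0
    rw [← Finset.sum_filter, Finset.sum_const, nsmul_eq_mul]
    set a := (t % (e : ℤ)).toNat with ha
    have ha' : ((a : ℕ) : ℤ) = t % (e : ℤ) := by
      rw [ha, Int.toNat_of_nonneg (Int.emod_nonneg _ (by positivity))]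
    have hsub : Pr.filter (fun p : ℕ => e ∣ ((p : ℤ) - t).natAbs) ⊆
        (Finset.Icc 1 Y).filter (fun p => p.Prime ∧ p ≡ a [MOD e]) := by
      intro p hp
      rw [Finset.mem_filter, hPr, Finset.mem_filter] at hp
      rw [Finset.mem_filter]
      refine ⟨hp.1.1, hp.1.2.1, ?_⟩
      rw [← Int.natCast_modEq_iff, ha']
      have h3 : (e : ℤ) ∣ (p : ℤ) - t := by
        rw [← Int.natAbs_dvd_natAbs, Int.natAbs_natCast]
        exact hp.2
      have h4 : t ≡ p [ZMOD e] := Int.modEq_iff_dvd.2 h3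
      exact (h4.symm).trans (Int.mod_modEq t e).symm
    have hc1 : ((Pr.filter (fun p : ℕ => e ∣ ((p : ℤ) - t).natAbs)).card : ℝ) ≤
        (((Finset.Icc 1 Y).filter (fun p => p.Prime ∧ p ≡ a [MOD e])).card : ℝ) := by
      exact_mod_cast Finset.card_le_card hsub
    have hsi : 0 ≤ sinv e := by rw [sinv_apply]; positivity
    have hii : 0 ≤ iphi e := by rw [iphi_apply]; positivity
    have hcount : ((Pr.filter (fun p : ℕ => e ∣ ((p : ℤ) - t).natAbs)).card : ℝ) ≤
        (10 * (Y : ℝ) / Real.log Y) * iphi e + (4 * (Y : ℝ) ^ (3 / 4 : ℝ)) * sinv e := by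
      by_cases hee : e * e ≤ Y
      · have h3 := hbt Y hY1 e a he0 hee
        have h4 : 10 * (Y : ℝ) / (e.totient * Real.log Y) = (10 * (Y : ℝ) / Real.log Y) * iphi e := by
          rw [iphi_apply]
          field_simp
        have h5 : 0 ≤ (4 * (Y : ℝ) ^ (3 / 4 : ℝ)) * sinv e := by positivity
        linarith
      · have h3 : (((Finset.Icc 1 Y).filter (fun p => p.Prime ∧ p ≡ a [MOD e])).card : ℝ) ≤
            (((Finset.Icc 1 Y).filter (fun p => p ≡ a [MOD e])).card : ℝ) := by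
          have : (Finset.Icc 1 Y).filter (fun p => p.Prime ∧ p ≡ a [MOD e]) ⊆
              (Finset.Icc 1 Y).filter (fun p => p ≡ a [MOD e]) := by
            intro p hp
            rw [Finset.mem_filter] at hp ⊢
            exact ⟨hp.1, hp.2.2⟩
          exact_mod_cast Finset.card_le_card this
        have h4 := (abs_le.1 (count_ap Y e a he0)).2
        have h5 : (1 : ℝ) ≤ 3 * ((Y : ℝ) / e) := by
          rw [← mul_div_assoc, le_div_iff₀ heR]
          have : (e : ℝ) ≤ ((3 * Y : ℕ) : ℝ) := by exact_mod_cast he.1.2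
          push_cast at this
          linarith
        have h6 : (Y : ℝ) / e ≤ (Y : ℝ) ^ (3 / 4 : ℝ) * sinv e := by
          rw [sinv_apply]
          have hYe : (Y : ℝ) ≤ (e : ℝ) ^ 2 := by
            have : Y ≤ e * e := by omega
            have : (Y : ℝ) ≤ ((e * e : ℕ) : ℝ) := by exact_mod_cast this
            push_cast at this
            nlinarith
          have h7 : (Y : ℝ) ^ (1 / 4 : ℝ) ≤ Real.sqrt e := by
            have h8 : (Y : ℝ) ^ (1 / 4 : ℝ) ≤ ((e : ℝ) ^ 2) ^ (1 / 4 : ℝ) := by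
              apply Real.rpow_le_rpow (by positivity) hYe (by norm_num)
            have h9 : ((e : ℝ) ^ 2) ^ (1 / 4 : ℝ) = Real.sqrt e := by
              rw [Real.sqrt_eq_rpow, ← Real.rpow_natCast, ← Real.rpow_mul heR.le]
              norm_num
            rw [h9] at h8
            exact h8
          have hs : 0 < Real.sqrt e := Real.sqrt_pos.2 heR
          have hse : (e : ℝ) = Real.sqrt e * Real.sqrt e := (Real.mul_self_sqrt heR.le).symm
          have hYsplit : (Y : ℝ) = (Y : ℝ) ^ (3 / 4 : ℝ) * (Y : ℝ) ^ (1 / 4 : ℝ) := by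
            rw [← Real.rpow_add (by linarith)]
            norm_num
          rw [div_le_iff₀ heR]
          calc (Y : ℝ) = (Y : ℝ) ^ (3 / 4 : ℝ) * (Y : ℝ) ^ (1 / 4 : ℝ) := hYsplit
            _ ≤ (Y : ℝ) ^ (3 / 4 : ℝ) * Real.sqrt e := by gcongr
            _ = (Y : ℝ) ^ (3 / 4 : ℝ) * (Real.sqrt e)⁻¹ * (Real.sqrt e * Real.sqrt e) := by
                field_simp
            _ = (Y : ℝ) ^ (3 / 4 : ℝ) * (Real.sqrt e)⁻¹ * e := by rw [← hse]
        have h7 : 0 ≤ (10 * (Y : ℝ) / Real.log Y) * iphi e := by positivity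
        have h8 : (4 * (Y : ℝ) ^ (3 / 4 : ℝ)) * sinv e = 4 * ((Y : ℝ) ^ (3 / 4 : ℝ) * sinv e) := by ring
        rw [h8]
        linarith
    calc ((Pr.filter (fun p : ℕ => e ∣ ((p : ℤ) - t).natAbs)).card : ℝ) * psi e
        ≤ ((10 * (Y : ℝ) / Real.log Y) * iphi e + (4 * (Y : ℝ) ^ (3 / 4 : ℝ)) * sinv e) * psi e := by
          gcongr
      _ = _ := by ring
  refine (Finset.sum_le_sum h2).trans ?_
  rw [Finset.sum_add_distrib, ← Finset.mul_sum, ← Finset.mul_sum]
  have h3 := sum_psi_iphi (3 * Y)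
  have h4 := sum_psi_sinv (3 * Y)
  have h5 : (Y : ℝ) ^ (3 / 4 : ℝ) ≤ (Y : ℝ) / Real.log Y := by
    rw [le_div_iff₀ hlogpos]
    have hL := hlog Y hY2
    calc (Y : ℝ) ^ (3 / 4 : ℝ) * Real.log Y ≤ (Y : ℝ) ^ (3 / 4 : ℝ) * (Y : ℝ) ^ (1 / 8 : ℝ) := by gcongr
      _ = (Y : ℝ) ^ (7 / 8 : ℝ) := by
          rw [← Real.rpow_add (by linarith)]
          norm_num
      _ ≤ (Y : ℝ) ^ (1 : ℝ) := Real.rpow_le_rpow_of_exponent_le (by linarith) (by norm_num)
      _ = Y := Real.rpow_one _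
  have hK := KK_pos
  have h6 : (10 * (Y : ℝ) / Real.log Y) * ∑ e ∈ E, psi e * iphi e ≤
      (10 * (Y : ℝ) / Real.log Y) * KK := by gcongr
  have h7 : (4 * (Y : ℝ) ^ (3 / 4 : ℝ)) * ∑ e ∈ E, psi e * sinv e ≤
      (4 * ((Y : ℝ) / Real.log Y)) * KK := by
    have hnn : 0 ≤ ∑ e ∈ E, psi e * sinv e := by
      apply Finset.sum_nonneg
      intro e he
      rw [hE, Finset.mem_filter] at he
      refine mul_nonneg (psi_nonneg_of_sq e he.2) ?_
      rw [sinv_apply]; positivity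
    gcongr
  have h8 : 14 * KK * (Y : ℝ) / Real.log Y = (10 * (Y : ℝ) / Real.log Y) * KK +
      (4 * ((Y : ℝ) / Real.log Y)) * KK := by ring
  rw [h8]
  linarith

end Pool.Agent.Lib.MP_d9bc60_nt.Sieve
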