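import Mathlib

set_option autoImplicit false

namespace Pool.Agent.Lib.MP_d9bc60_nt

/-- the quadratic -/
def f (b c x : ℤ) : ℤ := x ^ 2 + b * x + c

end Pool.Agent.Lib.MP_d9bc60_nt
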