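import Mathlib
import Pool.Agent.Lib.MP_d9bc60_nt.Average
import Pool.Agent.Lib.MP_d9bc60_nt.FPoly

set_option autoImplicit false

open Finset ArithmeticFunction Filter

namespace Pool.Agent.Lib.MP_d9bc60_nt.Sieve

lemma rphi_nonneg (n : ℕ) : 0 ≤ rphi n := by rw [rphi_apply]; positivity

lemma rphi_mul_le (u v : ℕ) (hu : 0 < u) (hv : 0 < v) : rphi (u * v) ≤ rphi u * rphi v := by
  rw [rphi_apply, rphi_apply, rphi_apply]
  have h1 : (0 : ℝ) < u.totient := by exact_mod_cast Nat.totient_pos.2 hu
  have h2 : (0 : ℝ) < v.totient := by exact_mod_cast Nat.totient_pos.2 hv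
  have h4 : (u.totient : ℝ) * v.totient ≤ (u * v).totient := by
    exact_mod_cast Nat.totient_super_multiplicative u v
  have h5 : ((u * v).totient : ℝ)⁻¹ ≤ ((u.totient : ℝ) * v.totient)⁻¹ :=
    inv_anti₀ (by positivity) h4
  push_cast
  calc (u : ℝ) * v * ((u * v).totient : ℝ)⁻¹ ≤ (u : ℝ) * v * ((u.totient : ℝ) * v.totient)⁻¹ := by
        gcongr
    _ = (u : ℝ) * (u.totient : ℝ)⁻¹ * ((v : ℝ) * (v.totient : ℝ)⁻¹) := by
        rw [mul_inv]; ring

lemma rphi_sq_le (u v : ℕ) (hu : 0 < u) (hv : 0 < v) :
    (rphi (u * v)) ^ 2 ≤ (1 / 2) * ((rphi u) ^ 4 + (rphi v) ^ 4) := by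
  have h1 := rphi_mul_le u v hu hv
  have h0 := rphi_nonneg (u * v)
  have hu0 := rphi_nonneg u
  have hv0 := rphi_nonneg v
  have h2 : (rphi (u * v)) ^ 2 ≤ (rphi u * rphi v) ^ 2 := by gcongr
  nlinarith [sq_nonneg ((rphi u) ^ 2 - (rphi v) ^ 2)]

/-- the primes `p₁` -/
def PS (Y : ℕ) : Finset ℕ := (Finset.Icc 1 Y).filter (fun p => p.Prime ∧ Nat.sqrt Y < p)

/-- the primes `p₂` -/
def QS (N : ℕ) : Finset ℕ := (Finset.Icc 1 N).filter (fun p => p.Prime ∧ 2 < p)

/-- the values -/
def g (b c : ℤ) (x : ℕ × ℕ) : ℤ := f b c x.1 + x.2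

lemma pair_card (N : ℕ) (D : ℤ) (hD : D ≠ 0) :
    (((QS N) ×ˢ (QS N)).filter (fun x => (x.2 : ℤ) - x.1 = D)).card ≤
      ((Finset.Icc 1 N).filter (fun p => p.Prime ∧ (p + D.natAbs).Prime)).card := by
  rcases lt_or_gt_of_ne hD with hneg | hpos
  · apply Finset.card_le_card_of_injOn (fun x => x.2)
    · intro x hx
      rw [Finset.mem_coe, Finset.mem_filter, Finset.mem_product, QS, Finset.mem_filter,
        Finset.mem_filter] at hx
      rw [Finset.mem_coe, Finset.mem_filter]
      refine ⟨hx.1.2.1, hx.1.2.2.1, ?_⟩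
      have : x.2 + D.natAbs = x.1 := by omega
      rw [this]
      exact hx.1.1.2.1
    · intro x hx y hy hxy
      rw [Finset.mem_coe, Finset.mem_filter] at hx hy
      have h1 : x.2 = y.2 := hxy
      have h2 : x.1 = y.1 := by
        have := hx.2
        have := hy.2
        omega
      exact Prod.ext h2 h1
  · apply Finset.card_le_card_of_injOn (fun x => x.1)
    · intro x hx
      rw [Finset.mem_coe, Finset.mem_filter, Finset.mem_product, QS, Finset.mem_filter,
        Finset.mem_filter] at hx
      rw [Finset.mem_coe, Finset.mem_filter]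
      refine ⟨hx.1.1.1, hx.1.1.2.1, ?_⟩
      have : x.1 + D.natAbs = x.2 := by omega
      rw [this]
      exact hx.1.2.2.1
    · intro x hx y hy hxy
      rw [Finset.mem_coe, Finset.mem_filter] at hx hy
      have h1 : x.1 = y.1 := hxy
      have h2 : x.2 = y.2 := by
        have := hx.2
        have := hy.2
        omega
      exact Prod.ext h1 h2

/-- second moment bound and Cauchy–Schwarz -/
theorem second_moment : ∃ M₀ : ℕ, 2 ≤ M₀ ∧ ∀ Y N : ℕ, M₀ ≤ Y → M₀ ≤ N → ∀ b c : ℤ,
    b.natAbs ≤ Nat.sqrt Y →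
    (((PS Y).card : ℝ) * (QS N).card) ^ 2 ≤ ((((PS Y) ×ˢ (QS N)).image (g b c)).card : ℝ) *
      ((PS Y).card * (QS N).card +
        (PS Y).card * (1026 * (N : ℝ) / (Real.log N) ^ 2 * (14 * KK * (Y : ℝ) / Real.log Y))) := by
  classical
  obtain ⟨N₁, hN₁, hpp⟩ := pp
  obtain ⟨N₂, hN₂, havg⟩ := avg
  refine ⟨max N₁ N₂, hN₁.trans (le_max_left _ _), ?_⟩
  intro Y N hY hN b c hb
  have hN1 : N₁ ≤ N := (le_max_left _ _).trans hN
  have hY2 : N₂ ≤ Y := (le_max_right _ _).trans hY
  have hYge2 : 2 ≤ Y := hN₂.trans hY2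
  set T := (PS Y) ×ˢ (QS N) with hT
  set S := T.image (g b c) with hS
  -- first moment
  have h1 : (T.card : ℝ) = ∑ n ∈ S, ((T.filter (fun x => g b c x = n)).card : ℝ) := by
    have := Finset.card_eq_sum_card_image (g b c) T
    exact_mod_cast this
  have h2 : ((T.card : ℝ)) ^ 2 ≤ (S.card : ℝ) *
      ∑ n ∈ S, ((T.filter (fun x => g b c x = n)).card : ℝ) ^ 2 := by
    rw [h1]
    exact sq_sum_le_card_mul_sum_sq
  have hTcard : (T.card : ℝ) = ((PS Y).card : ℝ) * (QS N).card := by
    rw [hT, Finset.card_product]; push_cast; rfl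
  rw [hTcard] at h2
  refine h2.trans ?_
  apply mul_le_mul_of_nonneg_left _ (by positivity)
  -- second moment as a sum over T
  have h3 : ∑ n ∈ S, ((T.filter (fun x => g b c x = n)).card : ℝ) ^ 2 =
      ∑ x ∈ T, ((T.filter (fun y => g b c y = g b c x)).card : ℝ) := by
    rw [← Finset.sum_fiberwise_of_maps_to (s := T) (t := S) (g := g b c)
      (fun x hx => Finset.mem_image_of_mem _ hx)]
    apply Finset.sum_congr rfl
    intro n _
    rw [Finset.sum_congr rfl (g := fun _ => ((T.filter (fun x => g b c x = n)).card : ℝ)) (by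
      intro x hx
      rw [Finset.mem_filter] at hx
      rw [hx.2]), Finset.sum_const, nsmul_eq_mul, sq]
  rw [h3]
  -- split
  have h4 : ∀ x ∈ T, ((T.filter (fun y => g b c y = g b c x)).card : ℝ) =
      ∑ p' ∈ PS Y, (((QS N).filter (fun q' : ℕ => f b c p' + (q' : ℤ) = g b c x)).card : ℝ) := by
    intro x _
    have : (T.filter (fun y => g b c y = g b c x)).card =
        ∑ p' ∈ PS Y, ((QS N).filter (fun q' : ℕ => f b c p' + (q' : ℤ) = g b c x)).card := by
      rw [Finset.card_filter, hT, Finset.sum_product]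
      apply Finset.sum_congr rfl
      intro p' _
      rw [Finset.card_filter]
      rfl
    exact_mod_cast this
  rw [Finset.sum_congr rfl h4, hT, Finset.sum_product]
  have h5 : ∀ p ∈ PS Y, ∑ q ∈ QS N, ∑ p' ∈ PS Y,
      (((QS N).filter (fun q' : ℕ => f b c p' + (q' : ℤ) = g b c (p, q))).card : ℝ) ≤
      (QS N).card + (1026 * (N : ℝ) / (Real.log N) ^ 2 * (14 * KK * (Y : ℝ) / Real.log Y)) := by
    intro p hp
    have hp' := hp
    rw [PS, Finset.mem_filter, Finset.mem_Icc] at hp'
    rw [Finset.sum_comm]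
    -- counts for fixed p, p'
    have h6 : ∀ p' ∈ PS Y, ∑ q ∈ QS N,
        (((QS N).filter (fun q' : ℕ => f b c p' + (q' : ℤ) = g b c (p, q))).card : ℝ) ≤
        (if p' = p then ((QS N).card : ℝ) else 0) +
          (if p' = p then 0 else (1026 * (N : ℝ) / (Real.log N) ^ 2) *
            ((1 / 2) * ((rphi ((p' : ℤ) - p).natAbs) ^ 4 +
              (rphi ((p' : ℤ) - (-(p + b))).natAbs) ^ 4))) := by
      intro p' hp1
      have hp1' := hp1
      rw [PS, Finset.mem_filter, Finset.mem_Icc] at hp1'
      by_cases hpp' : p' = p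
      · rw [if_pos hpp', if_pos hpp', add_zero]
        subst hpp'
        have : ∀ q ∈ QS N, (((QS N).filter (fun q' : ℕ => f b c p' + (q' : ℤ) = g b c (p', q))).card : ℝ)
            ≤ 1 := by
          intro q _
          have h7 : ((QS N).filter (fun q' : ℕ => f b c p' + (q' : ℤ) = g b c (p', q))).card ≤ 1 := by
            rw [Finset.card_le_one]
            intro a ha a' ha'
            rw [Finset.mem_filter] at ha ha'
            have e1 := ha.2
            have e2 := ha'.2
            have : (a : ℤ) = a' := by linarith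
            exact_mod_cast this
          exact_mod_cast h7
        refine (Finset.sum_le_sum this).trans ?_
        simp
      · rw [if_neg hpp', if_neg hpp', zero_add]
        set D : ℤ := f b c p - f b c p' with hD
        have hfac : D = ((p' : ℤ) - p) * (-((p' : ℤ) - (-(p + b)))) := by
          rw [hD]; unfold f; ring
        have hu : ((p' : ℤ) - p) ≠ 0 := by
          intro h
          apply hpp'
          have : (p' : ℤ) = p := by linarith
          exact_mod_cast this
        have hv : ((p' : ℤ) - (-(p + b))) ≠ 0 := by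
          have e1 : (b.natAbs : ℤ) ≤ Nat.sqrt Y := by exact_mod_cast hb
          have e2 : ((Nat.sqrt Y : ℕ) : ℤ) < p := by exact_mod_cast hp'.2.2
          have e3 : (0 : ℤ) ≤ p' := by positivity
          have e4 : -(b.natAbs : ℤ) ≤ b := by omega
          intro h
          linarith
        have hD0 : D ≠ 0 := by
          rw [hfac]
          exact mul_ne_zero hu (neg_ne_zero.2 hv)
        have hDabs : D.natAbs = ((p' : ℤ) - p).natAbs * ((p' : ℤ) - (-(p + b))).natAbs := by
          rw [hfac, Int.natAbs_mul, Int.natAbs_neg]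
        have h8 : ∑ q ∈ QS N,
            (((QS N).filter (fun q' : ℕ => f b c p' + (q' : ℤ) = g b c (p, q))).card : ℝ) =
            ((((QS N) ×ˢ (QS N)).filter (fun x => (x.2 : ℤ) - x.1 = D)).card : ℝ) := by
          have : ∑ q ∈ QS N,
            ((QS N).filter (fun q' : ℕ => f b c p' + (q' : ℤ) = g b c (p, q))).card =
            (((QS N) ×ˢ (QS N)).filter (fun x => (x.2 : ℤ) - x.1 = D)).card := by
            rw [Finset.card_filter, Finset.sum_product]
            apply Finset.sum_congr rfl
            intro q _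
            rw [Finset.card_filter]
            apply Finset.sum_congr rfl
            intro q' _
            have : (f b c p' + (q' : ℤ) = g b c (p, q)) ↔ ((q' : ℤ) - q = D) := by
              rw [hD]; unfold g
              constructor
              · intro h; simp only at h; linarith
              · intro h; simp only; linarith
            simp only [this]
          exact_mod_cast this
        rw [h8]
        have h9 : ((((QS N) ×ˢ (QS N)).filter (fun x => (x.2 : ℤ) - x.1 = D)).card : ℝ) ≤
            (((Finset.Icc 1 N).filter (fun p => p.Prime ∧ (p + D.natAbs).Prime)).card : ℝ) := by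
          exact_mod_cast pair_card N D hD0
        refine h9.trans ?_
        refine (hpp N hN1 D.natAbs (Int.natAbs_pos.2 hD0)).trans ?_
        rw [hDabs]
        apply mul_le_mul_of_nonneg_left _ (by positivity)
        exact rphi_sq_le _ _ (Int.natAbs_pos.2 hu) (Int.natAbs_pos.2 hv)
    refine (Finset.sum_le_sum h6).trans ?_
    rw [Finset.sum_add_distrib]
    have h10 : ∑ p' ∈ PS Y, (if p' = p then ((QS N).card : ℝ) else 0) ≤ (QS N).card := by
      rw [Finset.sum_ite_eq']
      rw [if_pos hp]
    have h11 : ∑ p' ∈ PS Y, (if p' = p then 0 else (1026 * (N : ℝ) / (Real.log N) ^ 2) *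
            ((1 / 2) * ((rphi ((p' : ℤ) - p).natAbs) ^ 4 +
              (rphi ((p' : ℤ) - (-(p + b))).natAbs) ^ 4))) ≤
        (1026 * (N : ℝ) / (Real.log N) ^ 2 * (14 * KK * (Y : ℝ) / Real.log Y)) := by
      have hA : ∑ p' ∈ (PS Y).filter (fun p' => ¬ p' = p), (rphi ((p' : ℤ) - p).natAbs) ^ 4 ≤
          14 * KK * (Y : ℝ) / Real.log Y := by
        refine le_trans ?_ (havg Y hY2 (p : ℤ) ?_)
        · apply Finset.sum_le_sum_of_subset_of_nonneg
          · intro p' hp1
            rw [Finset.mem_filter, PS, Finset.mem_filter] at hp1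
            rw [Finset.mem_filter]
            refine ⟨hp1.1.1, hp1.1.2.1, ?_⟩
            exact_mod_cast hp1.2
          · intro _ _ _
            have := rphi_nonneg
            positivity
        · rw [abs_of_nonneg (by positivity)]
          have : (p : ℤ) ≤ Y := by exact_mod_cast hp'.1.2
          have : (0 : ℤ) ≤ Y := by positivity
          linarith
      have hB : ∑ p' ∈ (PS Y).filter (fun p' => ¬ p' = p),
          (rphi ((p' : ℤ) - (-(p + b))).natAbs) ^ 4 ≤ 14 * KK * (Y : ℝ) / Real.log Y := by
        have e1 : (b.natAbs : ℤ) ≤ Nat.sqrt Y := by exact_mod_cast hb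
        have e2 : ((Nat.sqrt Y : ℕ) : ℤ) < p := by exact_mod_cast hp'.2.2
        refine le_trans ?_ (havg Y hY2 (-((p : ℤ) + b)) ?_)
        · apply Finset.sum_le_sum_of_subset_of_nonneg
          · intro p' hp1
            rw [Finset.mem_filter, PS, Finset.mem_filter] at hp1
            rw [Finset.mem_filter]
            refine ⟨hp1.1.1, hp1.1.2.1, ?_⟩
            have e3 : (0 : ℤ) ≤ p' := by positivity
            have e4 : -(b.natAbs : ℤ) ≤ b := by omega
            intro h
            linarith
          · intro _ _ _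
            have := rphi_nonneg
            positivity
        · have h12 : (p : ℤ) ≤ Y := by exact_mod_cast hp'.1.2
          have h13 : b ≤ (b.natAbs : ℤ) := by omega
          have h14 : -(b.natAbs : ℤ) ≤ b := by omega
          have h15 : ((Nat.sqrt Y : ℕ) : ℤ) ≤ Y := by exact_mod_cast Nat.sqrt_le_self Y
          have h16 : (0 : ℤ) ≤ Y := by positivity
          rw [abs_neg, abs_le]
          constructor <;> linarith
      have h17 : ∑ p' ∈ PS Y, (if p' = p then 0 else (1026 * (N : ℝ) / (Real.log N) ^ 2) *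
            ((1 / 2) * ((rphi ((p' : ℤ) - p).natAbs) ^ 4 +
              (rphi ((p' : ℤ) - (-(p + b))).natAbs) ^ 4))) =
          (1026 * (N : ℝ) / (Real.log N) ^ 2) * ((1 / 2) *
            (∑ p' ∈ (PS Y).filter (fun p' => ¬ p' = p), (rphi ((p' : ℤ) - p).natAbs) ^ 4 +
              ∑ p' ∈ (PS Y).filter (fun p' => ¬ p' = p),
                (rphi ((p' : ℤ) - (-(p + b))).natAbs) ^ 4)) := by
        rw [← Finset.sum_add_distrib, Finset.mul_sum, Finset.mul_sum, Finset.sum_filter]
        apply Finset.sum_congr rfl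
        intro p' _
        by_cases hpp' : p' = p
        · rw [if_pos hpp', if_neg (by simpa using hpp')]
        · rw [if_neg hpp', if_pos hpp']
      rw [h17]
      apply mul_le_mul_of_nonneg_left _ (by positivity)
      linarith
    linarith
  refine (Finset.sum_le_sum h5).trans ?_
  rw [Finset.sum_const, nsmul_eq_mul]
  apply le_of_eq
  ring

end Pool.Agent.Lib.MP_d9bc60_nt.Sieve
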