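import Mathlib
import Pool.Agent.Lib.MP_d9bc60_nt.FPoly

set_option autoImplicit false

open Finset

namespace Pool.Agent.Lib.MP_d9bc60_nt

/-! ### Residue classes -/

/-- modulo an odd prime `q` the quadratic takes at most `q / 2 + 1` values -/
lemma card_values (b c : ℤ) (q : ℕ) [Fact q.Prime] (hq : q ≠ 2) :
    (Finset.univ.image (fun x : ZMod q => x ^ 2 + (b : ZMod q) * x + (c : ZMod q))).card ≤
      q / 2 + 1 := by
  have h2 : (2 : ZMod q) ≠ 0 := by
    intro h
    have : ((2 : ℕ) : ZMod q) = 0 := by exact_mod_cast h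
    rw [ZMod.natCast_eq_zero_iff] at this
    have := (Nat.prime_dvd_prime_iff_eq (Fact.out : q.Prime) Nat.prime_two).1 this
    exact hq this
  have hsub : (Finset.univ.image (fun x : ZMod q => x ^ 2 + (b : ZMod q) * x + (c : ZMod q))) ⊆
      (Finset.range (q / 2 + 1)).image
        (fun k : ℕ => ((k : ZMod q)) ^ 2 + ((c : ZMod q) - ((b : ZMod q) / 2) ^ 2)) := by
    intro v hv
    rw [Finset.mem_image] at hv ⊢
    obtain ⟨x, -, rfl⟩ := hv
    set t : ZMod q := x + (b : ZMod q) / 2 with ht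
    refine ⟨t.valMinAbs.natAbs, ?_, ?_⟩
    · rw [Finset.mem_range]
      exact Nat.lt_succ_of_le (ZMod.natAbs_valMinAbs_le t)
    · have h3 : ((t.valMinAbs.natAbs : ℕ) : ZMod q) ^ 2 = t ^ 2 := by
        have h4 : ((t.valMinAbs : ℤ) : ZMod q) = t := ZMod.coe_valMinAbs t
        have h5 : (((t.valMinAbs.natAbs : ℕ) : ℤ)) ^ 2 = (t.valMinAbs) ^ 2 := by
          simp
        have h7 : ((((((t.valMinAbs.natAbs : ℕ) : ℤ)) ^ 2 : ℤ)) : ZMod q) =
            (((t.valMinAbs) ^ 2 : ℤ) : ZMod q) := by rw [h5]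
        rw [Int.cast_pow, Int.cast_natCast, Int.cast_pow, h4] at h7
        exact h7
      rw [h3, ht]
      field_simp
      ring
  refine (Finset.card_le_card hsub).trans ?_
  refine Finset.card_image_le.trans ?_
  simp

/-- one greedy step -/
lemma greedy_step (b c : ℤ) (q : ℕ) (hqp : q.Prime) (hq : q ≠ 2) (S : Finset ℕ) :
    ∃ r : ℕ, ((S.filter (fun x : ℕ => ¬ (f b c x ≡ (r : ℤ) [ZMOD q]))).card : ℝ) ≤
      S.card * (((q : ℝ) - 1) / (q + 1)) := by
  have : Fact q.Prime := ⟨hqp⟩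
  set g : ℕ → ZMod q := fun x => (x : ZMod q) ^ 2 + (b : ZMod q) * x + (c : ZMod q) with hg
  set T : Finset (ZMod q) :=
    Finset.univ.image (fun x : ZMod q => x ^ 2 + (b : ZMod q) * x + (c : ZMod q)) with hT
  have hTcard : T.card ≤ q / 2 + 1 := card_values b c q hq
  have hmap : ∀ x ∈ S, g x ∈ T := by
    intro x _
    rw [hT, Finset.mem_image]
    exact ⟨(x : ZMod q), Finset.mem_univ _, rfl⟩
  have hodd : Odd q := hqp.odd_of_ne_two hq
  have hq2 : (2 : ℕ) * (q / 2) + 1 = q := Nat.two_mul_div_two_add_one_of_odd hodd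
  have hTne : T.Nonempty := by
    rw [hT]; exact Finset.univ_nonempty.image _
  -- pigeonhole
  obtain ⟨v, hv, hvc⟩ : ∃ v ∈ T, (S.card : ℝ) / (((q : ℝ) + 1) / 2) ≤
      ((S.filter (fun x => g x = v)).card : ℝ) := by
    have h1 : T.card • ((S.card : ℝ) / (((q : ℝ) + 1) / 2)) ≤ (S.card : ℝ) := by
      rw [nsmul_eq_mul]
      have h2 : (T.card : ℝ) ≤ ((q : ℝ) + 1) / 2 := by
        have h3 : (T.card : ℝ) ≤ ((q / 2 + 1 : ℕ) : ℝ) := by exact_mod_cast hTcard
        have h4 : ((q / 2 + 1 : ℕ) : ℝ) = ((q : ℝ) + 1) / 2 := by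
          have h5 : ((2 * (q / 2) + 1 : ℕ) : ℝ) = (q : ℝ) := by exact_mod_cast hq2
          push_cast at h5 ⊢
          linarith
        rw [h4] at h3
        exact h3
      have hpos : (0 : ℝ) < ((q : ℝ) + 1) / 2 := by positivity
      rw [mul_div_assoc']
      rw [div_le_iff₀ hpos]
      have : (0 : ℝ) ≤ S.card := by positivity
      nlinarith
    have := Finset.exists_le_sum_fiber_of_maps_to_of_nsmul_le_sum (s := S) (t := T)
      (f := g) (w := fun _ => (1 : ℝ)) (b := (S.card : ℝ) / (((q : ℝ) + 1) / 2))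
      hmap hTne (by simpa using h1)
    obtain ⟨y, hy, hyy⟩ := this
    refine ⟨y, hy, ?_⟩
    simpa using hyy
  refine ⟨v.val, ?_⟩
  have hset : S.filter (fun x : ℕ => ¬ (f b c x ≡ ((v.val : ℕ) : ℤ) [ZMOD q])) =
      S.filter (fun x => ¬ (g x = v)) := by
    apply Finset.filter_congr
    intro x _
    have h1 : (f b c x ≡ ((v.val : ℕ) : ℤ) [ZMOD q]) ↔ g x = v := by
      rw [← ZMod.intCast_eq_intCast_iff]
      have h2 : (((v.val : ℕ) : ℤ) : ZMod q) = v := by
        rw [Int.cast_natCast, ZMod.natCast_zmod_val]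
      rw [h2]
      unfold f
      rw [hg]
      push_cast
      exact Iff.rfl
    rw [h1]
  rw [hset]
  have hsum := Finset.card_filter_add_card_filter_not (s := S) (fun x => g x = v)
  have hsum' : ((S.filter (fun x => g x = v)).card : ℝ) +
      ((S.filter (fun x => ¬ (g x = v))).card : ℝ) = S.card := by exact_mod_cast hsum
  have hqpos : (0 : ℝ) < (q : ℝ) + 1 := by positivity
  have h5 : (S.card : ℝ) / (((q : ℝ) + 1) / 2) = S.card * (2 / (q + 1)) := by
    field_simp
  have h6 : (S.card : ℝ) * (((q : ℝ) - 1) / (q + 1)) = S.card - S.card * (2 / (q + 1)) := by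
    field_simp
    ring
  rw [h6]
  linarith

/-- the greedy lemma -/
lemma greedy (b c : ℤ) (L : Finset ℕ) (hL : ∀ q ∈ L, q.Prime ∧ q ≠ 2) (S : Finset ℕ) :
    ∃ r : ℕ → ℕ, ((S.filter (fun x : ℕ => ∀ q ∈ L, ¬ (f b c x ≡ (r q : ℤ) [ZMOD q]))).card : ℝ) ≤
      S.card * ∏ q ∈ L, (((q : ℝ) - 1) / (q + 1)) := by
  classical
  induction L using Finset.induction_on with
  | empty => exact ⟨fun _ => 0, by simp⟩
  | insert q L hqL ih =>
    obtain ⟨r, hr⟩ := ih (fun q' hq' => hL q' (Finset.mem_insert_of_mem hq'))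
    obtain ⟨a, ha⟩ := greedy_step b c q (hL q (Finset.mem_insert_self _ _)).1
      (hL q (Finset.mem_insert_self _ _)).2
      (S.filter (fun x : ℕ => ∀ q ∈ L, ¬ (f b c x ≡ (r q : ℤ) [ZMOD q])))
    refine ⟨Function.update r q a, ?_⟩
    have hset : S.filter (fun x : ℕ => ∀ q' ∈ insert q L,
        ¬ (f b c x ≡ (Function.update r q a q' : ℤ) [ZMOD q'])) =
        (S.filter (fun x : ℕ => ∀ q ∈ L, ¬ (f b c x ≡ (r q : ℤ) [ZMOD q]))).filter
          (fun x : ℕ => ¬ (f b c x ≡ (a : ℤ) [ZMOD q])) := by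
      rw [Finset.filter_filter]
      apply Finset.filter_congr
      intro x _
      constructor
      · intro h
        refine ⟨?_, ?_⟩
        · intro q' hq'
          have hne : q' ≠ q := fun h' => hqL (h' ▸ hq')
          have := h q' (Finset.mem_insert_of_mem hq')
          rwa [Function.update_of_ne hne] at this
        · have := h q (Finset.mem_insert_self _ _)
          rwa [Function.update_self] at this
      · rintro ⟨h1, h2⟩ q' hq'
        rw [Finset.mem_insert] at hq'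
        by_cases hne : q' = q
        · subst hne
          rw [Function.update_self]
          exact h2
        · rw [Function.update_of_ne hne]
          exact h1 q' (hq'.resolve_left hne)
    rw [hset, Finset.prod_insert hqL]
    refine ha.trans ?_
    have hq1 : (1 : ℝ) ≤ q := by
      exact_mod_cast (hL q (Finset.mem_insert_self _ _)).1.one_lt.le
    have hnn : (0 : ℝ) ≤ ((q : ℝ) - 1) / (q + 1) := by
      apply div_nonneg <;> linarith
    calc _ ≤ ((S.card : ℝ) * ∏ q ∈ L, (((q : ℝ) - 1) / (q + 1))) * (((q : ℝ) - 1) / (q + 1)) :=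
          mul_le_mul_of_nonneg_right hr hnn
      _ = _ := by ring

/-- killing one by one -/
lemma kill (b c : ℤ) (S L : Finset ℕ) (hcard : S.card ≤ L.card) (hpos : ∀ q ∈ L, 0 < q) :
    ∃ r : ℕ → ℕ, ∀ x ∈ S, ∃ q ∈ L, f b c x ≡ (r q : ℤ) [ZMOD q] := by
  classical
  obtain ⟨L', hL'sub, hL'card⟩ := Finset.exists_subset_card_eq hcard
  have e : S ≃ L' := Finset.equivOfCardEq hL'card.symm
  refine ⟨fun q => if h : q ∈ L' then ((f b c ((e.symm ⟨q, h⟩ : S) : ℕ)) % (q : ℤ)).toNat else 0,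
    ?_⟩
  intro x hx
  refine ⟨(e ⟨x, hx⟩ : L'), hL'sub (e ⟨x, hx⟩).2, ?_⟩
  have hmem : ((e ⟨x, hx⟩ : L') : ℕ) ∈ L' := (e ⟨x, hx⟩).2
  dsimp only
  rw [dif_pos hmem]
  have h1 : e.symm ⟨((e ⟨x, hx⟩ : L') : ℕ), hmem⟩ = ⟨x, hx⟩ := by
    simp
  rw [h1]
  have hq0 : (0 : ℤ) < (((e ⟨x, hx⟩ : L') : ℕ) : ℤ) := by
    exact_mod_cast hpos _ (hL'sub hmem)
  rw [Int.toNat_of_nonneg (Int.emod_nonneg _ hq0.ne')]
  exact (Int.mod_modEq _ _).symm

/-! ### The product over primes -/

lemma inv_prod_ge (N : ℕ) : Real.log N ≤ ∏ p ∈ N.primesBelow, (1 - (p : ℝ)⁻¹)⁻¹ := by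
  let F : ℕ →* ℝ :=
    { toFun := fun n => (n : ℝ)⁻¹
      map_one' := by simp
      map_mul' := by intro a b; push_cast; rw [mul_inv] }
  have hF : ∀ {p : ℕ}, p.Prime → ‖F p‖ < 1 := by
    intro p hp
    show ‖(p : ℝ)⁻¹‖ < 1
    rw [norm_inv]
    have : (1 : ℝ) < p := by exact_mod_cast hp.one_lt
    rw [Real.norm_of_nonneg (by linarith)]
    exact inv_lt_one_of_one_lt₀ this
  obtain ⟨hs, hh⟩ := EulerProduct.summable_and_hasSum_smoothNumbers_prod_primesBelow_geometric hF N
  have hnn : ∀ m : N.smoothNumbers, 0 ≤ F m := fun m => by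
    show (0 : ℝ) ≤ ((m : ℕ) : ℝ)⁻¹
    positivity
  -- the numbers 1 .. N-1 are smooth
  have hsub : ∀ m ∈ Finset.Icc 1 (N - 1), m ∈ N.smoothNumbers := by
    intro m hm
    rw [Finset.mem_Icc] at hm
    rw [Nat.mem_smoothNumbers']
    intro p hp hpm
    have := Nat.le_of_dvd (by omega) hpm
    omega
  let s : Finset N.smoothNumbers :=
    (Finset.Icc 1 (N - 1)).attach.map
      ⟨fun m => ⟨m.1, hsub m.1 m.2⟩, by
        intro a b h
        have := congrArg Subtype.val h
        exact Subtype.ext this⟩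
  have h1 : ∑ m ∈ s, F m ≤ ∏ p ∈ N.primesBelow, (1 - F p)⁻¹ :=
    sum_le_hasSum s (fun m _ => hnn m) hh
  have h2 : ∑ m ∈ s, F m = ∑ m ∈ Finset.Icc 1 (N - 1), (m : ℝ)⁻¹ := by
    rw [Finset.sum_map]
    rw [← Finset.sum_attach (Finset.Icc 1 (N - 1))]
    rfl
  rcases Nat.eq_zero_or_pos N with h0 | hpos
  · subst h0
    simp
  · have h3 : Real.log N ≤ ∑ m ∈ Finset.Icc 1 (N - 1), (m : ℝ)⁻¹ := by
      have := log_add_one_le_harmonic (N - 1)
      rw [harmonic_eq_sum_Icc] at this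
      push_cast at this
      have h4 : ((N - 1 : ℕ) : ℝ) + 1 = N := by
        have : ((N - 1 + 1 : ℕ) : ℝ) = N := by
          congr 1; omega
        rw [← this]; push_cast; ring
      rw [h4] at this
      exact this
    rw [h2] at h1
    exact h3.trans h1

/-- `∏_{5 ≤ q < N} (q-1)/(q+1) ≤ 12 / (log N)^2` -/
lemma prod_le (N : ℕ) (hN : 5 ≤ N) :
    ∏ q ∈ N.primesBelow.filter (fun q => 5 ≤ q), (((q : ℝ) - 1) / (q + 1)) ≤
      12 / (Real.log N) ^ 2 := by
  have hlog : 0 < Real.log N := Real.log_pos (by exact_mod_cast (by omega : 1 < N))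
  -- full product
  have hfull : ∏ q ∈ N.primesBelow, (((q : ℝ) - 1) / (q + 1)) ≤ 2 / (Real.log N) ^ 2 := by
    have h1 : ∏ q ∈ N.primesBelow, (((q : ℝ) - 1) / (q + 1)) =
        (∏ q ∈ N.primesBelow, (1 - (q : ℝ)⁻¹)) ^ 2 * ∏ q ∈ N.primesBelow, (1 - ((q : ℝ) ^ 2)⁻¹)⁻¹ := by
      rw [← Finset.prod_pow, ← Finset.prod_mul_distrib]
      apply Finset.prod_congr rfl
      intro q hq
      have hq2 : (2 : ℝ) ≤ q := by exact_mod_cast (Nat.prime_of_mem_primesBelow hq).two_le
      have ha : (q : ℝ) ≠ 0 := by linarith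
      have hb : (q : ℝ) + 1 ≠ 0 := by linarith
      have hc : (q : ℝ) - 1 ≠ 0 := by linarith
      have hd : (q : ℝ) ^ 2 - 1 ≠ 0 := by nlinarith
      have he : (1 - ((q : ℝ) ^ 2)⁻¹) = ((q : ℝ) - 1) * (q + 1) / q ^ 2 := by
        field_simp
        ring
      rw [he]
      field_simp
    have h2 : ∏ q ∈ N.primesBelow, (1 - (q : ℝ)⁻¹) ≤ 1 / Real.log N := by
      have := inv_prod_ge N
      rw [Finset.prod_inv_distrib] at this
      have hpos : 0 < ∏ q ∈ N.primesBelow, (1 - (q : ℝ)⁻¹) := by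
        apply Finset.prod_pos
        intro q hq
        have hq2 : (2 : ℝ) ≤ q := by exact_mod_cast (Nat.prime_of_mem_primesBelow hq).two_le
        have : (q : ℝ)⁻¹ < 1 := inv_lt_one_of_one_lt₀ (by linarith)
        linarith
      rw [le_div_iff₀ hlog]
      rw [le_inv_comm₀ hlog hpos] at this
      rw [inv_eq_one_div, le_div_iff₀ hlog] at this
      exact this
    have h2' : 0 ≤ ∏ q ∈ N.primesBelow, (1 - (q : ℝ)⁻¹) := by
      apply Finset.prod_nonneg
      intro q hq
      have hq2 : (2 : ℝ) ≤ q := by exact_mod_cast (Nat.prime_of_mem_primesBelow hq).two_le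
      have : (q : ℝ)⁻¹ < 1 := inv_lt_one_of_one_lt₀ (by linarith)
      linarith
    have h3 : ∏ q ∈ N.primesBelow, (1 - ((q : ℝ) ^ 2)⁻¹)⁻¹ ≤ 2 := by
      -- compare with the telescoping product over 2 ≤ n < N
      have hA : ∀ M : ℕ, ∏ n ∈ Finset.Ico 2 (M + 2), (1 - ((n : ℝ) ^ 2)⁻¹)⁻¹ =
          2 * (M + 1) / (M + 2) := by
        intro M
        induction M with
        | zero => simp
        | succ M ih =>
          rw [show M + 1 + 2 = (M + 2) + 1 from rfl, Finset.prod_Ico_succ_top (by omega), ih]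
          push_cast
          have e1 : ((M : ℝ) + 2) ≠ 0 := by positivity
          have e2 : ((M : ℝ) + 1) ≠ 0 := by positivity
          have e3 : ((M : ℝ) + 1 + 2) ≠ 0 := by positivity
          have e4 : (1 - (((M : ℝ) + 2) ^ 2)⁻¹) = ((M : ℝ) + 1) * (M + 1 + 2) / (M + 2) ^ 2 := by
            field_simp
            ring
          rw [e4]
          field_simp
          ring
      have hsub : N.primesBelow ⊆ Finset.Ico 2 ((N - 2) + 2) := by
        intro q hq
        rw [Finset.mem_Ico]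
        have h1 := (Nat.prime_of_mem_primesBelow hq).two_le
        have h2 := Nat.lt_of_mem_primesBelow hq
        omega
      calc ∏ q ∈ N.primesBelow, (1 - ((q : ℝ) ^ 2)⁻¹)⁻¹
          = ∏ n ∈ Finset.Ico 2 ((N - 2) + 2),
              (if n ∈ N.primesBelow then (1 - ((n : ℝ) ^ 2)⁻¹)⁻¹ else 1) := by
            rw [Finset.prod_ite_mem, Finset.inter_eq_right.2 hsub]
        _ ≤ ∏ n ∈ Finset.Ico 2 ((N - 2) + 2), (1 - ((n : ℝ) ^ 2)⁻¹)⁻¹ := by
            apply Finset.prod_le_prod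
            · intro q hq
              have hq2 : (2 : ℝ) ≤ q := by exact_mod_cast (Finset.mem_Ico.1 hq).1
              have : ((q : ℝ) ^ 2)⁻¹ < 1 := inv_lt_one_of_one_lt₀ (by nlinarith)
              split_ifs
              · exact inv_nonneg.2 (by linarith)
              · exact zero_le_one
            · intro q hq
              have hq2 : (2 : ℝ) ≤ q := by exact_mod_cast (Finset.mem_Ico.1 hq).1
              have h1 : ((q : ℝ) ^ 2)⁻¹ < 1 := inv_lt_one_of_one_lt₀ (by nlinarith)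
              have h2 : 0 < ((q : ℝ) ^ 2)⁻¹ := by positivity
              split_ifs
              · exact le_rfl
              · exact (one_le_inv₀ (by linarith)).2 (by linarith)
        _ = 2 * ((N - 2 : ℕ) + 1) / ((N - 2 : ℕ) + 2) := hA (N - 2)
        _ ≤ 2 := by
            rw [div_le_iff₀ (by positivity)]
            nlinarith [Nat.cast_nonneg (α := ℝ) (N - 2)]
    rw [h1]
    have hsq : (∏ q ∈ N.primesBelow, (1 - (q : ℝ)⁻¹)) ^ 2 ≤ (1 / Real.log N) ^ 2 :=
      pow_le_pow_left₀ h2' h2 2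
    have hnn3 : 0 ≤ ∏ q ∈ N.primesBelow, (1 - ((q : ℝ) ^ 2)⁻¹)⁻¹ := by
      apply Finset.prod_nonneg
      intro q hq
      have hq2 : (2 : ℝ) ≤ q := by exact_mod_cast (Nat.prime_of_mem_primesBelow hq).two_le
      have : ((q : ℝ) ^ 2)⁻¹ < 1 := inv_lt_one_of_one_lt₀ (by nlinarith)
      exact inv_nonneg.2 (by linarith)
    calc _ ≤ (1 / Real.log N) ^ 2 * 2 := mul_le_mul hsq h3 hnn3 (by positivity)
      _ = _ := by ring
  have hsplit : ∏ q ∈ N.primesBelow, (((q : ℝ) - 1) / (q + 1)) =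
      (1 / 6) * ∏ q ∈ N.primesBelow.filter (fun q => 5 ≤ q), (((q : ℝ) - 1) / (q + 1)) := by
    rw [← Finset.prod_filter_mul_prod_filter_not N.primesBelow (fun q => 5 ≤ q), mul_comm]
    congr 1
    have : N.primesBelow.filter (fun q => ¬ 5 ≤ q) = {2, 3} := by
      ext q
      rw [Finset.mem_filter, Nat.mem_primesBelow]
      constructor
      · rintro ⟨⟨h1, h2⟩, h3⟩
        have h4 : q < 5 := by omega
        interval_cases q <;> simp_all (config := { decide := true })
      · intro hq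
        rw [Finset.mem_insert, Finset.mem_singleton] at hq
        rcases hq with rfl | rfl
        · exact ⟨⟨by omega, by norm_num⟩, by norm_num⟩
        · exact ⟨⟨by omega, by norm_num⟩, by norm_num⟩
    rw [this, Finset.prod_pair (by norm_num)]
    norm_num
  rw [hsplit] at hfull
  have : (12 : ℝ) / (Real.log N) ^ 2 = 6 * (2 / (Real.log N) ^ 2) := by ring
  rw [this]
  linarith


/-! ### Asymptotic inequalities -/

open Filter Real in
lemma log_small : ∀ᶠ x : ℝ in atTop, Real.log x ≤ (1 / 100) * √x := by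
  have h := isLittleO_log_rpow_atTop (r := 1 / 2) (by norm_num)
  have h2 := h.bound (c := 1 / 100) (by norm_num)
  filter_upwards [h2, eventually_ge_atTop 1] with x hx h1
  rw [Real.norm_of_nonneg (Real.log_nonneg h1), Real.norm_of_nonneg (by positivity),
    ← Real.sqrt_eq_rpow] at hx
  exact hx

/-- the constant in the covering lemma -/
noncomputable def κ₀ : ℝ := 1 / 200

noncomputable def Y (w : ℕ) : ℝ := κ₀ * w * (Real.log w) ^ 2

open Filter Real in
lemma E1 : ∀ᶠ w : ℕ in atTop,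
    (Nat.primeCounting ⌊Y w⌋₊ : ℝ) * (12 / (Real.log ((w.sqrt + 1 : ℕ) : ℝ)) ^ 2) ≤
      (1 / 2) * w / Real.log w := by
  have hY1 : ∀ᶠ w : ℕ in atTop, (w : ℝ) ≤ Y w := by
    have h1 : Tendsto (fun w : ℕ => Real.log (w : ℝ)) atTop atTop :=
      Real.tendsto_log_atTop.comp tendsto_natCast_atTop_atTop
    filter_upwards [h1.eventually_ge_atTop 200] with w hw
    unfold Y κ₀
    have : (0 : ℝ) ≤ w := Nat.cast_nonneg w
    have h3 : (200 : ℝ) ≤ (Real.log w) ^ 2 := by nlinarith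
    calc (w : ℝ) = 1 / 200 * w * 200 := by ring
      _ ≤ 1 / 200 * w * (Real.log w) ^ 2 := by
        apply mul_le_mul_of_nonneg_left h3 (by positivity)
  have hYt : Tendsto (fun w : ℕ => Y w) atTop atTop :=
    tendsto_atTop_mono' _ hY1 tendsto_natCast_atTop_atTop
  have hpi := hYt.eventually (Chebyshev.eventually_primeCounting_le (ε := 1 / 2) (by norm_num))
  filter_upwards [hY1, hpi, eventually_ge_atTop 3] with w h1 h2 h3
  have hw3 : (3 : ℝ) ≤ w := by exact_mod_cast h3
  have hlog : 0 < Real.log w := Real.log_pos (by linarith)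
  have hYpos : 0 < Y w := by linarith
  have hlogY : Real.log w ≤ Real.log (Y w) := Real.log_le_log (by linarith) h1
  have hl4 : Real.log 4 + 1 / 2 ≤ 2 := by
    have : Real.log 4 = 2 * Real.log 2 := by
      rw [show (4 : ℝ) = 2 ^ 2 by norm_num, Real.log_pow]; norm_num
    rw [this]
    have := Real.log_two_lt_d9
    linarith
  have h4 : (Nat.primeCounting ⌊Y w⌋₊ : ℝ) ≤ 2 * Y w / Real.log w := by
    refine h2.trans ?_
    have hYl : 0 < Real.log (Y w) := lt_of_lt_of_le hlog hlogY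
    gcongr
  -- lower bound for log (sqrt w + 1)
  have h5 : Real.log w / 2 ≤ Real.log ((w.sqrt + 1 : ℕ) : ℝ) := by
    have h6 : (w : ℝ) ≤ (((w.sqrt + 1 : ℕ) : ℝ)) ^ 2 := by
      have := Nat.lt_succ_sqrt w
      have h7 : w ≤ (w.sqrt + 1) ^ 2 := by
        rw [pow_two]; exact this.le
      exact_mod_cast h7
    have h7 := Real.log_le_log (by linarith) h6
    rw [Real.log_pow] at h7
    push_cast at h7 ⊢
    linarith
  have h5pos : 0 < Real.log w / 2 := by linarith
  have h8 : 12 / (Real.log ((w.sqrt + 1 : ℕ) : ℝ)) ^ 2 ≤ 48 / (Real.log w) ^ 2 := by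
    have h9 : (Real.log w / 2) ^ 2 ≤ (Real.log ((w.sqrt + 1 : ℕ) : ℝ)) ^ 2 :=
      pow_le_pow_left₀ h5pos.le h5 2
    have h10 : 48 / (Real.log w) ^ 2 = 12 / (Real.log w / 2) ^ 2 := by
      field_simp; norm_num
    rw [h10]
    exact div_le_div_of_nonneg_left (by norm_num) (by positivity) h9
  calc (Nat.primeCounting ⌊Y w⌋₊ : ℝ) * (12 / (Real.log ((w.sqrt + 1 : ℕ) : ℝ)) ^ 2)
      ≤ (2 * Y w / Real.log w) * (48 / (Real.log w) ^ 2) := by
        apply mul_le_mul h4 h8 (by positivity) (by positivity)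
    _ = 0.48 * w / Real.log w := by
        unfold Y κ₀
        field_simp
        norm_num
    _ ≤ (1 / 2) * w / Real.log w := by
        gcongr
        norm_num

open Filter Real in
lemma E2 : ∀ᶠ w : ℕ in atTop,
    (1 / 2) * w / Real.log w + (w.sqrt : ℝ) ≤ (Nat.primeCounting w : ℝ) := by
  have h0 := tendsto_natCast_atTop_atTop (R := ℝ) |>.eventually log_small
  have h0' := (tendsto_natCast_atTop_atTop (R := ℝ)).eventually (log_small)
  filter_upwards [h0, eventually_ge_atTop 3] with w h1 h3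
  have hw3 : (3 : ℝ) ≤ w := by exact_mod_cast h3
  have hlog : 0 < Real.log w := Real.log_pos (by linarith)
  have hpi := Chebyshev.pi_ge w
  refine le_trans ?_ hpi
  have hs : (w.sqrt : ℝ) ≤ √w := Real.nat_sqrt_le_real_sqrt
  have hsq : √(w : ℝ) * √w = w := Real.mul_self_sqrt (by linarith)
  have hs1 : 1 ≤ √(w : ℝ) := Real.one_le_sqrt.2 (by linarith)
  have hl2 : Real.log ((w : ℝ) + 1) ≤ 2 * Real.log w := by
    have h4 : (w : ℝ) + 1 ≤ w ^ 2 := by nlinarith
    have := Real.log_le_log (by linarith) h4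
    rw [Real.log_pow] at this
    push_cast at this
    exact this
  rw [le_div_iff₀ hlog, add_mul, div_mul_cancel₀ _ hlog.ne']
  have hlt := Real.log_two_gt_d9
  have h5 : (w.sqrt : ℝ) * Real.log w ≤ √w * ((1 / 100) * √w) :=
    mul_le_mul hs h1 hlog.le (by positivity)
  have h6 : √(w : ℝ) * ((1 / 100) * √w) = w / 100 := by
    rw [show √(w : ℝ) * ((1 / 100) * √w) = (√(w : ℝ) * √w) / 100 by ring, hsq]
  have h7 : √(w : ℝ) ≤ w := by nlinarith
  nlinarith

open Filter Real in
lemma E3 : ∀ᶠ w : ℕ in atTop, (w : ℝ) / 4 ≤ Real.log (primorial w) := by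
  have h0 := tendsto_natCast_atTop_atTop (R := ℝ) |>.eventually log_small
  filter_upwards [h0, eventually_ge_atTop 3] with w h1 h3
  have hw3 : (3 : ℝ) ≤ w := by exact_mod_cast h3
  have hlog : 0 < Real.log w := Real.log_pos (by linarith)
  have hth := Chebyshev.theta_ge w
  rw [Chebyshev.theta_eq_log_primorial, Nat.floor_natCast] at hth
  refine le_trans ?_ hth
  have hsq : √(w : ℝ) * √w = w := Real.mul_self_sqrt (by linarith)
  have hs1 : 1 ≤ √(w : ℝ) := Real.one_le_sqrt.2 (by linarith)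
  have hl2 : Real.log ((w : ℝ) + 1) ≤ 2 * Real.log w := by
    have h4 : (w : ℝ) + 1 ≤ w ^ 2 := by nlinarith
    have := Real.log_le_log (by linarith) h4
    rw [Real.log_pow] at this
    push_cast at this
    exact this
  have hlt := Real.log_two_gt_d9
  have h5 : √(w : ℝ) * Real.log w ≤ √w * ((1 / 100) * √w) :=
    mul_le_mul_of_nonneg_left h1 (by positivity)
  have h6 : √(w : ℝ) * ((1 / 100) * √w) = w / 100 := by
    rw [show √(w : ℝ) * ((1 / 100) * √w) = (√(w : ℝ) * √w) / 100 by ring, hsq]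
  have h7 : √(w : ℝ) ≤ w := by nlinarith
  nlinarith

open Filter Real in
lemma E4 : ∀ᶠ w : ℕ in atTop, (w : ℝ) ^ 6 ≤ (primorial w : ℝ) := by
  have h0 := tendsto_natCast_atTop_atTop (R := ℝ) |>.eventually log_small
  filter_upwards [h0, E3, eventually_ge_atTop 3] with w h1 h2 h3
  have hw3 : (3 : ℝ) ≤ w := by exact_mod_cast h3
  have hP : (0 : ℝ) < (primorial w : ℝ) := by exact_mod_cast primorial_pos w
  rw [← Real.log_le_log_iff (by positivity) hP, Real.log_pow]
  have hsq : √(w : ℝ) * √w = w := Real.mul_self_sqrt (by linarith)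
  have hs1 : 1 ≤ √(w : ℝ) := Real.one_le_sqrt.2 (by linarith)
  have h7 : √(w : ℝ) ≤ w := by nlinarith
  push_cast
  nlinarith

/-! ### The covering lemma -/

open Filter Real in
lemma core : ∀ᶠ w : ℕ in atTop, ∀ b c : ℤ, ∃ a : ℤ, ∀ n : ℤ,
    n ≡ a [ZMOD (primorial w : ℕ)] →
      n ≡ 1 [ZMOD 2] ∧ n ≡ c + 1 [ZMOD 3] ∧
      ∀ p : ℕ, p.Prime → (p : ℝ) ≤ Y w →
        ∃ q : ℕ, q.Prime ∧ q ≤ w ∧ (q : ℤ) ∣ n - f b c p := by
  filter_upwards [E1, E2, eventually_ge_atTop 25] with w h1 h2 h25 b c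
  classical
  set z := w.sqrt with hz
  have hz5 : 5 ≤ z := by
    rw [hz, Nat.le_sqrt]; omega
  have hzw : z ≤ w := Nat.sqrt_le_self w
  set S : Finset ℕ := Nat.primesLE ⌊Y w⌋₊ with hS
  set L₁ : Finset ℕ := (z + 1).primesBelow.filter (fun q => 5 ≤ q) with hL₁
  set L₂ : Finset ℕ := (Nat.primesLE w).filter (fun q => z < q) with hL₂
  obtain ⟨r₁, hr₁⟩ := greedy b c L₁ (by
    intro q hq
    rw [hL₁, Finset.mem_filter] at hq
    exact ⟨Nat.prime_of_mem_primesBelow hq.1, by omega⟩) S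
  set S' := S.filter (fun x : ℕ => ∀ q ∈ L₁, ¬ (f b c x ≡ (r₁ q : ℤ) [ZMOD q])) with hS'
  have hcardS : (S.card : ℝ) = (Nat.primeCounting ⌊Y w⌋₊ : ℝ) := by
    rw [hS, Nat.primesLE_card_eq_primeCounting]
  have hS'card : (S'.card : ℝ) ≤ (1 / 2) * w / Real.log w := by
    refine hr₁.trans ?_
    rw [hcardS]
    refine le_trans ?_ h1
    apply mul_le_mul_of_nonneg_left _ (by positivity)
    exact prod_le (z + 1) (by omega)
  have hL₂card : (Nat.primeCounting w : ℝ) ≤ L₂.card + (w.sqrt : ℝ) := by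
    have h3 : (Nat.primesLE w).card ≤ L₂.card + z := by
      have h4 := Finset.card_filter_add_card_filter_not (s := Nat.primesLE w) (fun q => z < q)
      have h5 : ((Nat.primesLE w).filter (fun q => ¬ z < q)).card ≤ z := by
        have : (Nat.primesLE w).filter (fun q => ¬ z < q) ⊆ Finset.Icc 1 z := by
          intro q hq
          rw [Finset.mem_filter, Nat.mem_primesLE] at hq
          rw [Finset.mem_Icc]
          have := hq.1.2.one_lt
          omega
        have := Finset.card_le_card this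
        simpa using this
      have h6 : ((Nat.primesLE w).filter (fun q => z < q)).card = L₂.card := rfl
      omega
    rw [Nat.primesLE_card_eq_primeCounting] at h3
    exact_mod_cast h3
  have hcard : S'.card ≤ L₂.card := by
    have : (S'.card : ℝ) ≤ L₂.card := by linarith
    exact_mod_cast this
  obtain ⟨r₂, hr₂⟩ := kill b c S' L₂ hcard (by
    intro q hq
    rw [hL₂, Finset.mem_filter, Nat.mem_primesLE] at hq
    exact hq.1.2.pos)
  set r : ℕ → ℕ := fun q => if q = 2 then 1 else if q = 3 then ((c + 1) % 3).toNat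
    else if q ≤ z then r₁ q else r₂ q with hr
  have hcop : Set.Pairwise (Nat.primesLE w : Set ℕ) (Function.onFun Nat.Coprime (id : ℕ → ℕ)) := by
    intro p hp q hq hpq
    have hp' := (Nat.mem_primesLE.1 (Finset.mem_coe.1 hp)).2
    have hq' := (Nat.mem_primesLE.1 (Finset.mem_coe.1 hq)).2
    exact (Nat.coprime_primes hp' hq').2 hpq
  obtain ⟨k, hk⟩ := Nat.chineseRemainderOfFinset r id (Nat.primesLE w) (by
    intro q hq
    exact (Nat.mem_primesLE.1 hq).2.ne_zero) hcop
  refine ⟨k, ?_⟩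
  intro n hn
  have key : ∀ q : ℕ, q.Prime → q ≤ w → n ≡ (r q : ℤ) [ZMOD q] := by
    intro q hq hqw
    have h3 : n ≡ k [ZMOD (q : ℤ)] := by
      refine hn.of_dvd ?_
      exact_mod_cast (hq.dvd_primorial_iff.2 hqw)
    have h4 : k ≡ r q [MOD q] := hk q (Nat.mem_primesLE.2 ⟨hqw, hq⟩)
    exact h3.trans (Int.natCast_modEq_iff.2 h4)
  refine ⟨?_, ?_, ?_⟩
  · have := key 2 Nat.prime_two (by omega)
    simpa [hr] using this
  · have h3 := key 3 Nat.prime_three (by omega)
    have h4 : (r 3 : ℤ) = (c + 1) % 3 := by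
      have : r 3 = ((c + 1) % 3).toNat := by simp [hr]
      rw [this, Int.toNat_of_nonneg (Int.emod_nonneg _ (by norm_num))]
    rw [h4] at h3
    exact h3.trans (Int.mod_modEq _ _)
  · intro p hp hpY
    have hpS : p ∈ S := by
      rw [hS, Nat.mem_primesLE]
      exact ⟨Nat.le_floor hpY, hp⟩
    by_cases hpS' : p ∈ S'
    · obtain ⟨q, hq, hqr⟩ := hr₂ p hpS'
      rw [hL₂, Finset.mem_filter, Nat.mem_primesLE] at hq
      refine ⟨q, hq.1.2, hq.1.1, ?_⟩
      have h3 := key q hq.1.2 hq.1.1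
      have h4 : r q = r₂ q := by
        have e1 : q ≠ 2 := by omega
        have e2 : q ≠ 3 := by omega
        have e3 : ¬ q ≤ z := by omega
        simp [hr, e1, e2, e3]
      rw [h4] at h3
      exact (hqr.trans h3.symm).dvd
    · have h3 : ∃ q ∈ L₁, f b c p ≡ (r₁ q : ℤ) [ZMOD q] := by
        by_contra hcon
        push Not at hcon
        exact hpS' (Finset.mem_filter.2 ⟨hpS, hcon⟩)
      obtain ⟨q, hq, hqr⟩ := h3
      rw [hL₁, Finset.mem_filter, Nat.mem_primesBelow] at hq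
      have hqz : q ≤ z := by omega
      refine ⟨q, hq.1.2, hqz.trans hzw, ?_⟩
      have h3 := key q hq.1.2 (hqz.trans hzw)
      have h4 : r q = r₁ q := by
        have e1 : q ≠ 2 := by omega
        have e2 : q ≠ 3 := by omega
        simp [hr, e1, e2, hqz]
      rw [h4] at h3
      exact (hqr.trans h3.symm).dvd


/-! ### The three statements -/

/-- `f = x² + b x + c` is admissible -/
def Admissible (b c : ℤ) : Prop := Odd (b + c) ∧ ¬ (3 : ℤ) ∣ b

/-- `n = f(p₁) + p₂` with primes `p₁, p₂` -/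
def Represented (b c n : ℤ) : Prop :=
  ∃ p₁ p₂ : ℕ, p₁.Prime ∧ p₂.Prime ∧ n = f b c p₁ + p₂

/-- `n` is odd and not in `f(ℤ)` -/
def Target (b c n : ℤ) : Prop := Odd n ∧ ¬ ∃ x : ℤ, f b c x = n

lemma target_of_modEq {b c n : ℤ} (hb : ¬ (3 : ℤ) ∣ b) (h2 : n ≡ 1 [ZMOD 2])
    (h3 : n ≡ c + 1 [ZMOD 3]) : Target b c n := by
  constructor
  · rw [Int.odd_iff]
    exact h2
  · rintro ⟨x, hx⟩
    have h4 : f b c x ≡ c + 1 [ZMOD 3] := hx ▸ h3
    have h5 : x ^ 2 + b * x ≡ 1 [ZMOD 3] := by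
      unfold f at h4
      have := Int.ModEq.sub_right c h4
      ring_nf at this ⊢
      exact this
    have h6 : (x ^ 2 + b * x) % 3 = 1 := h5
    have hx3 : x % 3 = 0 ∨ x % 3 = 1 ∨ x % 3 = 2 := by omega
    have hb3 : b % 3 = 1 ∨ b % 3 = 2 := by omega
    rcases hx3 with h | h | h <;> rcases hb3 with h' | h' <;>
      (rw [Int.add_emod, pow_two, Int.mul_emod, Int.mul_emod b x, h, h'] at h6; norm_num at h6)

lemma prime_eq_of_dvd {q p₂ : ℕ} (hq : q.Prime) (hp : p₂.Prime) {m : ℤ} (hm : m = p₂)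
    (h : (q : ℤ) ∣ m) : p₂ = q := by
  rw [hm] at h
  have h1 : q ∣ p₂ := by exact_mod_cast h
  exact ((Nat.prime_dvd_prime_iff_eq hq hp).1 h1).symm

open Filter Real in
lemma Yle : ∀ᶠ w : ℕ in atTop, Y w ≤ (w : ℝ) ^ 2 := by
  have h0 := tendsto_natCast_atTop_atTop (R := ℝ) |>.eventually log_small
  filter_upwards [h0, eventually_ge_atTop 3] with w h1 h3
  have hw3 : (3 : ℝ) ≤ w := by exact_mod_cast h3
  have hlog : 0 < Real.log w := Real.log_pos (by linarith)
  have hsq : √(w : ℝ) * √w = w := Real.mul_self_sqrt (by linarith)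
  have h4 : (Real.log w) ^ 2 ≤ w := by
    have h5 : (Real.log w) ^ 2 ≤ ((1 / 100) * √(w : ℝ)) ^ 2 := pow_le_pow_left₀ hlog.le h1 2
    have h6 : ((1 / 100) * √(w : ℝ)) ^ 2 = w / 10000 := by
      rw [mul_pow, Real.sq_sqrt (by linarith)]; ring
    rw [h6] at h5
    linarith
  unfold Y κ₀
  nlinarith

open Filter Real in
/-- (i) late first representation -/
theorem late : ∃ κ : ℝ, 0 < κ ∧ ∀ b c : ℤ, Admissible b c → ∀ N : ℤ, ∃ n : ℤ, N < n ∧
    Target b c n ∧ ∀ p₁ : ℕ, p₁.Prime →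
      (p₁ : ℝ) ≤ κ * Real.log n * (Real.log (Real.log n)) ^ 2 →
      ∀ p₂ : ℕ, p₂.Prime → n ≠ f b c p₁ + p₂ := by
  refine ⟨κ₀ / 8, by unfold κ₀; norm_num, ?_⟩
  intro b c hbc N
  have hev := core.and (Yle.and (E4.and (eventually_ge_atTop
    (b.natAbs + c.natAbs + N.natAbs + 16))))
  obtain ⟨w, hcore, hY2, hP6, hw⟩ := hev.exists
  obtain ⟨a, ha⟩ := hcore b c
  set P : ℤ := ((primorial w : ℕ) : ℤ) with hP
  have hPpos : 0 < P := by rw [hP]; exact_mod_cast primorial_pos w
  set n : ℤ := P + a % P with hn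
  have hn1 : P ≤ n := by rw [hn]; linarith [Int.emod_nonneg a hPpos.ne']
  have hn2 : n < 2 * P := by rw [hn]; linarith [Int.emod_lt_of_pos a hPpos]
  have hna : n ≡ a [ZMOD P] := by
    rw [hn]
    unfold Int.ModEq
    rw [Int.add_emod, Int.emod_self, zero_add, Int.emod_emod_of_dvd _ (dvd_refl _),
      Int.emod_emod_of_dvd _ (dvd_refl _)]
  obtain ⟨h2, h3, hq⟩ := ha n hna
  have hwZ : (16 : ℤ) + |b| + |c| + |N| ≤ w := by
    have : ((b.natAbs + c.natAbs + N.natAbs + 16 : ℕ) : ℤ) ≤ w := by exact_mod_cast hw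
    push_cast at this
    linarith
  have hw16 : (16 : ℤ) ≤ w := by linarith [abs_nonneg b, abs_nonneg c, abs_nonneg N]
  have hPw : (w : ℤ) ^ 6 ≤ P := by
    rw [hP]; exact_mod_cast hP6
  have hw1 : (1 : ℤ) ≤ (w : ℤ) := by linarith
  refine ⟨n, ?_, target_of_modEq hbc.2 h2 h3, ?_⟩
  · have : N ≤ w := by linarith [le_abs_self N, abs_nonneg b, abs_nonneg c]
    have h6 : (w : ℤ) < (w : ℤ) ^ 6 := by
      calc (w : ℤ) = (w : ℤ) ^ 1 := (pow_one _).symm
        _ < (w : ℤ) ^ 6 := pow_lt_pow_right₀ (by linarith) (by norm_num)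
    linarith
  · intro p₁ hp₁ hle p₂ hp₂ heq
    -- p₁ ≤ Y w
    have hnR : (n : ℝ) ≤ 2 * (primorial w : ℝ) := by
      have : (n : ℝ) ≤ ((2 * P : ℤ) : ℝ) := by exact_mod_cast hn2.le
      rw [hP] at this
      push_cast at this
      exact this
    have hwR : (16 : ℝ) ≤ w := by exact_mod_cast hw16
    have hnbig : (w : ℝ) ^ 6 ≤ n := by
      have : ((w : ℤ) ^ 6) ≤ n := hPw.trans hn1
      exact_mod_cast this
    have hPR : (0 : ℝ) < (primorial w : ℝ) := by exact_mod_cast primorial_pos w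
    have hnpos : (0 : ℝ) < n := lt_of_lt_of_le (by positivity) hnbig
    have hlogn : Real.log n ≤ 2 * w := by
      have h4 : Real.log n ≤ Real.log (2 * (primorial w : ℝ)) := Real.log_le_log hnpos hnR
      have h5 : Real.log (2 * (primorial w : ℝ)) = Real.log 2 + Real.log (primorial w) :=
        Real.log_mul (by norm_num) hPR.ne'
      have h6 : Real.log (primorial w) ≤ w * Real.log 4 := by
        have h7 : ((primorial w : ℕ) : ℝ) ≤ ((4 ^ w : ℕ) : ℝ) := by
          exact_mod_cast primorial_le_four_pow w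
        have h8 := Real.log_le_log hPR h7
        push_cast at h8
        rwa [Real.log_pow] at h8
      have h9 : Real.log 4 = 2 * Real.log 2 := by
        rw [show (4 : ℝ) = 2 ^ 2 by norm_num, Real.log_pow]; norm_num
      have h10 := Real.log_two_lt_d9
      rw [h9] at h6
      nlinarith
    have hlog1 : 1 ≤ Real.log n := by
      have h4 : Real.log ((w : ℝ) ^ 6) ≤ Real.log n := Real.log_le_log (by positivity) hnbig
      rw [Real.log_pow] at h4
      have h5 : Real.log 2 ≤ Real.log w := Real.log_le_log (by norm_num) (by linarith)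
      have h6 := Real.log_two_gt_d9
      push_cast at h4
      linarith
    have hll : Real.log (Real.log n) ≤ 2 * Real.log w := by
      have h4 : Real.log (Real.log n) ≤ Real.log (2 * w) :=
        Real.log_le_log (by linarith) hlogn
      have h5 : Real.log (2 * (w : ℝ)) ≤ Real.log ((w : ℝ) ^ 2) :=
        Real.log_le_log (by positivity) (by nlinarith)
      rw [Real.log_pow] at h5
      push_cast at h5
      linarith
    have hll0 : 0 ≤ Real.log (Real.log n) := Real.log_nonneg hlog1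
    have hlw : 0 ≤ Real.log (w : ℝ) := Real.log_nonneg (by linarith)
    have hpY : (p₁ : ℝ) ≤ Y w := by
      refine hle.trans ?_
      have h4 : (Real.log (Real.log n)) ^ 2 ≤ (2 * Real.log w) ^ 2 := pow_le_pow_left₀ hll0 hll 2
      have hk : (0 : ℝ) < κ₀ := by unfold κ₀; norm_num
      calc κ₀ / 8 * Real.log n * (Real.log (Real.log n)) ^ 2
          ≤ κ₀ / 8 * (2 * w) * (2 * Real.log w) ^ 2 := by
            apply mul_le_mul _ h4 (by positivity) (by positivity)
            apply mul_le_mul_of_nonneg_left hlogn (by positivity)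
        _ = Y w := by unfold Y; ring
    obtain ⟨q, hqp, hqw, hqd⟩ := hq p₁ hp₁ hpY
    have hm : n - f b c p₁ = p₂ := by rw [heq]; ring
    have hpq : p₂ = q := prime_eq_of_dvd hqp hp₂ hm hqd
    -- size contradiction
    have hp1w : (p₁ : ℤ) ≤ (w : ℤ) ^ 2 := by
      have : (p₁ : ℝ) ≤ (w : ℝ) ^ 2 := hpY.trans hY2
      exact_mod_cast this
    have hp2w : (p₂ : ℤ) ≤ w := by rw [hpq]; exact_mod_cast hqw
    have hp10 : (0 : ℤ) ≤ p₁ := by positivity
    have hb1 : b * p₁ ≤ w * (w : ℤ) ^ 2 := by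
      calc b * p₁ ≤ |b| * p₁ := mul_le_mul_of_nonneg_right (le_abs_self b) hp10
        _ ≤ w * (w : ℤ) ^ 2 := by
          apply mul_le_mul _ hp1w hp10 (by positivity)
          linarith [abs_nonneg c, abs_nonneg N]
    have hc1 : c ≤ w := by linarith [le_abs_self c, abs_nonneg b, abs_nonneg N]
    have hsq : (p₁ : ℤ) ^ 2 ≤ ((w : ℤ) ^ 2) ^ 2 := pow_le_pow_left₀ hp10 hp1w 2
    have hfin : n ≤ (w : ℤ) ^ 4 + (w : ℤ) ^ 3 + w + w := by
      have : n = (p₁ : ℤ) ^ 2 + b * p₁ + c + p₂ := by rw [heq]; unfold f; ring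
      rw [this]
      nlinarith
    have hlt : (w : ℤ) ^ 4 + (w : ℤ) ^ 3 + w + w < (w : ℤ) ^ 6 := by
      have hw2 : (16 : ℤ) * w ≤ w ^ 2 := by nlinarith
      have hw3 : (w : ℤ) ^ 3 ≤ w ^ 4 := pow_le_pow_right₀ hw1 (by norm_num)
      have hw4 : (w : ℤ) ≤ w ^ 4 := by
        calc (w : ℤ) = (w : ℤ) ^ 1 := (pow_one _).symm
          _ ≤ _ := pow_le_pow_right₀ hw1 (by norm_num)
      have hw5 : (w : ℤ) ^ 6 = w ^ 2 * w ^ 4 := by ring
      have hw6 : (256 : ℤ) ≤ w ^ 2 := by nlinarith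
      have hw7 : (0 : ℤ) < w ^ 4 := by positivity
      nlinarith
    linarith


open Filter Real in
/-- asymptotics for (ii): with `w = ⌊log b / 4⌋` -/
lemma E5 : ∀ᶠ b : ℝ in atTop,
    (∀ b' c : ℤ, ∃ a : ℤ, ∀ n : ℤ,
      n ≡ a [ZMOD (primorial ⌊Real.log b / 4⌋₊ : ℕ)] →
      n ≡ 1 [ZMOD 2] ∧ n ≡ c + 1 [ZMOD 3] ∧
      ∀ p : ℕ, p.Prime → (p : ℝ) ≤ Y ⌊Real.log b / 4⌋₊ →
        ∃ q : ℕ, q.Prime ∧ q ≤ ⌊Real.log b / 4⌋₊ ∧ (q : ℤ) ∣ n - f b' c p) ∧
    Y ⌊Real.log b / 4⌋₊ ≤ ((⌊Real.log b / 4⌋₊ : ℕ) : ℝ) ^ 2 ∧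
    16 ≤ ⌊Real.log b / 4⌋₊ ∧
    ((primorial ⌊Real.log b / 4⌋₊ : ℕ) : ℝ) ≤ b / 8 ∧
    (((⌊Real.log b / 4⌋₊ : ℕ) : ℝ)) ^ 5 ≤ b / 8 ∧
    (κ₀ / 40) * Real.log b * (Real.log (Real.log b)) ^ 2 + 1 ≤ Y ⌊Real.log b / 4⌋₊ := by
  have hlim : Tendsto (fun b : ℝ => Real.log b / 4) atTop atTop :=
    Real.tendsto_log_atTop.atTop_div_const (by norm_num)
  have hfl : Tendsto (fun b : ℝ => ⌊Real.log b / 4⌋₊) atTop atTop :=
    tendsto_nat_floor_atTop.comp hlim
  have hll : Tendsto (fun b : ℝ => Real.log (Real.log b)) atTop atTop :=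
    Real.tendsto_log_atTop.comp Real.tendsto_log_atTop
  have h1 := hfl.eventually core
  have h2 := hfl.eventually Yle
  have h3 := hfl.eventually_ge_atTop 16
  have h4 := Real.tendsto_log_atTop.eventually_ge_atTop 100
  have h5 := hll.eventually_ge_atTop 1000
  have h6 := Real.tendsto_log_atTop.eventually log_small
  filter_upwards [h1, h2, h3, h4, h5, h6, eventually_gt_atTop 8] with b h1 h2 h3 h4 h5 h6 h7
  set x := Real.log b with hx
  set w := ⌊x / 4⌋₊ with hw
  have hw1 : (w : ℝ) ≤ x / 4 := Nat.floor_le (by linarith)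
  have hw2 : x / 4 - 1 < w := by
    have := Nat.lt_floor_add_one (x / 4)
    linarith
  have hb0 : (0 : ℝ) < b := by linarith
  have hbexp : b = Real.exp x := (Real.exp_log hb0).symm
  have hlt := Real.log_two_lt_d9
  have hgt := Real.log_two_gt_d9
  have h9 : Real.log 4 = 2 * Real.log 2 := by
    rw [show (4 : ℝ) = 2 ^ 2 by norm_num, Real.log_pow]; norm_num
  have h8 : Real.log 8 = 3 * Real.log 2 := by
    rw [show (8 : ℝ) = 2 ^ 3 by norm_num, Real.log_pow]; norm_num
  have hb8 : Real.log (b / 8) = x - 3 * Real.log 2 := by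
    rw [Real.log_div hb0.ne' (by norm_num), h8]
  refine ⟨h1, h2, h3, ?_, ?_, ?_⟩
  · have hPR : (0 : ℝ) < ((primorial w : ℕ) : ℝ) := by exact_mod_cast primorial_pos w
    rw [← Real.log_le_log_iff hPR (by positivity), hb8]
    have h10 : Real.log (primorial w) ≤ w * Real.log 4 := by
      have h7 : ((primorial w : ℕ) : ℝ) ≤ ((4 ^ w : ℕ) : ℝ) := by
        exact_mod_cast primorial_le_four_pow w
      have h8 := Real.log_le_log hPR h7
      push_cast at h8
      rwa [Real.log_pow] at h8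
    rw [h9] at h10
    nlinarith
  · have hw16 : (16 : ℝ) ≤ w := by exact_mod_cast h3
    rw [← Real.log_le_log_iff (by positivity) (by positivity), hb8, Real.log_pow]
    have h10 : Real.log w ≤ Real.log x := Real.log_le_log (by linarith) (by linarith)
    have hsq : √x * √x = x := Real.mul_self_sqrt (by linarith)
    have hs1 : 1 ≤ √x := Real.one_le_sqrt.2 (by linarith)
    have h11 : √x ≤ x := by nlinarith
    push_cast
    linarith
  · have hlx : 0 < Real.log x := by linarith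
    have hw5 : x / 5 ≤ w := by linarith
    have hlw : Real.log x / 2 ≤ Real.log w := by
      have h10 : Real.log (x / 5) ≤ Real.log w := Real.log_le_log (by linarith) hw5
      have h11 : Real.log (x / 5) = Real.log x - Real.log 5 :=
        Real.log_div (by linarith) (by norm_num)
      have h12 : Real.log 5 ≤ 3 * Real.log 2 := by
        rw [← h8]; exact Real.log_le_log (by norm_num) (by norm_num)
      linarith
    have hsq : (Real.log x / 2) ^ 2 ≤ (Real.log w) ^ 2 := pow_le_pow_left₀ (by linarith) hlw 2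
    have hk : (0 : ℝ) < κ₀ := by unfold κ₀; norm_num
    have hY : κ₀ * (x / 5) * (Real.log x / 2) ^ 2 ≤ Y w := by
      unfold Y
      apply mul_le_mul _ hsq (by positivity) (by positivity)
      exact mul_le_mul_of_nonneg_left hw5 hk.le
    have h13 : κ₀ * (x / 5) * (Real.log x / 2) ^ 2 =
        (κ₀ / 40) * x * (Real.log x) ^ 2 + (κ₀ / 40) * x * (Real.log x) ^ 2 := by ring
    have h14 : 1 ≤ (κ₀ / 40) * x * (Real.log x) ^ 2 := by
      unfold κ₀
      nlinarith
    linarith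

open Filter Real in
/-- (ii) the largest exception -/
theorem largest : ∃ κ : ℝ, 0 < κ ∧ ∃ B : ℝ, ∀ b c : ℤ, B ≤ b → Admissible b c →
    ∃ n : ℤ, Target b c n ∧ ¬ Represented b c n ∧
      (c : ℝ) + κ * b * Real.log b * (Real.log (Real.log b)) ^ 2 ≤ n := by
  obtain ⟨B, hB⟩ := Filter.eventually_atTop.1 E5
  refine ⟨κ₀ / 40, by unfold κ₀; norm_num, max B 8, ?_⟩
  intro b c hb hbc
  obtain ⟨hcore, hY2, hw16, hPb, hw5, hYb⟩ := hB b ((le_max_left _ _).trans hb)
  have hb8 : (8 : ℝ) ≤ b := (le_max_right _ _).trans hb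
  set w := ⌊Real.log b / 4⌋₊ with hw
  obtain ⟨a, ha⟩ := hcore b c
  set P : ℤ := ((primorial w : ℕ) : ℤ) with hP
  have hPpos : 0 < P := by rw [hP]; exact_mod_cast primorial_pos w
  have hYnn : 0 ≤ Y w := by unfold Y κ₀; positivity
  set M : ℕ := ⌊Y w⌋₊ with hM
  have hMle : (M : ℝ) ≤ Y w := Nat.floor_le hYnn
  have hMge : Y w - 1 ≤ M := by
    have := Nat.lt_floor_add_one (Y w)
    linarith
  have hMw : (M : ℤ) ≤ (w : ℤ) ^ 2 := by
    have : (M : ℝ) ≤ (w : ℝ) ^ 2 := hMle.trans hY2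
    exact_mod_cast this
  have hbZ : (8 : ℤ) ≤ b := by exact_mod_cast hb8
  set n₀ : ℤ := c + b * M + b / 2 with hn₀
  set n : ℤ := n₀ + (a - n₀) % P with hn
  have hn1 : n₀ ≤ n := by rw [hn]; linarith [Int.emod_nonneg (a - n₀) hPpos.ne']
  have hn2 : n < n₀ + P := by rw [hn]; linarith [Int.emod_lt_of_pos (a - n₀) hPpos]
  have hna : n ≡ a [ZMOD P] := by
    have h1 : (a - n₀) % P ≡ a - n₀ [ZMOD P] := Int.mod_modEq _ _
    have h2 : n₀ + (a - n₀) % P ≡ n₀ + (a - n₀) [ZMOD P] := Int.ModEq.add_left _ h1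
    have h3 : n₀ + (a - n₀) = a := by ring
    rw [h3] at h2
    exact h2
  obtain ⟨h2, h3, hq⟩ := ha n hna
  have hPb' : 8 * P ≤ b := by
    have : 8 * ((primorial w : ℕ) : ℝ) ≤ b := by linarith
    rw [hP]
    exact_mod_cast this
  have hw5' : 8 * (w : ℤ) ^ 5 ≤ b := by
    have : 8 * (w : ℝ) ^ 5 ≤ b := by linarith
    exact_mod_cast this
  have hwZ : (16 : ℤ) ≤ w := by exact_mod_cast hw16
  have hw4 : 16 * (w : ℤ) ^ 4 ≤ (w : ℤ) ^ 5 := by
    have : (0 : ℤ) < (w : ℤ) ^ 4 := by positivity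
    nlinarith
  have hw1 : (w : ℤ) ≤ (w : ℤ) ^ 4 := by
    calc (w : ℤ) = (w : ℤ) ^ 1 := (pow_one _).symm
      _ ≤ _ := pow_le_pow_right₀ (by linarith) (by norm_num)
  refine ⟨n, target_of_modEq hbc.2 h2 h3, ?_, ?_⟩
  · rintro ⟨p₁, p₂, hp₁, hp₂, heq⟩
    have hm : n - f b c p₁ = p₂ := by rw [heq]; ring
    have hp10 : (0 : ℤ) ≤ p₁ := by positivity
    have hp20 : (0 : ℤ) < p₂ := by exact_mod_cast hp₂.pos
    have heq' : n = (p₁ : ℤ) ^ 2 + b * p₁ + c + p₂ := by rw [heq]; unfold f; ring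
    by_cases hpM : p₁ ≤ M
    · have hpY : (p₁ : ℝ) ≤ Y w := by
        have : (p₁ : ℝ) ≤ M := by exact_mod_cast hpM
        linarith
      obtain ⟨q, hqp, hqw, hqd⟩ := hq p₁ hp₁ hpY
      have hpq : p₂ = q := prime_eq_of_dvd hqp hp₂ hm hqd
      have hp2w : (p₂ : ℤ) ≤ w := by rw [hpq]; exact_mod_cast hqw
      have hpMZ : (p₁ : ℤ) ≤ M := by exact_mod_cast hpM
      have hsq : (p₁ : ℤ) ^ 2 ≤ ((w : ℤ) ^ 2) ^ 2 :=
        pow_le_pow_left₀ hp10 (hpMZ.trans hMw) 2
      have hbp : b * p₁ ≤ b * M := mul_le_mul_of_nonneg_left hpMZ (by linarith)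
      have hhalf : b ≤ 2 * (b / 2) + 1 := by omega
      nlinarith
    · have hpMZ : (M : ℤ) + 1 ≤ p₁ := by
        have : M + 1 ≤ p₁ := by omega
        exact_mod_cast this
      have hbp : b * (M + 1) ≤ b * p₁ := mul_le_mul_of_nonneg_left hpMZ (by linarith)
      have hhalf : 2 * (b / 2) ≤ b := by omega
      have hsq : (0 : ℤ) ≤ (p₁ : ℤ) ^ 2 := by positivity
      nlinarith
  · have h4 : (c : ℝ) + b * M ≤ n := by
      have h5 : c + b * (M : ℤ) ≤ n := by
        have : 0 ≤ b / 2 := by omega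
        linarith
      exact_mod_cast h5
    have h6 : κ₀ / 40 * Real.log b * (Real.log (Real.log b)) ^ 2 ≤ M := by linarith
    have h7 : (b : ℝ) * (κ₀ / 40 * Real.log b * (Real.log (Real.log b)) ^ 2) ≤ b * M :=
      mul_le_mul_of_nonneg_left h6 (by linarith)
    calc (c : ℝ) + κ₀ / 40 * b * Real.log b * (Real.log (Real.log b)) ^ 2
        = c + b * (κ₀ / 40 * Real.log b * (Real.log (Real.log b)) ^ 2) := by ring
      _ ≤ (n : ℝ) := by linarith


open Filter Real in
/-- asymptotics for (iii) -/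
lemma E6 (κ : ℝ) (hκ : 0 < κ) : ∀ᶠ b : ℝ in atTop,
    (Nat.primeCounting ⌊κ * Real.log b * Real.log (Real.log b)⌋₊ : ℝ) ≤
        4 * κ * Real.log b ∧
    (∀ X : ℝ, b ≤ X → (Nat.primeCounting ⌊X⌋₊ : ℝ) ≤ 2 * X / Real.log b) ∧ 1000 ≤ b := by
  have hll : Tendsto (fun b : ℝ => Real.log (Real.log b)) atTop atTop :=
    Real.tendsto_log_atTop.comp Real.tendsto_log_atTop
  have hprod : Tendsto (fun b : ℝ => κ * Real.log b * Real.log (Real.log b))
      atTop atTop := by
    have : Tendsto (fun b : ℝ => κ * Real.log b) atTop atTop :=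
      Real.tendsto_log_atTop.const_mul_atTop hκ
    exact this.atTop_mul_atTop₀ hll
  have hpi := Chebyshev.eventually_primeCounting_le (ε := 1 / 2) (by norm_num)
  have h1 := hprod.eventually hpi
  have h3 := hll.eventually_ge_atTop (1 / κ)
  have h4 := Real.tendsto_log_atTop.eventually_ge_atTop 10000
  obtain ⟨X₀, hX₀⟩ := Filter.eventually_atTop.1 hpi
  have hl4 : Real.log 4 + 1 / 2 ≤ 2 := by
    have : Real.log 4 = 2 * Real.log 2 := by
      rw [show (4 : ℝ) = 2 ^ 2 by norm_num, Real.log_pow]; norm_num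
    rw [this]
    have := Real.log_two_lt_d9
    linarith
  filter_upwards [h1, h3, h4, eventually_ge_atTop X₀, eventually_ge_atTop 1000]
    with b h1 h3 h4 h5 h6
  set x := Real.log b with hx
  set y := κ * x * Real.log x with hy
  refine ⟨?_, ?_, h6⟩
  · have hκl : 1 ≤ κ * Real.log x := by
      rw [div_le_iff₀ hκ] at h3
      linarith
    have hsx : 1 < √x := by
      rw [Real.lt_sqrt (by norm_num)]; linarith
    have hsq : √x * √x = x := Real.mul_self_sqrt (by linarith)
    have hyx : √x ≤ y := by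
      have e : y = x * (κ * Real.log x) := by rw [hy]; ring
      rw [e]
      nlinarith
    have hlogy : Real.log x / 2 ≤ Real.log y := by
      have h7 := Real.log_le_log (by linarith) hyx
      rwa [Real.log_sqrt (by linarith)] at h7
    have hlx0 : 0 < Real.log x := Real.log_pos (by linarith)
    have hlx : 0 < Real.log x / 2 := by linarith
    have hy0 : 0 < y := by linarith
    calc (Nat.primeCounting ⌊y⌋₊ : ℝ) ≤ (Real.log 4 + 1 / 2) * y / Real.log y := h1
      _ ≤ 2 * y / (Real.log x / 2) := by gcongr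
      _ = 4 * κ * x := by
        rw [hy]
        field_simp
        norm_num
  · intro X hX
    have h7 := hX₀ X (h5.trans hX)
    have hX0 : 0 < X := by linarith
    have hlog : Real.log b ≤ Real.log X := Real.log_le_log (by linarith) hX
    have hx0 : 0 < x := by linarith
    refine h7.trans ?_
    gcongr

/-- the integers `n` in `(c, c + X]` that are values of `f` or represented -/
def Good (b c : ℤ) (X : ℝ) : Set ℤ :=
  {n : ℤ | c < n ∧ (n : ℝ) ≤ c + X ∧ ((∃ x : ℤ, f b c x = n) ∨ Represented b c n)}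

open Filter Real in
/-- (iii) nearly all odd integers are exceptions -/
theorem many (ε : ℝ) (hε : 0 < ε) : ∃ κ : ℝ, 0 < κ ∧ ∃ B : ℝ, ∀ b c : ℤ, B ≤ b →
    ∀ X : ℝ, (b : ℝ) ≤ X → X ≤ κ * b * Real.log b * Real.log (Real.log b) →
      (Good b c X).Finite ∧ ((Good b c X).ncard : ℝ) ≤ ε * X := by
  classical
  obtain ⟨B, hB⟩ := Filter.eventually_atTop.1 (E6 (ε / 16) (by positivity))
  refine ⟨ε / 16, by positivity, max B (2 / ε), ?_⟩
  intro b c hb X hbX hX
  obtain ⟨h1, h2, h3⟩ := hB b ((le_max_left _ _).trans hb)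
  have hbε : 2 / ε ≤ (b : ℝ) := (le_max_right _ _).trans hb
  have hX0 : (0 : ℝ) < X := by linarith
  set K : ℕ := ⌊X⌋₊ with hK
  have hKX : (K : ℝ) ≤ X := Nat.floor_le hX0.le
  set y : ℝ := X / b with hy
  have hb0 : (0 : ℝ) < b := by linarith
  have hy0 : 0 ≤ y := by positivity
  have hyle : y ≤ (ε / 16) * Real.log b * Real.log (Real.log b) := by
    rw [hy, div_le_iff₀ hb0]
    linarith
  set R : Finset ℤ := ((Nat.primesLE ⌊y⌋₊) ×ˢ (Nat.primesLE K)).image
    (fun pq : ℕ × ℕ => f b c pq.1 + pq.2) with hR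
  set V : Finset ℤ := (Finset.Icc 1 ⌊y⌋₊).image (fun m : ℕ => f b c m) with hV
  have hbZ : (1000 : ℤ) ≤ b := by exact_mod_cast h3
  have hsub : Good b c X ⊆ ((R ∪ V : Finset ℤ) : Set ℤ) := by
    intro n hn
    obtain ⟨hn1, hn2, hor⟩ := hn
    have hn2K : n - c ≤ K := by
      have h5 : ((n - c : ℤ) : ℝ) ≤ X := by push_cast; linarith
      have h6 : ((n - c).toNat : ℝ) ≤ X := by
        have : (((n - c).toNat : ℤ) : ℝ) = ((n - c : ℤ) : ℝ) := by
          rw [Int.toNat_of_nonneg (by linarith)]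
        rw [← this] at h5
        exact_mod_cast h5
      have h7 : (n - c).toNat ≤ K := Nat.le_floor h6
      omega
    have hbound : ∀ m : ℕ, b * (m : ℤ) ≤ K → m ≤ ⌊y⌋₊ := by
      intro m hm
      apply Nat.le_floor
      rw [hy, le_div_iff₀ hb0]
      have : (b : ℝ) * m ≤ K := by exact_mod_cast hm
      linarith
    rw [Finset.mem_coe, Finset.mem_union]
    rcases hor with ⟨x, hx⟩ | ⟨p₁, p₂, hp₁, hp₂, heq⟩
    · right
      -- f x = n > c gives x ≥ 1 or x ≤ -b-1
      have hxx : 0 < x * (x + b) := by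
        have : x ^ 2 + b * x + c = n := hx
        nlinarith
      have hxK : x * (x + b) ≤ K := by
        have : x ^ 2 + b * x + c = n := hx
        nlinarith
      rcases lt_or_ge 0 x with hpos | hneg
      · obtain ⟨m, hm⟩ := Int.eq_ofNat_of_zero_le hpos.le
        have hm1 : 1 ≤ m := by
          have : (0 : ℤ) < m := by rw [← hm]; exact hpos
          omega
        rw [hV, Finset.mem_image]
        refine ⟨m, Finset.mem_Icc.2 ⟨hm1, hbound m ?_⟩, ?_⟩
        · rw [← hm]; nlinarith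
        · rw [← hm]; exact hx
      · have hx0 : x ≠ 0 := by rintro rfl; simp at hxx
        have hxneg : x < 0 := lt_of_le_of_ne hneg hx0
        have hxb : x + b < 0 := by
          by_contra hcon
          push Not at hcon
          have := mul_nonpos_of_nonpos_of_nonneg hneg hcon
          linarith
        set x' : ℤ := -b - x with hx'
        have hpos : 0 < x' := by rw [hx']; linarith
        obtain ⟨m, hm⟩ := Int.eq_ofNat_of_zero_le hpos.le
        have hm1 : 1 ≤ m := by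
          have : (0 : ℤ) < m := by rw [← hm]; exact hpos
          omega
        rw [hV, Finset.mem_image]
        have hfx : f b c x' = n := by
          rw [← hx]; unfold f; rw [hx']; ring
        refine ⟨m, Finset.mem_Icc.2 ⟨hm1, hbound m ?_⟩, ?_⟩
        · rw [← hm]
          have : x' * (x' + b) ≤ K := by
            have e : x' * (x' + b) = x * (x + b) := by rw [hx']; ring
            rw [e]; exact hxK
          nlinarith
        · rw [← hm]; exact hfx
    · left
      rw [hR, Finset.mem_image]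
      have heq' : n = (p₁ : ℤ) ^ 2 + b * p₁ + c + p₂ := by rw [heq]; unfold f; ring
      have hp10 : (0 : ℤ) ≤ p₁ := by positivity
      have hp20 : (0 : ℤ) ≤ p₂ := by positivity
      have hbp : 0 ≤ b * (p₁ : ℤ) := mul_nonneg (by linarith) hp10
      have hsq : (0 : ℤ) ≤ (p₁ : ℤ) ^ 2 := by positivity
      refine ⟨(p₁, p₂), ?_, heq.symm⟩
      rw [Finset.mem_product, Nat.mem_primesLE, Nat.mem_primesLE]
      refine ⟨⟨hbound p₁ (by linarith), hp₁⟩, ⟨?_, hp₂⟩⟩
      have : (p₂ : ℤ) ≤ K := by linarith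
      exact_mod_cast this
  refine ⟨(Finset.finite_toSet _).subset hsub, ?_⟩
  have hRc : (R.card : ℝ) ≤ (ε / 2) * X := by
    have h4 : R.card ≤ Nat.primeCounting ⌊y⌋₊ * Nat.primeCounting K := by
      rw [hR]
      refine Finset.card_image_le.trans ?_
      rw [Finset.card_product, Nat.primesLE_card_eq_primeCounting,
        Nat.primesLE_card_eq_primeCounting]
    have h5 : (R.card : ℝ) ≤ (Nat.primeCounting ⌊y⌋₊ : ℝ) * (Nat.primeCounting K : ℝ) := by
      exact_mod_cast h4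
    have h6 : (Nat.primeCounting ⌊y⌋₊ : ℝ) ≤ 4 * (ε / 16) * Real.log b := by
      refine le_trans ?_ h1
      exact_mod_cast Nat.monotone_primeCounting (Nat.floor_mono hyle)
    have h7 : (Nat.primeCounting K : ℝ) ≤ 2 * X / Real.log b := h2 X hbX
    have hlb : 0 < Real.log b := Real.log_pos (by linarith)
    calc (R.card : ℝ) ≤ (4 * (ε / 16) * Real.log b) * (2 * X / Real.log b) := by
          refine h5.trans (mul_le_mul h6 h7 (by positivity) (by positivity))
      _ = (ε / 2) * X := by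
          field_simp
          norm_num
  have hVc : (V.card : ℝ) ≤ (ε / 2) * X := by
    have h4 : V.card ≤ ⌊y⌋₊ := by
      rw [hV]
      refine Finset.card_image_le.trans ?_
      simp
    have h5 : (V.card : ℝ) ≤ y := by
      refine le_trans ?_ (Nat.floor_le hy0)
      exact_mod_cast h4
    refine h5.trans ?_
    rw [hy, div_le_iff₀ hb0]
    rw [div_le_iff₀ hε] at hbε
    nlinarith
  have hcard : (Good b c X).ncard ≤ R.card + V.card := by
    calc (Good b c X).ncard ≤ ((R ∪ V : Finset ℤ) : Set ℤ).ncard :=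
          Set.ncard_le_ncard hsub (Finset.finite_toSet _)
      _ = (R ∪ V).card := Set.ncard_coe_finset _
      _ ≤ R.card + V.card := Finset.card_union_le R V
  have hcard' : ((Good b c X).ncard : ℝ) ≤ R.card + V.card := by exact_mod_cast hcard
  linarith

end Pool.Agent.Lib.MP_d9bc60_nt
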