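import Mathlib
import Pool.Agent.Lib.MP_d9bc60_nt.SecondMoment

set_option autoImplicit false

set_option maxHeartbeats 1000000

open Finset Filter

namespace Pool.Agent.Lib.MP_d9bc60_nt.Sieve

lemma PS_card : ∀ᶠ w : ℕ in atTop, (1 / 2) * (w : ℝ) / Real.log w ≤ ((PS w).card : ℝ) := by
  filter_upwards [E2] with w hw
  have h1 : (Nat.primeCounting w) ≤ Nat.sqrt w + (PS w).card := by
    rw [← Nat.primesLE_card_eq_primeCounting]
    have h2 : Nat.primesLE w ⊆ Finset.Icc 1 (Nat.sqrt w) ∪ PS w := by
      intro p hp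
      rw [Nat.mem_primesLE] at hp
      rw [Finset.mem_union, Finset.mem_Icc, PS, Finset.mem_filter, Finset.mem_Icc]
      have := hp.2.one_lt
      by_cases h : p ≤ Nat.sqrt w
      · left; omega
      · right; exact ⟨⟨by omega, hp.1⟩, hp.2, by omega⟩
    have h3 := (Finset.card_le_card h2).trans (Finset.card_union_le _ _)
    rw [Nat.card_Icc, Nat.add_sub_cancel] at h3
    exact h3
  have h2 : (Nat.primeCounting w : ℝ) ≤ (Nat.sqrt w : ℝ) + ((PS w).card : ℝ) := by
    exact_mod_cast h1
  linarith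

lemma QS_card : ∀ᶠ w : ℕ in atTop, (1 / 2) * (w : ℝ) / Real.log w ≤ ((QS w).card : ℝ) := by
  filter_upwards [PS_card, eventually_ge_atTop 4] with w hw h4
  refine hw.trans ?_
  have : (PS w).card ≤ (QS w).card := by
    apply Finset.card_le_card
    intro p hp
    rw [PS, Finset.mem_filter] at hp
    rw [QS, Finset.mem_filter]
    refine ⟨hp.1, hp.2.1, ?_⟩
    have h5 : 2 ≤ Nat.sqrt w := Nat.le_sqrt.2 (by omega)
    omega
  exact_mod_cast this

/-- the constant `δ₀` -/
noncomputable def dd : ℝ := 1 / (48 * (1 + 344736 * KK))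

lemma dd_pos : 0 < dd := by
  unfold dd
  have := KK_pos
  positivity

/-- the parameters -/
noncomputable def YY (K X : ℝ) : ℕ := ⌊K * Real.log X * Real.log (Real.log X)⌋₊

noncomputable def NN (X : ℝ) : ℕ := ⌊X / 2⌋₊

lemma tendsto_prod (K : ℝ) (hK : 0 < K) :
    Tendsto (fun X : ℝ => K * Real.log X * Real.log (Real.log X)) atTop atTop := by
  have hll : Tendsto (fun b : ℝ => Real.log (Real.log b)) atTop atTop :=
    Real.tendsto_log_atTop.comp Real.tendsto_log_atTop
  have : Tendsto (fun b : ℝ => K * Real.log b) atTop atTop :=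
    Real.tendsto_log_atTop.const_mul_atTop hK
  exact this.atTop_mul_atTop₀ hll

lemma tendsto_YY (K : ℝ) (hK : 0 < K) : Tendsto (YY K) atTop atTop :=
  tendsto_nat_floor_atTop.comp (tendsto_prod K hK)

lemma tendsto_NN : Tendsto NN atTop atTop := by
  apply tendsto_nat_floor_atTop.comp
  exact tendsto_id.atTop_div_const (by norm_num)

/-- size of the set of values -/
lemma image_large (K : ℝ) (hK : 0 < K) (hK1 : K ≤ 1) (b c : ℤ) : ∀ᶠ X : ℝ in atTop,
    dd * K * X ≤ ((((PS (YY K X)) ×ˢ (QS (NN X))).image (g b c)).card : ℝ) := by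
  obtain ⟨M₀, hM₀, hsm⟩ := second_moment
  have hll : Tendsto (fun b : ℝ => Real.log (Real.log b)) atTop atTop :=
    Real.tendsto_log_atTop.comp Real.tendsto_log_atTop
  have hY := tendsto_YY K hK
  have hN := tendsto_NN
  have hlo : ∀ᶠ X : ℝ in atTop, Real.log X ≤ (1 / 100) * √X := log_small
  have hlo2 : ∀ᶠ X : ℝ in atTop, Real.log (Real.log X) ≤ (1 / 100) * √(Real.log X) :=
    Real.tendsto_log_atTop.eventually log_small
  filter_upwards [hY.eventually_ge_atTop M₀, hN.eventually_ge_atTop M₀,
    hY.eventually_ge_atTop (b.natAbs ^ 2), hY.eventually PS_card, hN.eventually QS_card,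
    hll.eventually_ge_atTop (2 / K), Real.tendsto_log_atTop.eventually_ge_atTop 2,
    eventually_ge_atTop 100, hlo, hlo2] with X h1 h2 h3 h4 h5 h6 h7 h8 h9 h10
  set L := Real.log X with hL
  set l := Real.log L with hl
  set Y := YY K X with hYdef
  set N := NN X with hNdef
  have hLpos : 0 < L := by linarith
  have hKl : 2 ≤ K * l := by
    rw [div_le_iff₀ hK] at h6
    linarith
  have hlpos : 0 < l := by
    have : 0 < 2 / K := by positivity
    linarith
  -- Y
  set x := K * L * l with hx
  have hx2 : 2 * L ≤ x := by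
    have : x = L * (K * l) := by rw [hx]; ring
    rw [this]; nlinarith
  have hYle : (Y : ℝ) ≤ x := by
    rw [hYdef]; unfold YY
    exact Nat.floor_le (by linarith)
  have hYge : x / 2 ≤ (Y : ℝ) := by
    have : x < (Y : ℝ) + 1 := by
      rw [hYdef]; unfold YY
      exact Nat.lt_floor_add_one _
    linarith
  have hYL : L ≤ (Y : ℝ) := by linarith
  have hlogY1 : l ≤ Real.log Y := Real.log_le_log hLpos hYL
  have hlogY2 : Real.log Y ≤ 2 * l := by
    have hsq : √L * √L = L := Real.mul_self_sqrt hLpos.le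
    have hs : √L ≤ L := by
      have h1L : 1 ≤ √L := Real.one_le_sqrt.2 (by linarith)
      nlinarith
    have hll' : l ≤ L := by linarith
    have h11 : (Y : ℝ) ≤ L ^ 2 := by
      calc (Y : ℝ) ≤ x := hYle
        _ = K * (L * l) := by rw [hx]; ring
        _ ≤ 1 * (L * L) := by gcongr
        _ = L ^ 2 := by ring
    have h12 := Real.log_le_log (by linarith) h11
    rw [Real.log_pow] at h12
    push_cast at h12
    exact h12
  have hlogYpos : 0 < Real.log Y := by linarith
  -- Y / log Y
  have hYq1 : K * L / 4 ≤ (Y : ℝ) / Real.log Y := by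
    rw [le_div_iff₀ hlogYpos]
    calc K * L / 4 * Real.log Y ≤ K * L / 4 * (2 * l) := by gcongr
      _ = x / 2 := by rw [hx]; ring
      _ ≤ Y := hYge
  have hYq2 : (Y : ℝ) / Real.log Y ≤ K * L := by
    rw [div_le_iff₀ hlogYpos]
    calc (Y : ℝ) ≤ x := hYle
      _ = K * L * l := hx
      _ ≤ K * L * Real.log Y := by gcongr
  -- N
  have hNle : (N : ℝ) ≤ X / 2 := by
    rw [hNdef]; unfold NN
    exact Nat.floor_le (by linarith)
  have hNge : X / 3 ≤ (N : ℝ) := by
    have : X / 2 < (N : ℝ) + 1 := by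
      rw [hNdef]; unfold NN
      exact Nat.lt_floor_add_one _
    linarith
  have hNpos : (0 : ℝ) < N := by linarith
  have hlogN1 : Real.log N ≤ L := Real.log_le_log hNpos (by linarith)
  have hlogN2 : L / 2 ≤ Real.log N := by
    have hsq : √X * √X = X := Real.mul_self_sqrt (by linarith)
    have hs3 : 3 ≤ √X := by
      rw [Real.le_sqrt (by norm_num) (by linarith)]
      linarith
    have h11 : √X ≤ (N : ℝ) := by nlinarith
    have h12 := Real.log_le_log (by linarith) h11
    rw [Real.log_sqrt (by linarith)] at h12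
    exact h12
  have hlogNpos : 0 < Real.log N := by linarith
  have hPge : K * L / 8 ≤ ((PS Y).card : ℝ) := by
    have : (1 / 2) * (Y : ℝ) / Real.log Y = (1 / 2) * ((Y : ℝ) / Real.log Y) := by ring
    rw [this] at h4
    linarith
  have hQge : X / (6 * L) ≤ ((QS N).card : ℝ) := by
    refine le_trans ?_ h5
    rw [div_le_div_iff₀ (by positivity) hlogNpos]
    nlinarith
  have hb : b.natAbs ≤ Nat.sqrt Y := by
    rw [Nat.le_sqrt']
    exact h3
  have hmain := hsm Y N h1 h2 b c hb
  set P := ((PS Y).card : ℝ) with hP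
  set Q := ((QS N).card : ℝ) with hQ
  set S := ((((PS Y) ×ˢ (QS N)).image (g b c)).card : ℝ) with hS
  have hXL : 0 < X / (6 * L) := by positivity
  have hQpos : 0 < Q := by linarith
  have hPpos : 0 < P := by
    have : 0 < K * L / 8 := by positivity
    linarith
  have hKK := KK_pos
  have hR : 1026 * (N : ℝ) / (Real.log N) ^ 2 * (14 * KK * (Y : ℝ) / Real.log Y) ≤
      344736 * KK * Q := by
    have e1 : 1026 * (N : ℝ) / (Real.log N) ^ 2 ≤ 1026 * (X / 2) / (L / 2) ^ 2 := by gcongr
    have e2 : 14 * KK * (Y : ℝ) / Real.log Y ≤ 14 * KK * (K * L) := by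
      have : 14 * KK * (Y : ℝ) / Real.log Y = 14 * KK * ((Y : ℝ) / Real.log Y) := by ring
      rw [this]
      gcongr
    calc 1026 * (N : ℝ) / (Real.log N) ^ 2 * (14 * KK * (Y : ℝ) / Real.log Y)
        ≤ (1026 * (X / 2) / (L / 2) ^ 2) * (14 * KK * (K * L)) := by gcongr
      _ = 28728 * KK * K * (X / L) := by field_simp; ring
      _ ≤ 28728 * KK * 1 * (X / L) := by gcongr
      _ = 28728 * KK * (6 * (X / (6 * L))) := by field_simp
      _ ≤ 28728 * KK * (6 * Q) := by gcongr
      _ = 172368 * (KK * Q) := by ring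
      _ ≤ 344736 * (KK * Q) := by
        have : 0 ≤ KK * Q := by positivity
        linarith
      _ = 344736 * KK * Q := by ring
  have hfac : (P * Q) ^ 2 ≤ S * (P * Q * (1 + 344736 * KK)) := by
    refine hmain.trans ?_
    apply mul_le_mul_of_nonneg_left _ (by positivity)
    have h20 := mul_le_mul_of_nonneg_left hR hPpos.le
    have h21 : P * (344736 * KK * Q) = P * Q * (344736 * KK) := by ring
    rw [h21] at h20
    have h22 : P * Q * (1 + 344736 * KK) = P * Q + P * Q * (344736 * KK) := by ring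
    rw [h22]
    linarith
  have hPQ : 0 < P * Q := by positivity
  have hfac2 : P * Q ≤ S * (1 + 344736 * KK) := by
    have : P * Q * (P * Q) ≤ P * Q * (S * (1 + 344736 * KK)) := by
      have e1 : P * Q * (P * Q) = (P * Q) ^ 2 := by ring
      have e2 : P * Q * (S * (1 + 344736 * KK)) = S * (P * Q * (1 + 344736 * KK)) := by ring
      rw [e1, e2]
      exact hfac
    exact le_of_mul_le_mul_left this hPQ
  have hPQge : K * X / 48 ≤ P * Q := by
    calc K * X / 48 = (K * L / 8) * (X / (6 * L)) := by field_simp; norm_num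
      _ ≤ P * Q := by gcongr
  have h13 : K * X / 48 ≤ S * (1 + 344736 * KK) := hPQge.trans hfac2
  have h14 : dd * K * X = (K * X / 48) / (1 + 344736 * KK) := by
    unfold dd
    field_simp
  rw [h14, div_le_iff₀ (by positivity)]
  exact h13

end Pool.Agent.Lib.MP_d9bc60_nt.Sieve
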