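import Mathlib
import Pool.Agent.Lib.MP_d9bc60_nt.ImageLarge

set_option autoImplicit false
set_option maxHeartbeats 1000000

open Finset Filter

namespace Pool.Agent.Lib.MP_d9bc60_nt.Sieve

/-- the integers counted in the theorem -/
def AA (b c : ℤ) (K X : ℝ) : Set ℤ :=
  {n : ℤ | 0 < n ∧ (n : ℝ) ≤ X ∧ Odd n ∧ (¬ ∃ x : ℤ, f b c x = n) ∧
    ∃ p₁ p₂ : ℕ, p₁.Prime ∧ p₂.Prime ∧ (p₁ : ℝ) ≤ K * Real.log X * Real.log (Real.log X) ∧
      n = f b c p₁ + p₂}

lemma AA_finite (b c : ℤ) (K X : ℝ) : (AA b c K X).Finite := by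
  apply Set.Finite.subset (Set.finite_Icc (0 : ℤ) ⌊X⌋)
  intro n hn
  exact ⟨hn.1.le, Int.le_floor.2 hn.2.1⟩

lemma pow_log : ∀ᶠ X : ℝ in atTop, 6 * (Real.log X) ^ 4 ≤ X := by
  have h : (fun x : ℝ => Real.log x ^ 4) =o[atTop] (id : ℝ → ℝ) := Real.isLittleO_pow_log_id_atTop
  have h1 := h.bound (c := 1 / 6) (by norm_num)
  filter_upwards [h1, eventually_ge_atTop 1] with X hX h2
  have h3 : 0 ≤ Real.log X := Real.log_nonneg h2
  rw [Real.norm_of_nonneg (by positivity), Real.norm_of_nonneg (by simp only [id]; linarith)] at hX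
  simp only [id] at hX
  linarith

/-- lower bound -/
lemma lower (K : ℝ) (hK : 0 < K) (hK1 : K ≤ 1) (b c : ℤ) (hbc : Odd (b + c)) :
    ∀ᶠ X : ℝ in atTop, dd / 2 * K * X ≤ ((AA b c K X).ncard : ℝ) := by
  classical
  have hll : Tendsto (fun b : ℝ => Real.log (Real.log b)) atTop atTop :=
    Real.tendsto_log_atTop.comp Real.tendsto_log_atTop
  have hY := tendsto_YY K hK
  have hsq : Tendsto (fun X : ℝ => √X) atTop atTop := Real.tendsto_sqrt_atTop
  have hlo2 : ∀ᶠ X : ℝ in atTop, Real.log (Real.log X) ≤ (1 / 100) * √(Real.log X) :=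
    Real.tendsto_log_atTop.eventually log_small
  filter_upwards [image_large K hK hK1 b c, hY.eventually_ge_atTop (b.natAbs ^ 2),
    hY.eventually_ge_atTop (c.natAbs ^ 2), hY.eventually_ge_atTop 4, pow_log,
    Real.tendsto_log_atTop.eventually_ge_atTop 2, hsq.eventually_ge_atTop (|(b : ℝ)|),
    eventually_ge_atTop (|(c : ℝ)|), hll.eventually_ge_atTop 1,
    hsq.eventually_ge_atTop (14 / (dd * K)), hsq.eventually_ge_atTop 1, eventually_ge_atTop 1,
    hlo2] with X h1 h2 h3 h4 h5 h6 h7 h8 h9 h10 h11 h12 h13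
  set L := Real.log X with hL
  set l := Real.log L with hl
  set Y := YY K X with hYdef
  set N := NN X with hNdef
  set S := ((PS Y) ×ˢ (QS N)).image (g b c) with hS
  have hLpos : 0 < L := by linarith
  have hx0 : 0 ≤ K * L * l := by positivity
  have hYle : (Y : ℝ) ≤ K * L * l := by
    rw [hYdef]; unfold YY
    exact Nat.floor_le hx0
  have hllL : l ≤ L := by
    have hsqL : √L * √L = L := Real.mul_self_sqrt hLpos.le
    have h1L : 1 ≤ √L := Real.one_le_sqrt.2 (by linarith)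
    nlinarith
  have hYL : (Y : ℝ) ≤ L ^ 2 := by
    calc (Y : ℝ) ≤ K * L * l := hYle
      _ = K * (L * l) := by ring
      _ ≤ 1 * (L * L) := by gcongr
      _ = L ^ 2 := by ring
  have hY2 : 6 * (Y : ℝ) ^ 2 ≤ X := by
    have : (Y : ℝ) ^ 2 ≤ (L ^ 2) ^ 2 := by gcongr
    nlinarith
  have hNle : (N : ℝ) ≤ X / 2 := by
    rw [hNdef]; unfold NN
    exact Nat.floor_le (by linarith)
  have hbY : b.natAbs ≤ Nat.sqrt Y := by rw [Nat.le_sqrt']; exact h2
  have hcY : c.natAbs ≤ Nat.sqrt Y := by rw [Nat.le_sqrt']; exact h3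
  have hsY : 2 ≤ Nat.sqrt Y := by rw [Nat.le_sqrt']; omega
  have hsYY : Nat.sqrt Y ≤ Y := Nat.sqrt_le_self Y
  -- elements of S
  have hSprop : ∀ n ∈ S, 0 < n ∧ (n : ℝ) ≤ X ∧ Odd n ∧
      ∃ p₁ p₂ : ℕ, p₁.Prime ∧ p₂.Prime ∧ (p₁ : ℝ) ≤ K * L * l ∧ n = f b c p₁ + p₂ := by
    intro n hn
    rw [hS, Finset.mem_image] at hn
    obtain ⟨⟨p, q⟩, hpq, rfl⟩ := hn
    rw [Finset.mem_product, PS, QS, Finset.mem_filter, Finset.mem_filter, Finset.mem_Icc,
      Finset.mem_Icc] at hpq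
    obtain ⟨⟨⟨_, hpY⟩, hpp, hps⟩, ⟨⟨_, hqN⟩, hqp, hq2⟩⟩ := hpq
    simp only at hpY hpp hps hqN hqp hq2
    have e1 : (b.natAbs : ℤ) ≤ Nat.sqrt Y := by exact_mod_cast hbY
    have e2 : (c.natAbs : ℤ) ≤ Nat.sqrt Y := by exact_mod_cast hcY
    have e3 : ((Nat.sqrt Y : ℕ) : ℤ) + 1 ≤ p := by exact_mod_cast hps
    have e4 : -(b.natAbs : ℤ) ≤ b := by omega
    have e5 : -(c.natAbs : ℤ) ≤ c := by omega
    have e6 : b ≤ (b.natAbs : ℤ) := by omega
    have e7 : c ≤ (c.natAbs : ℤ) := by omega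
    have e8 : (p : ℤ) ≤ Y := by exact_mod_cast hpY
    have e9 : ((Nat.sqrt Y : ℕ) : ℤ) ≤ Y := by exact_mod_cast hsYY
    have e10 : (0 : ℤ) < q := by exact_mod_cast hqp.pos
    have hfpos : 0 < f b c p := by
      unfold f
      have : 1 ≤ (p : ℤ) + b := by linarith
      have hp0 : (0 : ℤ) ≤ p := by positivity
      nlinarith
    have hfle : f b c p ≤ 3 * (Y : ℤ) ^ 2 := by
      unfold f
      have hp0 : (0 : ℤ) ≤ p := by positivity
      have hY1 : (1 : ℤ) ≤ Y := by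
        have : 1 ≤ Y := by omega
        exact_mod_cast this
      have a1 : (p : ℤ) ^ 2 ≤ (Y : ℤ) ^ 2 := by gcongr
      have a2 : b * p ≤ (Y : ℤ) * Y := by
        calc b * p ≤ (Y : ℤ) * p := by
              apply mul_le_mul_of_nonneg_right _ hp0
              linarith
          _ ≤ (Y : ℤ) * Y := by gcongr
      have a3 : c ≤ (Y : ℤ) ^ 2 := by nlinarith
      nlinarith
    refine ⟨?_, ?_, ?_, p, q, hpp, hqp, ?_, rfl⟩
    · show 0 < f b c p + q
      linarith
    · show ((f b c p + (q : ℤ) : ℤ) : ℝ) ≤ X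
      have a1 : ((f b c p : ℤ) : ℝ) ≤ 3 * (Y : ℝ) ^ 2 := by exact_mod_cast hfle
      have a2 : (q : ℝ) ≤ N := by exact_mod_cast hqN
      push_cast
      linarith
    · show Odd (f b c p + q)
      obtain ⟨k, hk⟩ := hpp.odd_of_ne_two (by omega)
      obtain ⟨m, hm⟩ := hqp.odd_of_ne_two (by omega)
      obtain ⟨r, hr⟩ := hbc
      refine ⟨2 * k ^ 2 + 2 * k + b * k + r + m + 1, ?_⟩
      unfold f
      rw [hk, hm]
      push_cast
      have hc : c = 2 * r + 1 - b := by linarith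
      rw [hc]
      ring
    · have : (p : ℝ) ≤ Y := by exact_mod_cast hpY
      exact this.trans hYle
  -- remove values of f
  set S' := S.filter (fun n => ¬ ∃ x : ℤ, f b c x = n) with hS'
  have hsub : (S' : Set ℤ) ⊆ AA b c K X := by
    intro n hn
    rw [Finset.mem_coe, hS', Finset.mem_filter] at hn
    have := hSprop n hn.1
    exact ⟨this.1, this.2.1, this.2.2.1, hn.2, this.2.2.2⟩
  have hcard1 : (S'.card : ℝ) ≤ ((AA b c K X).ncard : ℝ) := by
    have := Set.ncard_le_ncard hsub (AA_finite b c K X)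
    rw [Set.ncard_coe_finset] at this
    exact_mod_cast this
  have hXpos : 0 < X := by linarith
  have hsqX : √X * √X = X := Real.mul_self_sqrt hXpos.le
  have hcard2 : ((S.filter (fun n => ∃ x : ℤ, f b c x = n)).card : ℝ) ≤ 7 * √X := by
    set M : ℤ := ⌊3 * √X⌋ with hM
    have hsub2 : S.filter (fun n => ∃ x : ℤ, f b c x = n) ⊆ (Finset.Icc (-M) M).image (f b c) := by
      intro n hn
      rw [Finset.mem_filter] at hn
      obtain ⟨hnS, x, hx⟩ := hn
      have hnX := (hSprop n hnS).2.1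
      rw [Finset.mem_image]
      refine ⟨x, ?_, hx⟩
      have hxabs : |(x : ℝ)| ≤ 3 * √X := by
        by_contra hcon
        push Not at hcon
        have hfx : ((f b c x : ℤ) : ℝ) = (x : ℝ) ^ 2 + b * x + c := by unfold f; push_cast; ring
        have a1 : -(|(b : ℝ)| * |(x : ℝ)|) ≤ (b : ℝ) * x := by
          rw [← abs_mul]; exact neg_abs_le _
        have a2 : -|(c : ℝ)| ≤ c := neg_abs_le _
        have a3 : (x : ℝ) ^ 2 = |(x : ℝ)| * |(x : ℝ)| := by
          rw [abs_mul_abs_self]; ring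
        have a4 : |(b : ℝ)| * |(x : ℝ)| ≤ √X * |(x : ℝ)| := by gcongr
        have a5 : (x : ℝ) ^ 2 + b * x + c ≤ X := by rw [← hfx, hx]; exact hnX
        have a6 : |(x : ℝ)| * (|(x : ℝ)| - √X) ≥ (3 * √X) * (2 * √X) := by
          apply mul_le_mul
          · exact hcon.le
          · linarith
          · positivity
          · positivity
        nlinarith
      rw [Finset.mem_Icc]
      rw [abs_le] at hxabs
      constructor
      · have : -x ≤ M := by
          rw [hM, Int.le_floor]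
          push_cast
          linarith
        linarith
      · rw [hM, Int.le_floor]
        exact hxabs.2
    have h20 := (Finset.card_le_card hsub2).trans Finset.card_image_le
    rw [Int.card_Icc] at h20
    have hM0 : 0 ≤ M := by rw [hM]; positivity
    have hMle : (M : ℝ) ≤ 3 * √X := Int.floor_le _
    have h21 : (((M + 1 - -M).toNat : ℕ) : ℤ) = 2 * M + 1 := by
      rw [Int.toNat_of_nonneg (by linarith)]
      ring
    have h22 : (((M + 1 - -M).toNat : ℕ) : ℝ) = 2 * M + 1 := by exact_mod_cast h21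
    have h23 : ((S.filter (fun n => ∃ x : ℤ, f b c x = n)).card : ℝ) ≤
        (((M + 1 - -M).toNat : ℕ) : ℝ) := by exact_mod_cast h20
    rw [h22] at h23
    linarith
  have hsum : (S.card : ℝ) = ((S.filter (fun n => ∃ x : ℤ, f b c x = n)).card : ℝ) +
      (S'.card : ℝ) := by
    have := Finset.card_filter_add_card_filter_not (s := S) (fun n => ∃ x : ℤ, f b c x = n)
    exact_mod_cast this.symm
  have hdK : 0 < dd * K := mul_pos dd_pos hK
  have h14 : 14 ≤ dd * K * √X := by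
    rw [div_le_iff₀ hdK] at h10
    linarith
  have h15 : 7 * √X ≤ dd / 2 * K * X := by
    have : dd / 2 * K * X = (dd * K * √X) / 2 * √X := by
      calc dd / 2 * K * X = dd / 2 * K * (√X * √X) := by rw [hsqX]
        _ = (dd * K * √X) / 2 * √X := by ring
    rw [this]
    nlinarith
  have h16 : dd * K * X = dd / 2 * K * X + dd / 2 * K * X := by ring
  linarith

/-- upper bound -/
lemma upper (K : ℝ) (hK : 0 < K) (b c : ℤ) :
    ∀ᶠ X : ℝ in atTop, ((AA b c K X).ncard : ℝ) ≤ 16 * K * X := by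
  classical
  filter_upwards [E6 K hK, eventually_ge_atTop ((b : ℝ) ^ 2 + |(c : ℝ)|)] with X h1 h2
  obtain ⟨h3, h4, h5⟩ := h1
  set x := K * Real.log X * Real.log (Real.log X) with hx
  have hXpos : 0 < X := by linarith
  have hlog : 0 < Real.log X := Real.log_pos (by linarith)
  have hsub : AA b c K X ⊆ ((((Nat.primesLE ⌊x⌋₊) ×ˢ (Nat.primesLE ⌊2 * X⌋₊)).image
      (g b c) : Finset ℤ) : Set ℤ) := by
    intro n hn
    obtain ⟨hn0, hnX, _, _, p₁, p₂, hp₁, hp₂, hle, hnp⟩ := hn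
    rw [Finset.mem_coe, Finset.mem_image]
    refine ⟨(p₁, p₂), ?_, hnp.symm⟩
    rw [Finset.mem_product, Nat.mem_primesLE, Nat.mem_primesLE]
    refine ⟨⟨Nat.le_floor hle, hp₁⟩, ⟨?_, hp₂⟩⟩
    apply Nat.le_floor
    have hfx : ((f b c p₁ : ℤ) : ℝ) = (p₁ : ℝ) ^ 2 + b * p₁ + c := by unfold f; push_cast; ring
    have hn' : (n : ℝ) = ((f b c p₁ : ℤ) : ℝ) + p₂ := by rw [hnp]; push_cast; ring
    have a2 : -|(c : ℝ)| ≤ c := neg_abs_le _
    have a3 : -((b : ℝ) ^ 2) ≤ (p₁ : ℝ) ^ 2 + b * p₁ := by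
      nlinarith [sq_nonneg ((p₁ : ℝ) + b / 2)]
    show (p₂ : ℝ) ≤ 2 * X
    rw [hfx] at hn'
    linarith
  have h6 := Set.ncard_le_ncard hsub (Finset.finite_toSet _)
  rw [Set.ncard_coe_finset] at h6
  have h7 := h6.trans Finset.card_image_le
  rw [Finset.card_product, Nat.primesLE_card_eq_primeCounting,
    Nat.primesLE_card_eq_primeCounting] at h7
  have h8 : ((AA b c K X).ncard : ℝ) ≤ (Nat.primeCounting ⌊x⌋₊ : ℝ) *
      (Nat.primeCounting ⌊2 * X⌋₊ : ℝ) := by exact_mod_cast h7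
  have h9 := h4 (2 * X) (by linarith)
  calc ((AA b c K X).ncard : ℝ) ≤ (Nat.primeCounting ⌊x⌋₊ : ℝ) *
      (Nat.primeCounting ⌊2 * X⌋₊ : ℝ) := h8
    _ ≤ (4 * K * Real.log X) * (2 * (2 * X) / Real.log X) := by gcongr
    _ = 16 * K * X := by
      field_simp
      norm_num

/-- the two-sided bound -/
theorem two_sided : ∃ δ D : ℝ, 0 < δ ∧ 0 < D ∧ ∀ b c : ℤ, Odd (b + c) → ∀ K : ℝ, 0 < K →
    ∃ X₀ : ℝ, ∀ X : ℝ, X₀ ≤ X →
      δ * min K 1 * X ≤ ((AA b c K X).ncard : ℝ) ∧ ((AA b c K X).ncard : ℝ) ≤ D * K * X := by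
  refine ⟨dd / 2, 16, by have := dd_pos; positivity, by norm_num, ?_⟩
  intro b c hbc K hK
  rw [← Filter.eventually_atTop]
  have hll : Tendsto (fun b : ℝ => Real.log (Real.log b)) atTop atTop :=
    Real.tendsto_log_atTop.comp Real.tendsto_log_atTop
  rcases le_total K 1 with h1 | h1
  · filter_upwards [lower K hK h1 b c hbc, upper K hK b c] with X a1 a2
    rw [min_eq_left h1]
    exact ⟨a1, a2⟩
  · filter_upwards [lower 1 one_pos le_rfl b c hbc, upper K hK b c,
      hll.eventually_ge_atTop 0, Real.tendsto_log_atTop.eventually_ge_atTop 0] with X a1 a2 a3 a4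
    rw [min_eq_right h1]
    refine ⟨a1.trans ?_, a2⟩
    have hsub : AA b c 1 X ⊆ AA b c K X := by
      rintro n ⟨b1, b2, b3, b4, p₁, p₂, b5, b6, b7, b8⟩
      refine ⟨b1, b2, b3, b4, p₁, p₂, b5, b6, b7.trans ?_, b8⟩
      gcongr
    exact_mod_cast Set.ncard_le_ncard hsub (AA_finite b c K X)

end Pool.Agent.Lib.MP_d9bc60_nt.Sieve
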